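import Pool.Agent.Helper28.EQ.Defs

/-!
# Block EQ-BA: balancing by recolouring single vertices (deterministic)

PROOF. Show by induction on `r ≤ μ`: as long as some `c ∈ U` has more than `N` vertices we can
continue. Invariant: a proper colouring `f'` from the lists and a set `W` with `f' = f` outside `W` and
`|W| + ∑_{c ∈ U} (X'_c - N) ≤ μ` (truncated subtraction). If `X'_c > N` for some `c ∈ U`, then, as
`∑_{c ∈ U} X'_c ≤ |V| ≤ k N = |U| N`, some `c' ∈ U` has `X'_{c'} < N`. By `hM` and `|W| < μ`... the set
`M(c, c')` has more than `(D+1) μ ≥ |N[W]|` elements (`N[W]` = vertices in `W` or with a neighbour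
in `W`, at most `(D+1)|W|`), so it contains `v ∉ N[W]`; recolour `v` with `c'`, put `v` in `W`: still
proper, the sum of the excesses decreases by one.
-/

namespace Pool.Agent.Helper28.EQ

open Finset

variable {V : Type} [Fintype V] [DecidableEq V] (G : SimpleGraph V) [DecidableRel G.Adj]

theorem balance (k D N μ : ℕ) (hD : ∀ v, G.degree v ≤ D) (hN : Fintype.card V ≤ k * N)
    (L : V → Finset ℕ) (U : Finset ℕ) (hU : U.card = k) (f : V → ℕ) (hf1 : ∀ v, f v ∈ L v)
    (hf2 : ∀ u v, G.Adj u v → f u ≠ f v)
    (hex : ∑ c ∈ U, ((univ.filter fun v => f v = c).card - N) ≤ μ)
    (hM : ∀ c ∈ U, ∀ c' ∈ U, c ≠ c' → (D + 1) * μ <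
      (univ.filter fun v => f v = c ∧ c' ∈ L v ∧ ∀ u ∈ G.neighborFinset v, f u ≠ c').card) :
    ∃ f' : V → ℕ, (∀ v, f' v ∈ L v) ∧ (∀ u v, G.Adj u v → f' u ≠ f' v) ∧
      ∀ c ∈ U, (univ.filter fun v => f' v = c).card ≤ N := by
  have key : ∀ (j : ℕ) (g : V → ℕ) (W : Finset V), (∀ v, g v ∈ L v) →
      (∀ u v, G.Adj u v → g u ≠ g v) → (∀ v, v ∉ W → g v = f v) →
      ∑ c ∈ U, ((univ.filter fun v => g v = c).card - N) = j → W.card + j ≤ μ →
      ∃ f' : V → ℕ, (∀ v, f' v ∈ L v) ∧ (∀ u v, G.Adj u v → f' u ≠ f' v) ∧
        ∀ c ∈ U, (univ.filter fun v => f' v = c).card ≤ N := by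
    intro j
    induction j with
    | zero =>
      intro g W hg1 hg2 _ hs _
      refine ⟨g, hg1, hg2, fun c hc => ?_⟩
      have h1 := (sum_eq_zero_iff.1 hs) c hc
      omega
    | succ j ih =>
      intro g W hg1 hg2 hgW hs hW
      -- an overused colour
      obtain ⟨c, hc, hcN⟩ : ∃ c ∈ U, N < (univ.filter fun v => g v = c).card := by
        by_contra h
        push Not at h
        have : ∑ c ∈ U, ((univ.filter fun v => g v = c).card - N) = 0 :=
          sum_eq_zero fun c hc => by have := h c hc; omega
        omega
      -- an underused colour
      obtain ⟨c', hc', hcN'⟩ : ∃ c' ∈ U, (univ.filter fun v => g v = c').card < N := by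
        by_contra h
        push Not at h
        have h1 : ∑ c ∈ U, (univ.filter fun v => g v = c).card ≤ Fintype.card V := by
          rw [← card_biUnion]
          · exact card_le_univ _
          · intro a _ b _ hab
            refine Finset.disjoint_left.2 ?_
            intro v hv hv'
            rw [mem_filter] at hv hv'
            exact hab (hv.2.symm.trans hv'.2)
        have h2 : ∑ _c ∈ U, N < ∑ c ∈ U, (univ.filter fun v => g v = c).card :=
          sum_lt_sum (fun a ha => h a ha) ⟨c, hc, hcN⟩
        rw [sum_const, smul_eq_mul, hU] at h2
        omega
      have hne : c ≠ c' := by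
        rintro rfl
        omega
      -- the closed neighbourhood of `W`
      set Z : Finset V := W ∪ W.biUnion (fun w => G.neighborFinset w) with hZ
      have hZc : Z.card ≤ (D + 1) * μ := by
        have h1 : (W.biUnion (fun w => G.neighborFinset w)).card ≤ W.card * D := by
          refine card_biUnion_le_card_mul _ _ _ fun w _ => ?_
          rw [SimpleGraph.card_neighborFinset_eq_degree]
          exact hD w
        have h2 := card_union_le W (W.biUnion (fun w => G.neighborFinset w))
        have h3 : W.card * (D + 1) ≤ μ * (D + 1) := Nat.mul_le_mul_right _ (by omega)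
        rw [mul_comm (D + 1)]
        rw [mul_add, mul_one] at h3
        have h4 : Z.card ≤ W.card + W.card * D := h2.trans (by omega)
        omega
      obtain ⟨v, hv, hvZ⟩ : ∃ v ∈ univ.filter fun v => f v = c ∧ c' ∈ L v ∧
          ∀ u ∈ G.neighborFinset v, f u ≠ c', v ∉ Z := by
        by_contra h
        push Not at h
        have h1 := card_le_card (s := univ.filter fun v => f v = c ∧ c' ∈ L v ∧
          ∀ u ∈ G.neighborFinset v, f u ≠ c') (t := Z) h
        have h2 := hM c hc c' hc' hne
        omega
      rw [mem_filter] at hv
      obtain ⟨-, hvc, hvL, hvN⟩ := hv
      rw [hZ, mem_union, not_or, mem_biUnion] at hvZ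
      obtain ⟨hvW, hvW2⟩ := hvZ
      have hgv : g v = c := by rw [hgW v hvW, hvc]
      have hnb : ∀ u, G.Adj v u → g u ≠ c' := by
        intro u hu
        have huW : u ∉ W := by
          intro h
          refine hvW2 ⟨u, h, ?_⟩
          rw [SimpleGraph.mem_neighborFinset]
          exact hu.symm
        rw [hgW u huW]
        exact hvN u ((SimpleGraph.mem_neighborFinset _ _ _).2 hu)
      have hupd : ∀ u, Function.update g v c' u = if u = v then c' else g u := by
        intro u
        rw [Function.update_apply]
      refine ih (Function.update g v c') (insert v W) ?_ ?_ ?_ ?_ ?_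
      · intro u
        rw [hupd]
        split_ifs with h
        · rw [h]; exact hvL
        · exact hg1 u
      · intro a b hab
        rw [hupd, hupd]
        split_ifs with h1 h2 h2
        · subst h1
          subst h2
          exact absurd hab (G.irrefl)
        · subst h1
          exact (hnb b hab).symm
        · subst h2
          exact hnb a hab.symm
        · exact hg2 a b hab
      · intro u hu
        rw [mem_insert, not_or] at hu
        rw [hupd, if_neg hu.1]
        exact hgW u hu.2
      · -- the sum of the excesses
        have hXc : (univ.filter fun u => Function.update g v c' u = c).card + 1 =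
            (univ.filter fun u => g u = c).card := by
          have h1 : (univ.filter fun u => g u = c) =
              insert v (univ.filter fun u => Function.update g v c' u = c) := by
            ext u
            simp only [mem_filter, mem_univ, true_and, mem_insert, hupd]
            by_cases h : u = v
            · simp [h, hgv]
            · simp [h]
          rw [h1, card_insert_of_notMem]
          simp only [mem_filter, mem_univ, true_and, hupd, if_true]
          exact fun h => hne h.symm
        have hXc' : (univ.filter fun u => Function.update g v c' u = c').card =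
            (univ.filter fun u => g u = c').card + 1 := by
          have h1 : (univ.filter fun u => Function.update g v c' u = c') =
              insert v (univ.filter fun u => g u = c') := by
            ext u
            simp only [mem_filter, mem_univ, true_and, mem_insert, hupd]
            by_cases h : u = v
            · simp [h]
            · simp [h]
          rw [h1, card_insert_of_notMem]
          simp only [mem_filter, mem_univ, true_and, hgv]
          exact hne
        have hXo : ∀ a, a ≠ c → a ≠ c' →
            (univ.filter fun u => Function.update g v c' u = a) = univ.filter fun u => g u = a := by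
          intro a h1 h2
          ext u
          simp only [mem_filter, mem_univ, true_and, hupd]
          by_cases h : u = v
          · subst h
            simp [h2.symm, hgv, h1.symm]
          · simp [h]
        have h1 : ∑ a ∈ U, ((univ.filter fun u => Function.update g v c' u = a).card - N) + 1 =
            ∑ a ∈ U, ((univ.filter fun u => g u = a).card - N) := by
          rw [← add_sum_erase U _ hc, ← add_sum_erase U (fun a =>
            ((univ.filter fun u => g u = a).card - N)) hc]
          have h2 : ∑ a ∈ U.erase c, ((univ.filter fun u => Function.update g v c' u = a).card - N) =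
              ∑ a ∈ U.erase c, ((univ.filter fun u => g u = a).card - N) := by
            refine sum_congr rfl fun a ha => ?_
            rw [mem_erase] at ha
            by_cases h : a = c'
            · subst h
              rw [hXc']
              omega
            · rw [hXo a ha.1 h]
          rw [h2]
          omega
        omega
      · have h1 := card_insert_le v W
        omega
  exact key _ f ∅ hf1 hf2 (fun v _ => rfl) rfl (by rw [card_empty, zero_add]; exact hex)

end Pool.Agent.Helper28.EQ
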