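import Pool.Agent.Helper28.EQ.Defs

/-!
# Block EQ-PB: product expectation, independence

PROOFS. `Ex_prod`: write the product over `S` as the product over all `v` of `g v` or `1`, then
`∑ ω, ∏ v, w v (ω v) * g' v (ω v) = ∏ v, ∑ a, w v a * g' v a` (`Finset.prod_univ_sum`).
`Ex_coord`: split the sum over `ω` with `Equiv.funSplitAt v` or use: the right hand side is
`∑ ω, ∑ a, (∏ u, w u (ω u)) * w v a * g (update ω v a)`; substitute `(ω, a) ↦ (update ω v a, ω v)`
(an involution of `(V → α) × α`) and sum over the last coordinate (`∑ a, w v a = 1`).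
`Ex_indep`: e.g. by `Equiv.piEquivPiSubtypeProd (· ∈ S)`: the expectation of a function is an
iterated expectation over the coordinates in `S` and outside `S`; or by induction over the
coordinates with `Ex_coord`. `Ex_fubini`: `Equiv.arrowProdEquivProdArrow`.
-/

namespace Pool.Agent.Helper28.EQ

open Finset

variable {V α β γ : Type} [Fintype V] [DecidableEq V] [Fintype α] [Fintype β] [Fintype γ]

theorem h22_sum_prod {w : V → α → ℝ} (hw : IsW w) : ∑ ω : V → α, ∏ v, w v (ω v) = 1 := by
  have h := Finset.prod_univ_sum (fun _ : V => (Finset.univ : Finset α)) w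
  rw [Fintype.piFinset_univ] at h
  rw [← h]
  exact Finset.prod_eq_one (fun v _ => hw.2 v)

theorem Ex_coord {w : V → α → ℝ} (hw : IsW w) (v : V) (g : (V → α) → ℝ) :
    Ex w g = Ex w (fun ω => ∑ a, w v a * g (Function.update ω v a)) := by
  classical
  let e : ((V → α) × α) ≃ ((V → α) × α) :=
    { toFun := fun p => (Function.update p.1 v p.2, p.1 v)
      invFun := fun p => (Function.update p.1 v p.2, p.1 v)
      left_inv := fun p => by
        ext x
        · simp
        · simp
      right_inv := fun p => by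
        ext x
        · simp
        · simp }
  have key : ∀ (ω : V → α) (a : α), (∏ u, w u (Function.update ω v a u)) * w v (ω v) =
      (∏ u, w u (ω u)) * w v a := by
    intro ω a
    rw [← Finset.mul_prod_erase Finset.univ (fun u => w u (Function.update ω v a u))
      (Finset.mem_univ v), ← Finset.mul_prod_erase Finset.univ (fun u => w u (ω u))
      (Finset.mem_univ v)]
    have h1 : ∏ u ∈ Finset.univ.erase v, w u (Function.update ω v a u) =
        ∏ u ∈ Finset.univ.erase v, w u (ω u) := by
      refine Finset.prod_congr rfl (fun u hu => ?_)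
      rw [Function.update_of_ne (Finset.ne_of_mem_erase hu)]
    simp only [h1, Function.update_self]
    ring
  let F : (V → α) × α → ℝ := fun p => ((∏ u, w u (p.1 u)) * w v p.2) * g p.1
  have h1 : Ex w g = ∑ p, F p := by
    rw [Fintype.sum_prod_type]
    unfold Ex
    refine Finset.sum_congr rfl (fun ω _ => ?_)
    simp only [F]
    rw [← Finset.sum_mul, ← Finset.mul_sum, hw.2 v, mul_one]
  have h2 : Ex w (fun ω => ∑ a, w v a * g (Function.update ω v a)) = ∑ p, F (e p) := by
    rw [Fintype.sum_prod_type]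
    unfold Ex
    refine Finset.sum_congr rfl (fun ω _ => ?_)
    rw [Finset.mul_sum]
    refine Finset.sum_congr rfl (fun a _ => ?_)
    simp only [F, e, Equiv.coe_fn_mk]
    rw [key]
    ring
  rw [h1, h2, Equiv.sum_comp e F]

theorem Ex_prod {w : V → α → ℝ} (hw : IsW w) (S : Finset V) (g : V → α → ℝ) :
    Ex w (fun ω => ∏ v ∈ S, g v (ω v)) = ∏ v ∈ S, ∑ a, w v a * g v a := by
  classical
  have h := Finset.prod_univ_sum (fun _ : V => (Finset.univ : Finset α))
    (fun v a => w v a * (if v ∈ S then g v a else 1))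
  rw [Fintype.piFinset_univ] at h
  have h1 : Ex w (fun ω => ∏ v ∈ S, g v (ω v)) =
      ∑ ω : V → α, ∏ v, (w v (ω v) * (if v ∈ S then g v (ω v) else 1)) := by
    unfold Ex
    refine Finset.sum_congr rfl (fun ω _ => ?_)
    rw [Finset.prod_mul_distrib, Finset.prod_ite_mem, Finset.univ_inter]
  rw [h1, ← h]
  rw [← Finset.prod_subset (Finset.subset_univ S)]
  · refine Finset.prod_congr rfl (fun v hv => ?_)
    refine Finset.sum_congr rfl (fun a _ => ?_)
    rw [if_pos hv]
  · intro v _ hv
    simp only [if_neg hv, mul_one]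
    exact hw.2 v

theorem Ex_indep {w : V → α → ℝ} (hw : IsW w) {S T : Finset V} (hST : Disjoint S T)
    {g h : (V → α) → ℝ} (hg : Dep g S) (hh : Dep h T) :
    Ex w (fun ω => g ω * h ω) = Ex w g * Ex w h := by
  classical
  let sw : ((V → α) × (V → α)) → ((V → α) × (V → α)) := fun p =>
    (fun u => if u ∈ S then p.1 u else p.2 u, fun u => if u ∈ S then p.2 u else p.1 u)
  have hinv : ∀ p, sw (sw p) = p := by
    intro p
    refine Prod.ext ?_ ?_
    · funext u
      by_cases hu : u ∈ S <;> simp [sw, hu]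
    · funext u
      by_cases hu : u ∈ S <;> simp [sw, hu]
  let e : ((V → α) × (V → α)) ≃ ((V → α) × (V → α)) := ⟨sw, sw, hinv, hinv⟩
  let P : (V → α) → ℝ := fun ω => ∏ v, w v (ω v)
  have hP : ∀ p, P (sw p).1 * P (sw p).2 = P p.1 * P p.2 := by
    intro p
    simp only [P]
    rw [← Finset.prod_mul_distrib, ← Finset.prod_mul_distrib]
    refine Finset.prod_congr rfl (fun u _ => ?_)
    by_cases hu : u ∈ S
    · simp [sw, hu]
    · simp [sw, hu, mul_comm]
  let F : ((V → α) × (V → α)) → ℝ := fun p => P p.1 * P p.2 * (g p.1 * h p.1)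
  have hF : ∀ p, F (e p) = P p.1 * P p.2 * (g p.1 * h p.2) := by
    intro p
    simp only [F]
    have e1 : g (e p).1 = g p.1 := by
      refine hg _ _ (fun u hu => ?_)
      simp [e, sw, hu]
    have e2 : h (e p).1 = h p.2 := by
      refine hh _ _ (fun u hu => ?_)
      have hu' : u ∉ S := fun h' => (Finset.disjoint_left.1 hST) h' hu
      simp [e, sw, hu']
    rw [e1, e2]
    congr 1
    exact hP p
  have h1 : Ex w g * Ex w h = ∑ p, F (e p) := by
    rw [Fintype.sum_prod_type]
    unfold Ex
    rw [Finset.sum_mul_sum]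
    refine Finset.sum_congr rfl (fun ω _ => Finset.sum_congr rfl (fun ω' _ => ?_))
    rw [hF]
    simp only [P]
    ring
  have h2 : Ex w (fun ω => g ω * h ω) = ∑ p, F p := by
    rw [Fintype.sum_prod_type]
    unfold Ex
    refine Finset.sum_congr rfl (fun ω _ => ?_)
    have h3 : ∑ ω' : V → α, F (ω, ω') = (P ω * (g ω * h ω)) * ∑ ω' : V → α, P ω' := by
      rw [Finset.mul_sum]
      refine Finset.sum_congr rfl (fun ω' _ => ?_)
      simp only [F]
      ring
    rw [h3, h22_sum_prod hw, mul_one]
  rw [h1, h2, Equiv.sum_comp e F]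

theorem Ex_equiv {w : V → α → ℝ} (e : (V → α) ≃ (V → α))
    (he : ∀ ω, ∏ v, w v (e ω v) = ∏ v, w v (ω v)) (g : (V → α) → ℝ) :
    Ex w (fun ω => g (e ω)) = Ex w g := by
  unfold Ex
  rw [← Equiv.sum_comp e (fun ω => (∏ v, w v (ω v)) * g ω)]
  refine Finset.sum_congr rfl (fun ω _ => ?_)
  rw [he]

theorem Ex_fubini (w1 : V → β → ℝ) (w2 : V → γ → ℝ) (g : (V → β × γ) → ℝ) :
    Ex (fun v (a : β × γ) => w1 v a.1 * w2 v a.2) g
      = Ex w2 (fun s => Ex w1 (fun t => g (fun v => (t v, s v)))) := by
  classical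
  let e : (V → β) × (V → γ) ≃ (V → β × γ) :=
    { toFun := fun p v => (p.1 v, p.2 v)
      invFun := fun ω => (fun v => (ω v).1, fun v => (ω v).2)
      left_inv := fun p => rfl
      right_inv := fun ω => rfl }
  unfold Ex
  rw [← Equiv.sum_comp e, Fintype.sum_prod_type, Finset.sum_comm]
  refine Finset.sum_congr rfl (fun s _ => ?_)
  rw [Finset.mul_sum]
  refine Finset.sum_congr rfl (fun t _ => ?_)
  simp only [e, Equiv.coe_fn_mk]
  rw [Finset.prod_mul_distrib]
  ring

end Pool.Agent.Helper28.EQ
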