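import Pool.Agent.Helper28.EQ.ProbA
import Pool.Agent.Helper28.EQ.ProbB

/-!
# Block EQ-BG: the choices of the big neighbours

PROOF. Step (pure arithmetic): for `m + 2 ≤ k`, all `g` and `0 ≤ p ≤ min 1 (g/k)`:
`p φ_m(g-1) + (1-p) φ_m(g) ≤ φ_{m+1}(g)`. (For `g ≤ m+1` the left side is `1 - (g-p)/(m+1)` and
`(g/(m+1))(1-1/k) ≥ g/(m+2)` because `k ≥ m+2`; for `g ≥ m+2` both `φ_m(g-1)` and `φ_m(g)` are 0.)
Induction on `B` (`Finset.induction_on`, `m` and `Z` general): for `B = insert u B'` use `Ex_coord` at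
`u`: the set `Z \ B'.image ..` does not depend on `ω u`, removing the colour `P u a` removes an
element with probability `≤ g/k` (`hP` summed over the colours of the set), so
`E φ_m(|Z \ image over B|) ≤ E φ_{m+1}(|Z \ image over B'|) ≤ φ_{m+1+|B'|}(|Z|)`.
-/

namespace Pool.Agent.Helper28.EQ

open Finset

theorem h60_phi_nonneg (m g : ℕ) : 0 ≤ φ m g := le_max_left _ _

theorem h60_step {m k g : ℕ} (hk : m + 2 ≤ k) {p : ℝ} (hp0 : 0 ≤ p)
    (hpg : p ≤ g / k) : p * φ m (g - 1) + (1 - p) * φ m g ≤ φ (m + 1) g := by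
  have hk0 : (0 : ℝ) < k := by
    have : 0 < k := by omega
    exact_mod_cast this
  have hm0 : (0 : ℝ) < (m : ℝ) + 1 := by positivity
  rcases Nat.eq_zero_or_pos g with rfl | hg
  · have : p = 0 := le_antisymm (by simpa using hpg) hp0
    subst this
    simp [φ]
  rcases le_or_gt g (m + 1) with h | h
  · have e1 : ((g - 1 : ℕ) : ℝ) = (g : ℝ) - 1 := by
      rw [Nat.cast_sub hg]
      simp
    have hgm : (g : ℝ) ≤ m + 1 := by exact_mod_cast h
    have a1 : φ m (g - 1) = 1 - ((g : ℝ) - 1) / (m + 1) := by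
      unfold φ
      rw [e1, max_eq_right]
      rw [sub_nonneg, div_le_one hm0]
      linarith
    have a2 : φ m g = 1 - (g : ℝ) / (m + 1) := by
      unfold φ
      rw [max_eq_right]
      rw [sub_nonneg, div_le_one hm0]
      exact hgm
    have a3 : 1 - (g : ℝ) / (m + 2) ≤ φ (m + 1) g := by
      unfold φ
      refine le_trans (le_of_eq ?_) (le_max_right _ _)
      push_cast
      ring
    rw [a1, a2]
    refine le_trans ?_ a3
    have e2 : p * (1 - ((g : ℝ) - 1) / (m + 1)) + (1 - p) * (1 - (g : ℝ) / (m + 1)) =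
        1 - ((g : ℝ) - p) / (m + 1) := by ring
    rw [e2]
    have h1 : p ≤ (g : ℝ) / (m + 2) := by
      refine hpg.trans ?_
      have : (m : ℝ) + 2 ≤ k := by exact_mod_cast hk
      gcongr
    have h2 : (g : ℝ) / (m + 2) ≤ ((g : ℝ) - p) / (m + 1) := by
      rw [le_div_iff₀ hm0]
      have h3 : (g : ℝ) / (m + 2) * (m + 1) = g - (g : ℝ) / (m + 2) := by
        field_simp
        ring
      rw [h3]
      linarith
    linarith
  · have hgm : (m : ℝ) + 2 ≤ g := by exact_mod_cast h
    have e1 : ((g - 1 : ℕ) : ℝ) = (g : ℝ) - 1 := by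
      rw [Nat.cast_sub hg]
      simp
    have a1 : φ m (g - 1) = 0 := by
      unfold φ
      rw [e1, max_eq_left]
      rw [sub_nonpos, one_le_div hm0]
      linarith
    have a2 : φ m g = 0 := by
      unfold φ
      rw [max_eq_left]
      rw [sub_nonpos, one_le_div hm0]
      linarith
    rw [a1, a2, mul_zero, mul_zero, add_zero]
    exact h60_phi_nonneg _ _

variable {V α : Type} [Fintype V] [DecidableEq V] [Fintype α]

omit [Fintype V] [DecidableEq V] in
/-- One big vertex. -/
theorem h60_one {w : V → α → ℝ} (hw : IsW w) {k m : ℕ} (hk : m + 2 ≤ k) (u : V) (Q : α → ℕ)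
    (hQ : ∀ c, ∑ a, w u a * (if Q a = c then 1 else 0) ≤ 1 / (k : ℝ)) (Y : Finset ℕ) :
    ∑ a, w u a * φ m (Y.erase (Q a)).card ≤ φ (m + 1) Y.card := by
  set p : ℝ := ∑ a, w u a * (if Q a ∈ Y then 1 else 0) with hp
  have hp0 : 0 ≤ p := by
    refine Finset.sum_nonneg fun a _ => mul_nonneg (hw.1 u a) ?_
    split_ifs <;> norm_num
  have hp1 : p ≤ Y.card / k := by
    have h1 : p = ∑ c ∈ Y, ∑ a, w u a * (if Q a = c then 1 else 0) := by
      rw [Finset.sum_comm, hp]
      refine Finset.sum_congr rfl fun a _ => ?_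
      rw [← Finset.mul_sum]
      congr 1
      rw [Finset.sum_ite_eq]
    rw [h1]
    refine (Finset.sum_le_card_nsmul _ _ _ fun c _ => hQ c).trans (le_of_eq ?_)
    rw [nsmul_eq_mul]
    ring
  refine le_trans (le_of_eq ?_) (h60_step hk hp0 hp1)
  have h2 : ∀ a, w u a * φ m (Y.erase (Q a)).card =
      w u a * (if Q a ∈ Y then 1 else 0) * φ m (Y.card - 1) +
      (w u a - w u a * (if Q a ∈ Y then 1 else 0)) * φ m Y.card := by
    intro a
    by_cases h : Q a ∈ Y
    · rw [if_pos h, Finset.card_erase_of_mem h]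
      ring
    · rw [if_neg h, Finset.erase_eq_of_notMem h]
      ring
  rw [Finset.sum_congr rfl fun a _ => h2 a, Finset.sum_add_distrib, ← Finset.sum_mul,
    ← Finset.sum_mul, Finset.sum_sub_distrib, hw.2 u]

theorem big_le {w : V → α → ℝ} (hw : IsW w) (k : ℕ) (B : Finset V) (P : V → α → ℕ)
    (hP : ∀ u ∈ B, ∀ c, ∑ a, w u a * (if P u a = c then 1 else 0) ≤ 1 / (k : ℝ)) (m : ℕ)
    (hm : m + B.card + 1 ≤ k) (Z : Finset ℕ) :
    Ex w (fun ω => φ m (Z \ B.image (fun u => P u (ω u))).card) ≤ φ (m + B.card) Z.card := by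
  induction B using Finset.induction_on generalizing m with
  | empty =>
    simp only [Finset.image_empty, Finset.sdiff_empty, Finset.card_empty, add_zero]
    rw [Ex_const hw]
  | insert u B hu ih =>
    rw [Finset.card_insert_of_notMem hu] at hm ⊢
    rw [Ex_coord hw u]
    have h1 : ∀ ω : V → α, ∀ a : α,
        Z \ (insert u B).image (fun v => P v (Function.update ω u a v)) =
        (Z \ B.image (fun v => P v (ω v))).erase (P u a) := by
      intro ω a
      rw [Finset.image_insert]
      have h2 : B.image (fun v => P v (Function.update ω u a v)) = B.image (fun v => P v (ω v)) := by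
        refine Finset.image_congr ?_
        intro v hv
        have : v ≠ u := by
          rintro rfl
          exact hu hv
        simp only [Function.update_of_ne this]
      rw [h2, Function.update_self]
      ext c
      simp only [Finset.mem_sdiff, Finset.mem_insert, Finset.mem_erase, not_or]
      tauto
    have h3 := ih (fun v hv => hP v (Finset.mem_insert_of_mem hv)) (m + 1) (by omega)
    refine le_trans (Ex_mono hw fun ω => ?_) (h3.trans (le_of_eq ?_))
    · simp only [h1]
      exact h60_one hw (by omega) u (P u) (hP u (Finset.mem_insert_self u B)) _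
    · congr 1
      omega

end Pool.Agent.Helper28.EQ
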