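import Pool.Agent.Helper28.EQ.Defs

/-!
# Block EQ-CH: a proper colouring with `D + 1` colours; list colouring of graphs of small degree

PROOFS. Greedy: induction over a finset of already coloured vertices (the next vertex has at most `D`
coloured neighbours), or `Mathlib` (search `Colorable`, `maxDegree`). `greedy_list` is the same with
lists.
-/

namespace Pool.Agent.Helper28.EQ

open Finset

variable {V : Type} [Fintype V] [DecidableEq V] (G : SimpleGraph V) [DecidableRel G.Adj]

theorem greedy_list {C : Type} [DecidableEq C] (L : V → Finset C)
    (hL : ∀ v, G.degree v < (L v).card) :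
    ∃ f : V → C, (∀ v, f v ∈ L v) ∧ ∀ u v, G.Adj u v → f u ≠ f v := by
  have key : ∀ S : Finset V, ∃ f : V → C, (∀ v, f v ∈ L v) ∧
      ∀ u ∈ S, ∀ v ∈ S, G.Adj u v → f u ≠ f v := by
    intro S
    induction S using Finset.induction_on with
    | empty =>
      have h : ∀ v, ∃ c, c ∈ L v := fun v => by
        have h1 : 0 < (L v).card := lt_of_le_of_lt (Nat.zero_le _) (hL v)
        exact Finset.card_pos.1 h1
      choose f hf using h
      exact ⟨f, hf, by simp⟩
    | insert w S hw ih =>
      obtain ⟨f, hf, hp⟩ := ih
      have h1 : (((G.neighborFinset w).image f)).card < (L w).card :=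
        lt_of_le_of_lt (Finset.card_image_le.trans (le_of_eq (G.card_neighborFinset_eq_degree w)))
          (hL w)
      obtain ⟨c, hc, hcn⟩ := Finset.exists_mem_notMem_of_card_lt_card h1
      refine ⟨Function.update f w c, ?_, ?_⟩
      · intro v
        by_cases hv : v = w
        · subst hv; simpa using hc
        · rw [Function.update_of_ne hv]; exact hf v
      · intro u hu v hv huv
        have hne : u ≠ v := huv.ne
        by_cases hu' : u = w
        · subst hu'
          have hv' : v ≠ u := fun h => hne h.symm
          rw [Function.update_self, Function.update_of_ne hv']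
          intro h
          exact hcn (Finset.mem_image.2 ⟨v, by simpa using huv, h.symm⟩)
        · by_cases hv' : v = w
          · subst hv'
            rw [Function.update_self, Function.update_of_ne hu']
            intro h
            exact hcn (Finset.mem_image.2 ⟨u, by simpa using huv.symm, h⟩)
          · rw [Function.update_of_ne hu', Function.update_of_ne hv']
            refine hp u ?_ v ?_ huv
            · exact (Finset.mem_insert.1 hu).resolve_left hu'
            · exact (Finset.mem_insert.1 hv).resolve_left hv'
  obtain ⟨f, hf, hp⟩ := key Finset.univ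
  exact ⟨f, hf, fun u v => hp u (Finset.mem_univ _) v (Finset.mem_univ _)⟩

theorem exists_chi (D : ℕ) (hD : ∀ v, G.degree v ≤ D) : ∃ χ : V → ℕ, Chi G D χ := by
  obtain ⟨f, hf, hp⟩ := greedy_list G (fun _ => Finset.range (D + 1)) (fun v => by
    rw [Finset.card_range]
    exact Nat.lt_succ_of_le (hD v))
  exact ⟨f, ⟨fun v => Nat.lt_succ_iff.1 (Finset.mem_range.1 (hf v)), hp⟩⟩

end Pool.Agent.Helper28.EQ
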