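import Pool.Agent.Helper28.EQ.Loc

/-!
# Block EQ-CO: many good vertices

PROOF. `exists_gd`: if `d(v) ≤ k - 2` take `v`; if `d(v) ≥ k ≥ 1` take a neighbour (`hO`); if
`d(v) = k - 1` take `v` or a neighbour of degree `≠ k - 1` (it is not big by `hO`, so it has degree
`≤ k - 2`). `good_count`: the vertices `v` with `nb 2 v` disjoint from `Irr` are at least
`n - (D+1)^2 |Irr|` (`nb_symm`, `nb_card`); map such a `v` to a vertex `x ∈ N[v]` with `Gd x`, at most
`D + 1` vertices `v` have the same image.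
-/

namespace Pool.Agent.Helper28.EQ

open Finset

variable {V : Type} [Fintype V] [DecidableEq V] (G : SimpleGraph V) [DecidableRel G.Adj]
  {k D : ℕ}

theorem exists_gd (hG : Good G k D) (hk : 0 < k) (v : V) :
    ∃ x ∈ insert v (G.neighborFinset v), Gd G k x := by
  by_cases h1 : G.degree v + 2 ≤ k
  · exact ⟨v, mem_insert_self _ _, Or.inl h1⟩
  by_cases h2 : k ≤ G.degree v
  · have h3 : 0 < G.degree v := lt_of_lt_of_le hk h2
    rw [← G.card_neighborFinset_eq_degree, card_pos] at h3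
    obtain ⟨w, hw⟩ := h3
    have hadj : G.Adj v w := by simpa using hw
    exact ⟨w, mem_insert_of_mem hw, Or.inl (hG.hO v w hadj h2)⟩
  have h4 : G.degree v + 1 = k := by omega
  by_cases h5 : ∀ w, G.Adj v w → G.degree w + 1 = k
  · exact ⟨v, mem_insert_self _ _, Or.inr ⟨h4, h5⟩⟩
  push Not at h5
  obtain ⟨w, hw, hne⟩ := h5
  refine ⟨w, mem_insert_of_mem (by simpa using hw), Or.inl ?_⟩
  have h6 : ¬ k ≤ G.degree w := by
    intro h7
    have := hG.hO w v hw.symm h7
    omega
  omega

open Classical in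
theorem good_count (hG : Good G k D) (hk : 0 < k) (Irr : Finset V) :
    (Fintype.card V : ℝ) - ((D : ℝ) + 1) ^ 2 * Irr.card
      ≤ ((D : ℝ) + 1) * (univ.filter fun v => Gd G k v ∧
          ∀ w ∈ insert v (G.neighborFinset v), w ∉ Irr).card := by
  set B := univ.filter fun v => Gd G k v ∧
    ∀ w ∈ insert v (G.neighborFinset v), w ∉ Irr with hB
  have hcover : (univ : Finset V) ⊆ Irr.biUnion (nb G 2) ∪ B.biUnion (nb G 1) := by
    intro v _
    rw [mem_union, mem_biUnion, mem_biUnion]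
    by_cases h : ∃ w ∈ nb G 2 v, w ∈ Irr
    · obtain ⟨w, hw, hI⟩ := h
      exact Or.inl ⟨w, hI, nb_symm G hw⟩
    · push Not at h
      obtain ⟨x, hx, hgd⟩ := exists_gd G hG hk v
      right
      have hx1 : x ∈ nb G 1 v := by rw [nb_one]; exact hx
      refine ⟨x, ?_, nb_symm G hx1⟩
      rw [hB, mem_filter]
      refine ⟨mem_univ _, hgd, fun w hw => h w ?_⟩
      rw [← nb_one] at hw
      rw [mem_insert] at hx
      rcases hx with rfl | hx
      · exact nb_mono G (by norm_num) _ hw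
      · exact nb_adj G 1 (by simpa using hx) hw
  have h1 := card_le_card hcover
  have h2 := card_union_le (Irr.biUnion (nb G 2)) (B.biUnion (nb G 1))
  have h3 : (Irr.biUnion (nb G 2)).card ≤ Irr.card * (D + 1) ^ 2 :=
    card_biUnion_le_card_mul _ _ _ (fun v _ => nb_card G hG.hD 2 v)
  have h4 : (B.biUnion (nb G 1)).card ≤ B.card * (D + 1) ^ 1 :=
    card_biUnion_le_card_mul _ _ _ (fun v _ => nb_card G hG.hD 1 v)
  rw [card_univ] at h1
  rw [pow_one] at h4
  have h5 : Fintype.card V ≤ Irr.card * (D + 1) ^ 2 + B.card * (D + 1) := by omega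
  have h6 : (Fintype.card V : ℝ) ≤ Irr.card * ((D : ℝ) + 1) ^ 2 + B.card * ((D : ℝ) + 1) := by
    exact_mod_cast h5
  linarith

end Pool.Agent.Helper28.EQ
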