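import Pool.Agent.Helper28.EQ.Wt

/-!
# Block EQ-P1: recolourable vertices, first pattern (`v` of degree `≤ k - 2`)

PROOF. Event `F` (product event over `W = nb 2 v`, `|W| ≤ (D+1)^2`, `Ex_prod`): time of `v` is 0, times of
the neighbours of `v` are 1, times of the other vertices of `W` are 2; the choice functions of the
vertices of `N[v]` are fixed functions `σ w` with `σ w A ∈ A` for nonempty `A` (a fixed choice
function has weight `≥ (1/k)^(2^k)`): `σ v A = j` if `j ∈ A`; for a big neighbour `w`: `σ w A = j0` if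
`j0 ∈ A`, where `j0 ≠ j, j'` (a big neighbour exists only if `k ≥ 3`); for the other neighbours
`σ w A ≠ j'` if `A` has at least 2 elements. On `F`: `v` comes before its neighbours which are not
big, the big ones have the colour `e j0`, so `j ∈ av v` and `cl v = e j`. A neighbour `w` which is not
big has at most `k - 2` neighbours of smaller stage: clear if its degree is `≤ k - 2`; if its degree
is `k - 1`, it has no big neighbour (`hO`), its neighbours outside `N[v]` are later, and `N[v] \ {w}`
has at most `k - 2` elements. So `|av w| ≥ 2` (`av_card`, `bk_card_le`) and `cl w ≠ e j'`.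
-/

namespace Pool.Agent.Helper28.EQ

open Finset

section event

variable {V : Type} [Fintype V] [DecidableEq V] {k : ℕ} (ℓ : V → Fin k → ℕ)

theorem h55_wch_le (hk : 0 < k) (v : V) (s : Finset (Fin k) → Fin k)
    (hs : ∀ A : Finset (Fin k), A.Nonempty → s A ∈ A) :
    (1 / (k : ℝ)) ^ (2 ^ k) ≤ wch ℓ (fun _ _ => 1) v s := by
  have hcard : (2 : ℕ) ^ k = (univ : Finset (Finset (Fin k))).card := by
    simp
  have hk0 : (0 : ℝ) < k := by exact_mod_cast hk
  unfold wch
  rw [hcard, ← Finset.prod_const]
  apply Finset.prod_le_prod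
  · intro A _
    positivity
  · intro A _
    unfold pr
    by_cases hA : A.Nonempty
    · rw [if_pos hA, if_pos (hs A hA)]
      have h1 : (0 : ℝ) < A.card := by
        have := hA.card_pos
        exact_mod_cast this
      have h2 : (A.card : ℝ) ≤ k := by
        have : A.card ≤ k := by simpa using Finset.card_le_univ A
        exact_mod_cast this
      simp only [Finset.sum_const, nsmul_eq_mul, mul_one]
      exact one_div_le_one_div_of_le h1 h2
    · rw [if_neg hA]

/-- Lower bound for the probability of a product event: the times are fixed on `W`, the choice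
functions are fixed on `N ⊆ W`. -/
theorem h55_event (hk : 0 < k) {W N : Finset V} (hNW : N ⊆ W) {a b : ℕ} (hW : W.card ≤ a)
    (hN : N.card ≤ b) (τ : V → Fin 4) (σ : V → Finset (Fin k) → Fin k)
    (hσ : ∀ w ∈ N, ∀ A : Finset (Fin k), A.Nonempty → σ w A ∈ A) (P : (V → Om 4 k) → Prop)
    (hP : ∀ ω : V → Om 4 k, (∀ w ∈ W, (ω w).1 = τ w) → (∀ w ∈ N, (ω w).2 = σ w) → P ω) :
    (1 / 4 : ℝ) ^ a * ((1 / (k : ℝ)) ^ (2 ^ k)) ^ b ≤ Pr (wt 4 ℓ (fun _ _ => 1)) P := by
  classical
  have hk0 : (0 : ℝ) < k := by exact_mod_cast hk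
  have hk1 : (1 : ℝ) ≤ k := by exact_mod_cast hk
  have hIs : IsW (wt (V := V) 4 ℓ (fun _ _ => 1)) :=
    isW_wt ℓ (fun _ _ => 1) (by norm_num) hk (fun _ _ => one_pos)
  have hIc : IsW (wch (V := V) ℓ (fun _ _ => 1)) :=
    isW_wch ℓ (fun _ _ => 1) hk (fun _ _ => one_pos)
  set g : V → Om 4 k → ℝ := fun w a =>
    if a.1 = τ w ∧ (w ∈ N → a.2 = σ w) then 1 else 0 with hg
  set q : ℝ := (1 / (k : ℝ)) ^ (2 ^ k) with hq
  have hq0 : 0 < q := by positivity
  have hq1 : q ≤ 1 := by
    apply pow_le_one₀ (by positivity)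
    rw [div_le_one hk0]; exact hk1
  -- the probability of the product event
  have h1 : Ex (wt 4 ℓ (fun _ _ => 1)) (fun ω : V → Om 4 k => ∏ w ∈ W, g w (ω w)) ≤
      Pr (wt 4 ℓ (fun _ _ => 1)) P := by
    unfold Pr
    apply Ex_mono hIs
    intro ω
    by_cases h : ∀ w ∈ W, ((ω w).1 = τ w ∧ (w ∈ N → (ω w).2 = σ w))
    · have h2 : P ω := hP ω (fun w hw => (h w hw).1) (fun w hw => (h w (hNW hw)).2 hw)
      rw [if_pos h2]
      refine le_of_eq (Finset.prod_eq_one fun w hw => ?_)
      rw [hg]
      exact if_pos (h w hw)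
    · push Not at h
      obtain ⟨w, hw, h3⟩ := h
      have h4 : g w (ω w) = 0 := by
        rw [hg]
        apply if_neg
        rintro ⟨h5, h6⟩
        obtain ⟨h7, h8⟩ := h3 h5
        exact h8 (h6 h7)
      rw [Finset.prod_eq_zero hw h4]
      split_ifs <;> norm_num
  refine le_trans ?_ h1
  rw [Ex_prod hIs]
  -- the factors
  have hfac : ∀ w ∈ W, (1 / 4 : ℝ) * (if w ∈ N then q else 1) ≤
      ∑ a, wt 4 ℓ (fun _ _ => 1) w a * g w a := by
    intro w _
    have hgn : ∀ a, 0 ≤ g w a := by
      intro a
      rw [hg]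
      dsimp only
      split_ifs <;> norm_num
    by_cases hwN : w ∈ N
    · rw [if_pos hwN]
      have h2 : wt 4 ℓ (fun _ _ => 1) w (τ w, σ w) * g w (τ w, σ w) ≤
          ∑ a, wt 4 ℓ (fun _ _ => 1) w a * g w a :=
        Finset.single_le_sum (f := fun a => wt 4 ℓ (fun _ _ => 1) w a * g w a)
          (fun a _ => mul_nonneg (hIs.1 w a) (hgn a)) (Finset.mem_univ _)
      refine le_trans ?_ h2
      have h3 : g w (τ w, σ w) = 1 := by
        rw [hg]
        exact if_pos ⟨rfl, fun _ => rfl⟩
      rw [h3, mul_one]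
      unfold wt
      have h4 := h55_wch_le ℓ hk w (σ w) (hσ w hwN)
      push_cast
      rw [← hq] at h4
      linarith
    · rw [if_neg hwN, mul_one]
      have h2 : ∑ a, wt 4 ℓ (fun _ _ => 1) w a * g w a =
          ∑ t : Fin 4, ∑ s : Finset (Fin k) → Fin k,
            (if t = τ w then (1 / 4 : ℝ) * wch ℓ (fun _ _ => 1) w s else 0) := by
        rw [Fintype.sum_prod_type]
        refine Finset.sum_congr rfl fun t _ => Finset.sum_congr rfl fun s _ => ?_
        rw [hg]
        unfold wt
        by_cases ht : t = τ w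
        · simp [ht, hwN]
        · simp [ht]
      rw [h2]
      have h3 : ∀ t : Fin 4, ∑ s : Finset (Fin k) → Fin k,
          (if t = τ w then (1 / 4 : ℝ) * wch ℓ (fun _ _ => 1) w s else 0) =
          if t = τ w then (1 / 4 : ℝ) else 0 := by
        intro t
        by_cases ht : t = τ w
        · simp only [ht, if_true]
          rw [← Finset.mul_sum, hIc.2 w, mul_one]
        · simp [ht]
      rw [Finset.sum_congr rfl fun t _ => h3 t]
      simp
  have hprod : ∏ w ∈ W, ((1 / 4 : ℝ) * (if w ∈ N then q else 1)) ≤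
      ∏ w ∈ W, ∑ a, wt 4 ℓ (fun _ _ => 1) w a * g w a := by
    apply Finset.prod_le_prod _ hfac
    intro w _
    split_ifs <;> positivity
  refine le_trans ?_ hprod
  rw [Finset.prod_mul_distrib, Finset.prod_const, Finset.prod_ite, Finset.prod_const,
    Finset.prod_const_one, mul_one, Finset.filter_mem_eq_inter, Finset.inter_eq_right.2 hNW]
  exact mul_le_mul (pow_le_pow_of_le_one (by norm_num) (by norm_num) hW)
    (pow_le_pow_of_le_one hq0.le hq1 hN) (by positivity) (by positivity)

/-- A choice function which prefers the positions with `Q`. -/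
noncomputable def h55_sel (i0 : Fin k) (Q : Fin k → Prop) (A : Finset (Fin k)) : Fin k := by
  classical exact
    if h : ∃ i ∈ A, Q i then h.choose else if h' : A.Nonempty then h'.choose else i0

theorem h55_sel_mem (i0 : Fin k) (Q : Fin k → Prop) (A : Finset (Fin k)) (hA : A.Nonempty) :
    h55_sel i0 Q A ∈ A := by
  classical
  unfold h55_sel
  by_cases h : ∃ i ∈ A, Q i
  · rw [dif_pos h]
    exact h.choose_spec.1
  · rw [dif_neg h, dif_pos hA]
    exact hA.choose_spec

theorem h55_sel_spec (i0 : Fin k) (Q : Fin k → Prop) (A : Finset (Fin k)) (h : ∃ i ∈ A, Q i) :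
    Q (h55_sel i0 Q A) := by
  classical
  unfold h55_sel
  rw [dif_pos h]
  exact h.choose_spec.2

theorem h55_pick_sel (i0 : Fin k) (Q : Fin k → Prop) (A : Finset (Fin k)) (h : ∃ i ∈ A, Q i) :
    Q (pick (h55_sel i0 Q) A) := by
  have hA : A.Nonempty := ⟨h.choose, h.choose_spec.1⟩
  rw [pick_eq _ (h55_sel_mem i0 Q A hA)]
  exact h55_sel_spec i0 Q A h

end event

variable {V : Type} [Fintype V] [DecidableEq V] (G : SimpleGraph V) [DecidableRel G.Adj]
  {k D : ℕ} {χ : V → ℕ} (ℓ : V → Fin k → ℕ)

theorem patA (hG : Good G k D) (hχ : Chi G D χ) (hinj : ∀ v, Function.Injective (ℓ v))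
    (e : Fin k → ℕ) (v : V) (hv : G.degree v + 2 ≤ k)
    (hreg : ∀ w ∈ insert v (G.neighborFinset v), ℓ w = e) (j j' : Fin k) (hj : j ≠ j') :
    ε1 k D ≤ Pr (wt 4 ℓ (fun _ _ => 1)) (fun ω : V → Om 4 k =>
      cl G D χ ℓ ω v = e j ∧ ∀ u, G.Adj v u → cl G D χ ℓ ω u ≠ e j') := by
  classical
  have hk : 0 < k := by omega
  have hei : Function.Injective e := by
    have := hinj v
    rwa [hreg v (Finset.mem_insert_self _ _)] at this
  -- the third position
  obtain ⟨j0, hj0⟩ : ∃ j0 : Fin k, 3 ≤ k → (j0 ≠ j ∧ j0 ≠ j') := by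
    by_cases h3 : 3 ≤ k
    · have hc : (({j, j'} : Finset (Fin k))ᶜ).Nonempty := by
        rw [← Finset.card_pos, Finset.card_compl, Fintype.card_fin]
        have := Finset.card_le_two (a := j) (b := j')
        omega
      obtain ⟨j0, h⟩ := hc
      rw [Finset.mem_compl, Finset.mem_insert, Finset.mem_singleton, not_or] at h
      exact ⟨j0, fun _ => h⟩
    · exact ⟨j, fun h => absurd h h3⟩
  set N := insert v (G.neighborFinset v) with hN
  set τ : V → Fin 4 := fun w => if w = v then 0 else if G.Adj v w then 1 else 2 with hτ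
  set σ : V → Finset (Fin k) → Fin k := fun w =>
    if w = v then h55_sel j (fun i => i = j)
    else if k ≤ G.degree w then h55_sel j (fun i => i = j0)
    else h55_sel j (fun i => i ≠ j') with hσ
  have hNW : N ⊆ nb G 2 v := by
    rw [hN, ← nb_one]
    exact nb_mono G (by norm_num) v
  have hNc : N.card ≤ D + 1 := by
    have h1 := hG.hD v
    rw [← SimpleGraph.card_neighborFinset_eq_degree] at h1
    exact (Finset.card_insert_le _ _).trans (by omega)
  refine h55_event ℓ hk hNW (nb_card G hG.hD 2 v) hNc τ σ ?_ _ ?_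
  · intro w _ A hA
    rw [hσ]
    dsimp only
    split_ifs
    · exact h55_sel_mem _ _ A hA
    · exact h55_sel_mem _ _ A hA
    · exact h55_sel_mem _ _ A hA
  intro ω hω1 hω2
  have hvN : v ∈ N := Finset.mem_insert_self _ _
  have hadjN : ∀ {u}, G.Adj v u → u ∈ N := fun {u} hu => by
    rw [hN]
    exact Finset.mem_insert_of_mem ((G.mem_neighborFinset v u).2 hu)
  have hvs : G.degree v < k := by omega
  have hχ' := hχ.hle
  have tv : (ω v).1 = 0 := by
    rw [hω1 v (hNW hvN), hτ]; simp
  have tu : ∀ u, G.Adj v u → (ω u).1 = 1 := by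
    intro u hu
    rw [hω1 u (hNW (hadjN hu)), hτ]
    have : u ≠ v := hu.ne'
    simp [this, hu]
  -- big neighbours
  have hbig : ∀ u, G.Adj v u → k ≤ G.degree u → cl G D χ ℓ ω u = e j0 ∧ 3 ≤ k := by
    intro u hu hku
    have h3 : 3 ≤ k := by
      have h1 : 0 < G.degree v := by
        rw [← SimpleGraph.card_neighborFinset_eq_degree, Finset.card_pos]
        exact ⟨u, (G.mem_neighborFinset v u).2 hu⟩
      omega
    refine ⟨?_, h3⟩
    rw [cl_eq, av_big G ℓ ω u hku, hω2 u (hadjN hu), hreg u (hadjN hu), hσ]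
    have h2 : u ≠ v := hu.ne'
    simp only [h2, hku, if_true, if_false]
    congr 1
    exact h55_pick_sel j (fun i => i = j0) univ ⟨j0, Finset.mem_univ _, rfl⟩
  have hcv : cl G D χ ℓ ω v = e j := by
    have hjav : j ∈ av G D χ ℓ ω v := by
      rw [mem_av, mem_bk, hreg v hvN]
      rintro ⟨u, hu, hs, hc⟩
      by_cases hku : k ≤ G.degree u
      · obtain ⟨h1, h2⟩ := hbig u hu.symm hku
        rw [h1] at hc
        exact (hj0 h2).1 (hei hc)
      · have := stg_lt G (ω := ω) hvs (not_le.1 hku) (by rw [tv, tu u hu.symm]; decide) hχ'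
        omega
    rw [cl_eq, hω2 v hvN, hreg v hvN, hσ]
    simp only [if_true]
    congr 1
    exact h55_pick_sel j (fun i => i = j) _ ⟨j, hjav, rfl⟩
  refine ⟨hcv, fun u hu => ?_⟩
  by_cases hku : k ≤ G.degree u
  · obtain ⟨h1, h2⟩ := hbig u hu hku
    rw [h1]
    exact fun h => (hj0 h2).2 (hei h)
  · have hku' : G.degree u < k := not_le.1 hku
    -- few neighbours of smaller stage
    have hfew : ((G.neighborFinset u).filter fun x =>
        stg G D χ ω x < stg G D χ ω u).card + 2 ≤ k := by
      by_cases hd : G.degree u + 2 ≤ k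
      · have h1 := Finset.card_filter_le (G.neighborFinset u)
          (fun x => stg G D χ ω x < stg G D χ ω u)
        rw [SimpleGraph.card_neighborFinset_eq_degree] at h1
        omega
      · have hsub : ((G.neighborFinset u).filter fun x =>
            stg G D χ ω x < stg G D χ ω u) ⊆ N.erase u := by
          intro x hx
          rw [Finset.mem_filter, SimpleGraph.mem_neighborFinset] at hx
          obtain ⟨hux, hst⟩ := hx
          have hxs : G.degree x < k := by
            by_contra hcon
            exact hd (hG.hO x u hux.symm (not_lt.1 hcon))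
          have h1 := le_of_stg_lt G hxs hku' hst hχ'
          rw [tu u hu] at h1
          have hx2 : x ∈ nb G 2 v := by
            have h2 : x ∈ nb G 1 u := by
              rw [nb_one]
              exact Finset.mem_insert_of_mem ((G.mem_neighborFinset u x).2 hux)
            exact nb_adj G 1 hu h2
          rw [hω1 x hx2, hτ] at h1
          dsimp only at h1
          refine Finset.mem_erase.2 ⟨hux.ne', ?_⟩
          by_cases hxv : x = v
          · rw [hxv]; exact hvN
          · rw [if_neg hxv] at h1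
            by_cases hxa : G.Adj v x
            · exact hadjN hxa
            · rw [if_neg hxa] at h1
              exact absurd h1 (by decide)
        have h1 := Finset.card_le_card hsub
        rw [Finset.card_erase_of_mem (hadjN hu)] at h1
        have h2 : N.card = G.degree v + 1 := by
          rw [hN, Finset.card_insert_of_notMem (by simp),
            SimpleGraph.card_neighborFinset_eq_degree]
        omega
    have h1 := av_card G (D := D) (χ := χ) ℓ hinj ω u
    have h2 := bk_card_le G (D := D) (χ := χ) ℓ ω u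
    have h3 : 1 < (av G D χ ℓ ω u).card := by omega
    obtain ⟨i, hi, hij⟩ := Finset.exists_mem_ne h3 j'
    rw [cl_eq, hω2 u (hadjN hu), hreg u (hadjN hu), hσ]
    have h4 : u ≠ v := hu.ne'
    simp only [h4, hku, if_false]
    intro h5
    exact h55_pick_sel j (fun i => i ≠ j') _ ⟨i, hi, hij⟩ (hei h5)

end Pool.Agent.Helper28.EQ
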