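import Pool.Agent.Helper28.EQ.Wt

/-!
# Block EQ-P2: recolourable vertices, second pattern (`v` and its neighbours have degree `k - 1`)

PROOF. Let `u, u'` be two nonadjacent neighbours of `v` (`hK`), so `k ≥ 3`; `j0 ≠ j, j'`. No vertex of
`nb 2 v` which is a neighbour of a vertex of `N[v]` is big (`hO`). Event `F` (product event over
`W = nb 2 v`, `|W| ≤ (D+1)^2`, `Ex_prod`): time of `v` is 0, of `u`, `u'` is 1, of the other neighbours
of `v` is 2, of the other vertices of `W` is 3; the choice functions of the vertices of `N[v]` are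
fixed functions `σ w` with `σ w A ∈ A` for nonempty `A` (weight `≥ (1/k)^(2^k)` each): `σ v A = j` if
`j ∈ A`; `σ u A = σ u' A = j0` if `j0 ∈ A`; `σ w A ≠ j'` if `|A| ≥ 2` for the others. On `F`: `cl v = e j`
(no neighbour before `v`), `cl u = cl u' = e j0` (only `v` is before), every other neighbour `w` of `v`
has smaller neighbours only in `N[v] \ {w}`, whose colours are `e j`, `e j0` and at most `k - 4` more,
so `|av w| ≥ 2` (`av_card`) and `cl w ≠ e j'`.
-/

namespace Pool.Agent.Helper28.EQ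

open Finset

variable {V : Type} [Fintype V] [DecidableEq V] (G : SimpleGraph V) [DecidableRel G.Adj]
  {k D : ℕ} {χ : V → ℕ} (ℓ : V → Fin k → ℕ)

/-- A choice function with a preference for the set `S`. -/
theorem h44_prefer (hk : 0 < k) (S : Finset (Fin k)) :
    ∃ σ : Finset (Fin k) → Fin k, (∀ A, A.Nonempty → σ A ∈ A) ∧
      ∀ A, (A ∩ S).Nonempty → σ A ∈ S := by
  have h : ∀ A : Finset (Fin k), ∃ i : Fin k, (A.Nonempty → i ∈ A) ∧
      ((A ∩ S).Nonempty → i ∈ S) := by
    intro A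
    by_cases h1 : (A ∩ S).Nonempty
    · obtain ⟨i, hi⟩ := h1
      rw [mem_inter] at hi
      exact ⟨i, fun _ => hi.1, fun _ => hi.2⟩
    · by_cases h2 : A.Nonempty
      · obtain ⟨i, hi⟩ := h2
        exact ⟨i, fun _ => hi, fun h => absurd h h1⟩
      · exact ⟨⟨0, hk⟩, fun h => absurd h h2, fun h => absurd h h1⟩
  choose σ hσ using h
  exact ⟨σ, fun A => (hσ A).1, fun A => (hσ A).2⟩

omit [Fintype V] [DecidableEq V] in
theorem h44_wch (v : V) (σ : Finset (Fin k) → Fin k)
    (hσ : ∀ A, A.Nonempty → σ A ∈ A) :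
    (1 / (k : ℝ)) ^ (2 ^ k) ≤ wch ℓ (fun _ _ => 1) v σ := by
  unfold wch
  have h : ∀ A : Finset (Fin k), 1 / (k : ℝ) ≤ pr (fun _ => 1) (ℓ v) A (σ A) := by
    intro A
    unfold pr
    split_ifs with h1 h2
    · have hc : (∑ i ∈ A, (1 : ℝ)) = A.card := by simp
      rw [hc]
      have h3 : 0 < (A.card : ℝ) := by exact_mod_cast h1.card_pos
      have h4 : (A.card : ℝ) ≤ k := by
        have := card_le_univ A
        rw [Fintype.card_fin] at this
        exact_mod_cast this
      exact one_div_le_one_div_of_le h3 h4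
    · exact absurd (hσ A h1) h2
    · exact le_rfl
  calc (1 / (k : ℝ)) ^ (2 ^ k) = ∏ _A : Finset (Fin k), 1 / (k : ℝ) := by
        rw [prod_const, card_univ, Fintype.card_finset, Fintype.card_fin]
    _ ≤ _ := prod_le_prod (fun _ _ => by positivity) (fun A _ => h A)

open Classical in
/-- Lower bound for the probability of a product event. -/
theorem h44_event (D : ℕ) (hk : 0 < k) (W N : Finset V) (τ : V → Fin 4)
    (σ : V → Finset (Fin k) → Fin k)
    (hσ : ∀ w A, A.Nonempty → σ w A ∈ A) (hW : W.card ≤ (D + 1) ^ 2) (hN : N.card ≤ D + 1)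
    (Q : (V → Om 4 k) → Prop)
    (hQ : ∀ ω, (∀ w ∈ W, (ω w).1 = τ w ∧ (w ∈ N → (ω w).2 = σ w)) → Q ω) :
    ε1 k D ≤ Pr (wt 4 ℓ (fun _ _ => 1)) Q := by
  have h1p : ∀ (v : V) (c : ℕ), 0 < (fun _ _ => 1 : V → ℕ → ℝ) v c := fun _ _ => one_pos
  have hw : IsW (wt (V := V) 4 ℓ (fun _ _ => 1)) := isW_wt ℓ _ (by norm_num) hk h1p
  have hwc : IsW (wch (V := V) ℓ (fun _ _ => 1)) := isW_wch ℓ _ hk h1p
  obtain ⟨q, hq⟩ : ∃ q : ℝ, q = (1 / (k : ℝ)) ^ (2 ^ k) := ⟨_, rfl⟩
  have hk1 : (1 : ℝ) ≤ k := by exact_mod_cast hk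
  have hq0 : 0 < q := by rw [hq]; positivity
  have hq1 : q ≤ 1 := by
    rw [hq]
    apply pow_le_one₀ (by positivity)
    rw [div_le_one (by linarith)]
    exact hk1
  obtain ⟨g, hg⟩ : ∃ g : V → Om 4 k → ℝ, g = fun w a =>
    if a.1 = τ w ∧ (w ∈ N → a.2 = σ w) then 1 else 0 := ⟨_, rfl⟩
  have hg0 : ∀ w a, 0 ≤ g w a := by
    intro w a
    rw [hg]
    dsimp only
    split_ifs <;> norm_num
  have hsum : ∀ w ∈ W, (1 / 4 : ℝ) * (if w ∈ N then q else 1)
      ≤ ∑ a, wt 4 ℓ (fun _ _ => 1) w a * g w a := by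
    intro w _
    by_cases hwN : w ∈ N
    · rw [if_pos hwN]
      have h1 := single_le_sum (f := fun a => wt 4 ℓ (fun _ _ => 1) w a * g w a)
        (fun a _ => mul_nonneg (hw.1 w a) (hg0 w a)) (mem_univ ((τ w, σ w) : Om 4 k))
      refine le_trans ?_ h1
      have h2 : g w (τ w, σ w) = 1 := by
        rw [hg]
        exact if_pos ⟨rfl, fun _ => rfl⟩
      have h3 := h44_wch ℓ w (σ w) (hσ w)
      rw [h2, mul_one]
      unfold wt
      rw [hq]
      push_cast
      exact mul_le_mul_of_nonneg_left h3 (by norm_num)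
    · rw [if_neg hwN, mul_one]
      have h2 : ∑ a, wt 4 ℓ (fun _ _ => 1) w a * g w a
          = ∑ t : Fin 4, ∑ s : Finset (Fin k) → Fin k,
            (1 / 4 : ℝ) * wch ℓ (fun _ _ => 1) w s * (if t = τ w then 1 else 0) := by
        rw [Fintype.sum_prod_type]
        refine sum_congr rfl fun t _ => sum_congr rfl fun s _ => ?_
        rw [hg]
        unfold wt
        push_cast
        congr 1
        by_cases ht : t = τ w
        · rw [if_pos ⟨ht, fun h => absurd h hwN⟩, if_pos ht]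
        · rw [if_neg (fun h => ht h.1), if_neg ht]
      rw [h2]
      have h3 := single_le_sum (f := fun t : Fin 4 => ∑ s : Finset (Fin k) → Fin k,
        (1 / 4 : ℝ) * wch ℓ (fun _ _ => 1) w s * (if t = τ w then 1 else 0))
        (fun t _ => sum_nonneg fun s _ => mul_nonneg (mul_nonneg (by norm_num) (hwc.1 w s))
          (by split_ifs <;> norm_num)) (mem_univ (τ w))
      refine le_trans ?_ h3
      rw [if_pos rfl]
      simp only [mul_one]
      rw [← mul_sum, hwc.2 w, mul_one]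
  have hfin : ∀ ω : V → Om 4 k, ∏ w ∈ W, g w (ω w) =
      if (∀ w ∈ W, (ω w).1 = τ w ∧ (w ∈ N → (ω w).2 = σ w)) then 1 else 0 := by
    intro ω
    by_cases h : ∀ w ∈ W, (ω w).1 = τ w ∧ (w ∈ N → (ω w).2 = σ w)
    · rw [if_pos h]
      refine prod_eq_one fun w hw' => ?_
      rw [hg]
      exact if_pos (h w hw')
    · rw [if_neg h]
      have h' : ∃ w ∈ W, ¬ ((ω w).1 = τ w ∧ (w ∈ N → (ω w).2 = σ w)) := by
        by_contra hcon
        apply h
        intro w hw'
        by_contra h2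
        exact hcon ⟨w, hw', h2⟩
      obtain ⟨w, hw', hw2⟩ := h'
      refine prod_eq_zero hw' ?_
      rw [hg]
      exact if_neg hw2
  calc ε1 k D ≤ ∏ w ∈ W, (1 / 4 : ℝ) * (if w ∈ N then q else 1) := by
        rw [prod_mul_distrib, prod_const, prod_ite, prod_const, prod_const_one, mul_one]
        unfold ε1
        rw [← hq]
        have hf : (W.filter fun w => w ∈ N).card ≤ D + 1 := by
          refine (card_le_card ?_).trans hN
          intro w hw'
          exact (mem_filter.1 hw').2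
        refine mul_le_mul ?_ ?_ (by positivity) (by positivity)
        · exact pow_le_pow_of_le_one (by norm_num) (by norm_num) hW
        · exact pow_le_pow_of_le_one hq0.le hq1 hf
    _ ≤ ∏ w ∈ W, ∑ a, wt 4 ℓ (fun _ _ => 1) w a * g w a := by
        refine prod_le_prod (fun w _ => ?_) hsum
        split_ifs
        · positivity
        · norm_num
    _ = Ex (wt 4 ℓ (fun _ _ => 1)) (fun ω => ∏ w ∈ W, g w (ω w)) := (Ex_prod hw W g).symm
    _ = Pr (wt 4 ℓ (fun _ _ => 1))
          (fun ω => ∀ w ∈ W, (ω w).1 = τ w ∧ (w ∈ N → (ω w).2 = σ w)) := by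
        unfold Pr
        congr 1
        funext ω
        rw [hfin ω]
        by_cases h : ∀ w ∈ W, (ω w).1 = τ w ∧ (w ∈ N → (ω w).2 = σ w)
        · rw [if_pos h, if_pos h]
        · rw [if_neg h, if_neg h]
    _ ≤ _ := Pr_mono hw hQ

theorem patB (hG : Good G k D) (hχ : Chi G D χ) (hinj : ∀ v, Function.Injective (ℓ v))
    (e : Fin k → ℕ) (v : V) (hv : G.degree v + 1 = k)
    (hv2 : ∀ w, G.Adj v w → G.degree w + 1 = k)
    (hreg : ∀ w ∈ insert v (G.neighborFinset v), ℓ w = e) (j j' : Fin k) (hj : j ≠ j') :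
    ε1 k D ≤ Pr (wt 4 ℓ (fun _ _ => 1)) (fun ω : V → Om 4 k =>
      cl G D χ ℓ ω v = e j ∧ ∀ u, G.Adj v u → cl G D χ ℓ ω u ≠ e j') := by
  obtain ⟨u, u', hu, hu', huu, hnadj⟩ := hG.hK v hv hv2
  have hk3 : 3 ≤ k := by
    have h1 : ({u, u'} : Finset V) ⊆ G.neighborFinset v := by
      intro x hx
      rw [mem_insert, mem_singleton] at hx
      rw [SimpleGraph.mem_neighborFinset]
      rcases hx with rfl | rfl
      · exact hu
      · exact hu'
    have h2 := card_le_card h1
    rw [card_pair huu, G.card_neighborFinset_eq_degree] at h2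
    omega
  have hk : 0 < k := by omega
  obtain ⟨j0, hj0, hj0'⟩ : ∃ j0 : Fin k, j0 ≠ j ∧ j0 ≠ j' := by
    have h1 : ({j, j'} : Finset (Fin k)).card < (univ : Finset (Fin k)).card := by
      rw [card_pair hj, card_univ, Fintype.card_fin]
      omega
    obtain ⟨i, -, hi⟩ := exists_mem_notMem_of_card_lt_card h1
    rw [mem_insert, mem_singleton, not_or] at hi
    exact ⟨i, hi.1, hi.2⟩
  obtain ⟨σv, hσv, hσv'⟩ := h44_prefer hk {j}
  obtain ⟨σu, hσu, hσu'⟩ := h44_prefer hk {j0}
  obtain ⟨σo, hσo, hσo'⟩ := h44_prefer hk ({j'}ᶜ : Finset (Fin k))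
  obtain ⟨N, hN⟩ : ∃ N, N = insert v (G.neighborFinset v) := ⟨_, rfl⟩
  obtain ⟨σ, hσ⟩ : ∃ σ : V → Finset (Fin k) → Fin k, σ = fun w =>
    if w = v then σv else if w = u ∨ w = u' then σu else σo := ⟨_, rfl⟩
  obtain ⟨τ, hτ⟩ : ∃ τ : V → Fin 4, τ = fun w =>
    if w = v then 0 else if w = u ∨ w = u' then 1 else if w ∈ N then 2 else 3 := ⟨_, rfl⟩
  have huv : u ≠ v := hu.ne'
  have huv' : u' ≠ v := hu'.ne'
  have hmN : ∀ w, w ∈ N ↔ w = v ∨ G.Adj v w := by
    intro w
    rw [hN, mem_insert, SimpleGraph.mem_neighborFinset]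
  have hvN : v ∈ N := (hmN v).2 (Or.inl rfl)
  have huN : u ∈ N := (hmN u).2 (Or.inr hu)
  have huN' : u' ∈ N := (hmN u').2 (Or.inr hu')
  have hNc : N.card = k := by
    rw [hN, card_insert_of_notMem (by simp), G.card_neighborFinset_eq_degree, hv]
  have hσA : ∀ w A, A.Nonempty → σ w A ∈ A := by
    intro w A hA
    rw [hσ]
    dsimp only
    split_ifs
    · exact hσv A hA
    · exact hσu A hA
    · exact hσo A hA
  refine h44_event ℓ D hk (nb G 2 v) N τ σ hσA (nb_card G hG.hD 2 v) ?_ _ ?_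
  · rw [hNc, ← hv]
    exact Nat.add_le_add_right (hG.hD v) 1
  intro ω hω
  -- basic facts
  have hW : ∀ w ∈ N, ∀ x, G.Adj x w → x ∈ nb G 2 v := by
    intro w hw x hx
    have hx1 : x ∈ nb G 1 w := by
      rw [nb_one, mem_insert, SimpleGraph.mem_neighborFinset]
      exact Or.inr hx.symm
    rcases (hmN w).1 hw with rfl | h
    · exact nb_mono G (by norm_num) w hx1
    · exact nb_adj G 1 h hx1
  have hNW : ∀ w ∈ N, w ∈ nb G 2 v := by
    intro w hw
    rcases (hmN w).1 hw with rfl | h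
    · exact nb_self G 2 w
    · exact nb_adj G 1 h (nb_self G 1 w)
  have hdeg : ∀ w ∈ N, G.degree w + 1 = k := by
    intro w hw
    rcases (hmN w).1 hw with rfl | h
    · exact hv
    · exact hv2 w h
  have hsmall : ∀ w ∈ N, ∀ x, G.Adj x w → G.degree x < k := by
    intro w hw x hx
    by_contra hcon
    have h1 := hG.hO x w hx (not_lt.1 hcon)
    have h2 := hdeg w hw
    omega
  have hτω : ∀ x ∈ nb G 2 v, (ω x).1 = τ x := fun x hx => (hω x hx).1
  have hσω : ∀ x ∈ N, (ω x).2 = σ x := fun x hx => (hω x (hNW x hx)).2 hx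
  have hlN : ∀ w ∈ N, ℓ w = e := by
    intro w hw
    rw [hN] at hw
    exact hreg w hw
  have einj : Function.Injective e := by
    rw [← hlN v hvN]
    exact hinj v
  have htime : ∀ w ∈ N, ∀ x, G.Adj x w → stg G D χ ω x < stg G D χ ω w → τ x ≤ τ w := by
    intro w hw x hx hst
    have h1 := le_of_stg_lt G (hsmall w hw x hx) (by have := hdeg w hw; omega) hst hχ.hle
    rwa [hτω x (hW w hw x hx), hτω w (hNW w hw)] at h1
  have hcl : ∀ w ∈ N, (av G D χ ℓ ω w).Nonempty → cl G D χ ℓ ω w = e (σ w (av G D χ ℓ ω w)) := by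
    intro w hw hne
    rw [cl_eq, hσω w hw, pick_eq _ (hσA w _ hne), hlN w hw]
  have τv : τ v = 0 := by
    rw [hτ]
    exact if_pos rfl
  have τu : ∀ x, x ≠ v → (x = u ∨ x = u') → τ x = 1 := by
    intro x h1 h2
    rw [hτ]
    dsimp only
    rw [if_neg h1, if_pos h2]
  have τo : ∀ x, x ≠ v → ¬ (x = u ∨ x = u') → x ∈ N → τ x = 2 := by
    intro x h1 h2 h3
    rw [hτ]
    dsimp only
    rw [if_neg h1, if_neg h2, if_pos h3]
  have τn : ∀ x, x ∉ N → τ x = 3 := by
    intro x h3
    have a1 : x ≠ v := by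
      rintro rfl
      exact h3 hvN
    have a2 : ¬ (x = u ∨ x = u') := by
      rintro (rfl | rfl)
      · exact h3 huN
      · exact h3 huN'
    rw [hτ]
    dsimp only
    rw [if_neg a1, if_neg a2, if_neg h3]
  -- the colour of `v`
  have cv : cl G D χ ℓ ω v = e j := by
    have hjav : j ∈ av G D χ ℓ ω v := by
      rw [mem_av, mem_bk]
      rintro ⟨x, hx, hst, -⟩
      have h1 := htime v hvN x hx hst
      have hxv : x ≠ v := hx.ne
      rw [τv] at h1
      by_cases hxN : x ∈ N
      · by_cases h2 : x = u ∨ x = u'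
        · rw [τu x hxv h2] at h1
          exact absurd h1 (by decide)
        · rw [τo x hxv h2 hxN] at h1
          exact absurd h1 (by decide)
      · rw [τn x hxN] at h1
        exact absurd h1 (by decide)
    rw [hcl v hvN ⟨j, hjav⟩]
    have h2 : σ v = σv := by
      rw [hσ]
      exact if_pos rfl
    rw [h2]
    have h3 := hσv' (av G D χ ℓ ω v) ⟨j, mem_inter.2 ⟨hjav, mem_singleton_self j⟩⟩
    rw [mem_singleton.1 h3]
  -- the colours of `u` and `u'`
  have cu : ∀ x, (x = u ∨ x = u') → cl G D χ ℓ ω x = e j0 := by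
    intro x hx
    have hxN : x ∈ N := by
      rcases hx with rfl | rfl
      · exact huN
      · exact huN'
    have hxv : x ≠ v := by
      rcases hx with rfl | rfl
      · exact huv
      · exact huv'
    have hjav : j0 ∈ av G D χ ℓ ω x := by
      rw [mem_av, mem_bk]
      rintro ⟨y, hy, hst, hcy⟩
      have h1 := htime x hxN y hy hst
      rw [τu x hxv hx] at h1
      by_cases hyv : y = v
      · rw [hyv, cv, hlN x hxN] at hcy
        exact hj0 (einj hcy).symm
      · by_cases hyN : y ∈ N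
        · by_cases h2 : y = u ∨ y = u'
          · rcases hx with rfl | rfl
            · rcases h2 with rfl | rfl
              · exact hy.ne rfl
              · exact hnadj hy.symm
            · rcases h2 with rfl | rfl
              · exact hnadj hy
              · exact hy.ne rfl
          · rw [τo y hyv h2 hyN] at h1
            exact absurd h1 (by decide)
        · rw [τn y hyN] at h1
          exact absurd h1 (by decide)
    rw [hcl x hxN ⟨j0, hjav⟩]
    have h2 : σ x = σu := by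
      rw [hσ]
      dsimp only
      rw [if_neg hxv, if_pos hx]
    rw [h2]
    have h3 := hσu' (av G D χ ℓ ω x) ⟨j0, mem_inter.2 ⟨hjav, mem_singleton_self j0⟩⟩
    rw [mem_singleton.1 h3]
  refine ⟨cv, ?_⟩
  intro w hw
  have hwN : w ∈ N := (hmN w).2 (Or.inr hw)
  have hwv : w ≠ v := hw.ne'
  by_cases hwu : w = u ∨ w = u'
  · rw [cu w hwu]
    exact fun h => hj0' (einj h)
  · have hbk : bk G D χ ℓ ω w ⊆ ((N.erase w).erase u').image (cl G D χ ℓ ω) := by
      intro c hc
      rw [mem_bk] at hc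
      obtain ⟨y, hy, hst, hcy⟩ := hc
      have h1 := htime w hwN y hy hst
      rw [τo w hwv hwu hwN] at h1
      have hyN : y ∈ N := by
        by_contra hcon
        rw [τn y hcon] at h1
        exact absurd h1 (by decide)
      rw [not_or] at hwu
      rw [mem_image]
      by_cases hyu : y = u'
      · refine ⟨u, ?_, ?_⟩
        · rw [mem_erase, mem_erase]
          exact ⟨huu, fun h => hwu.1 h.symm, huN⟩
        · rw [← hcy, hyu, cu u (Or.inl rfl), cu u' (Or.inr rfl)]
      · refine ⟨y, ?_, hcy⟩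
        rw [mem_erase, mem_erase]
        exact ⟨hyu, hy.ne, hyN⟩
    have hcard : (bk G D χ ℓ ω w).card ≤ k - 2 := by
      refine (card_le_card hbk).trans (card_image_le.trans ?_)
      rw [not_or] at hwu
      rw [card_erase_of_mem (mem_erase.2 ⟨fun h => hwu.2 h.symm, huN'⟩),
        card_erase_of_mem hwN, hNc]
      omega
    have hav := av_card G ℓ hinj ω w (D := D) (χ := χ)
    have h2 : 1 < (av G D χ ℓ ω w).card := by omega
    obtain ⟨i, hi, hij⟩ := exists_mem_ne h2 j'
    rw [hcl w hwN ⟨i, hi⟩]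
    have h3 : σ w = σo := by
      rw [hσ]
      dsimp only
      rw [if_neg hwv, if_neg hwu]
    rw [h3]
    have h4 := hσo' (av G D χ ℓ ω w) ⟨i, mem_inter.2 ⟨hi, by
      rw [mem_compl, mem_singleton]; exact hij⟩⟩
    rw [mem_compl, mem_singleton] at h4
    exact fun h => h4 (einj h)

end Pool.Agent.Helper28.EQ
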