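import Pool.Agent.Helper28.EQ.Wt

/-!
# Block EQ-SY: equal lists and uniform choices: all colours have the same probability

PROOF. For a permutation `τ` of `Fin k` let `T ω w = ω w` if `ℓ w ≠ e`, and if `ℓ w = e` keep the time
and replace `s` by `A ↦ τ (s (A.map τ⁻¹))`. `T` is a bijection which preserves the weights (`pr = 1/|A|`
on `A`). Stages are unchanged. Claim: for `ω` of positive weight (then `s A ∈ A` for nonempty `A`,
so `pick s A = s A`), if `stg ω w ≤ r` and all lists in `nb r w` are `e`, then `cl ω w = e i` implies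
`cl (T ω) w = e (τ i)`. Induction on `r` (`cl_eq`, `mem_bk`, `mem_av`; the available sets are never
empty: `av_big`, and `av_card` with `bk_card_le` for degree `< k`). So the probability of `cl ω v = e j`
does not depend on `j` (`Ex_equiv`, `Ex_congr'`), and the `k` probabilities sum to one.
-/

namespace Pool.Agent.Helper28.EQ

open Finset

variable {V : Type} [Fintype V] [DecidableEq V] (G : SimpleGraph V) [DecidableRel G.Adj]
  {k D R : ℕ} {χ : V → ℕ} (ℓ : V → Fin k → ℕ)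

/-- The action of a permutation of the positions on the choice functions. -/
def act71 (τ : Equiv.Perm (Fin k)) (s : Finset (Fin k) → Fin k) : Finset (Fin k) → Fin k :=
  fun A => τ (s (A.map τ.symm.toEmbedding))

theorem map71 (τ : Equiv.Perm (Fin k)) (A : Finset (Fin k)) :
    (A.map τ.toEmbedding).map τ.symm.toEmbedding = A := by
  ext j
  simp [Finset.mem_map_equiv]

theorem map71' (τ : Equiv.Perm (Fin k)) (A : Finset (Fin k)) :
    (A.map τ.symm.toEmbedding).map τ.toEmbedding = A := by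
  ext j
  simp [Finset.mem_map_equiv]

/-- The action as a bijection of the data. -/
def T71 (V : Type) (R : ℕ) (τ : Equiv.Perm (Fin k)) : (V → Om R k) ≃ (V → Om R k) where
  toFun ω := fun v => ((ω v).1, act71 τ (ω v).2)
  invFun ω := fun v => ((ω v).1, act71 τ.symm (ω v).2)
  left_inv ω := by
    funext v
    refine Prod.ext rfl ?_
    funext A
    simp only [act71, Equiv.symm_symm, Equiv.symm_apply_apply, map71]
  right_inv ω := by
    funext v
    refine Prod.ext rfl ?_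
    funext A
    simp only [act71, Equiv.symm_symm, Equiv.apply_symm_apply, map71']

theorem pr71 (τ : Equiv.Perm (Fin k)) (l : Fin k → ℕ) (A : Finset (Fin k)) (j : Fin k) :
    pr (fun _ => 1) l A (τ j) = pr (fun _ => 1) l (A.map τ.symm.toEmbedding) j := by
  unfold pr
  have h1 : (A.map τ.symm.toEmbedding).Nonempty ↔ A.Nonempty := Finset.map_nonempty
  have h2 : j ∈ A.map τ.symm.toEmbedding ↔ τ j ∈ A := by
    simp [Finset.mem_map_equiv]
  simp only [sum_const, nsmul_eq_mul, mul_one, card_map, h1, h2]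

theorem wt71 (τ : Equiv.Perm (Fin k)) (ω : V → Om R k) :
    ∏ v, wt R ℓ (fun _ _ => 1) v (T71 V R τ ω v) = ∏ v, wt R ℓ (fun _ _ => 1) v (ω v) := by
  refine prod_congr rfl fun v _ => ?_
  unfold wt wch
  congr 1
  have e1 : ∀ A : Finset (Fin k), pr (fun _ => 1) (ℓ v) A ((T71 V R τ ω v).2 A) =
      pr (fun _ => 1) (ℓ v) (A.map τ.symm.toEmbedding) ((ω v).2 (A.map τ.symm.toEmbedding)) := by
    intro A
    exact pr71 τ (ℓ v) A _
  rw [prod_congr rfl fun A _ => e1 A]
  exact Fintype.prod_equiv (Equiv.finsetCongr τ.symm) _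
    (fun B => pr (fun _ => 1) (ℓ v) B ((ω v).2 B)) (fun A => by simp [Equiv.finsetCongr_apply])

theorem av_ne71 (hk : 0 < k) (hinj : ∀ v, Function.Injective (ℓ v)) (ω : V → Om R k) (v : V) :
    (av G D χ ℓ ω v).Nonempty := by
  by_cases h : k ≤ G.degree v
  · rw [av_big G ℓ ω v h]
    exact ⟨⟨0, hk⟩, mem_univ _⟩
  · push Not at h
    have h1 := av_card G (χ := χ) (D := D) ℓ hinj ω v
    have h2 := bk_card_le G (χ := χ) (D := D) ℓ ω v
    have h3 : ((G.neighborFinset v).filter fun u => stg G D χ ω u < stg G D χ ω v).card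
        ≤ G.degree v := (card_filter_le _ _).trans (le_of_eq (G.card_neighborFinset_eq_degree v))
    rw [← card_pos]
    omega

theorem pos71 {ω : V → Om R k} (hω : ∀ v, wt R ℓ (fun _ _ => 1) v (ω v) ≠ 0) (v : V)
    {A : Finset (Fin k)} (hA : A.Nonempty) : (ω v).2 A ∈ A := by
  by_contra hcon
  apply hω v
  unfold wt wch
  rw [prod_eq_zero (mem_univ A), mul_zero]
  unfold pr
  rw [if_pos hA, if_neg hcon]

theorem step71 (hk : 0 < k) (hinj : ∀ v, Function.Injective (ℓ v)) (e : Fin k → ℕ)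
    (he : Function.Injective e) (τ : Equiv.Perm (Fin k)) {ω : V → Om R k}
    (hω : ∀ v, wt R ℓ (fun _ _ => 1) v (ω v) ≠ 0) (w : V) (hw : ℓ w = e)
    (hu : ∀ u, G.Adj u w → stg G D χ ω u < stg G D χ ω w →
      ∀ i, cl G D χ ℓ ω u = e i ↔ cl G D χ ℓ (T71 V R τ ω) u = e (τ i)) :
    ∀ i, cl G D χ ℓ ω w = e i ↔ cl G D χ ℓ (T71 V R τ ω) w = e (τ i) := by
  have hst : ∀ x, stg G D χ (T71 V R τ ω) x = stg G D χ ω x := fun x => rfl
  have hA : ∀ i, i ∈ av G D χ ℓ ω w ↔ τ i ∈ av G D χ ℓ (T71 V R τ ω) w := by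
    intro i
    rw [mem_av, mem_av, mem_bk, mem_bk, hw]
    refine not_congr ⟨?_, ?_⟩
    · rintro ⟨u, h1, h2, h3⟩
      exact ⟨u, h1, by rw [hst, hst]; exact h2, (hu u h1 h2 i).1 h3⟩
    · rintro ⟨u, h1, h2, h3⟩
      rw [hst, hst] at h2
      exact ⟨u, h1, h2, (hu u h1 h2 i).2 h3⟩
  have hmap : (av G D χ ℓ (T71 V R τ ω) w).map τ.symm.toEmbedding = av G D χ ℓ ω w := by
    ext i
    rw [hA i]
    simp [Finset.mem_map_equiv]
  have hne := av_ne71 G (χ := χ) (D := D) ℓ hk hinj ω w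
  have hs := pos71 ℓ hω w hne
  have hs' : (T71 V R τ ω w).2 (av G D χ ℓ (T71 V R τ ω) w) =
      τ ((ω w).2 (av G D χ ℓ ω w)) := by
    change τ ((ω w).2 ((av G D χ ℓ (T71 V R τ ω) w).map τ.symm.toEmbedding)) = _
    rw [hmap]
  intro i
  rw [cl_eq, cl_eq, hw, pick_eq _ hs, pick_eq _ (by rw [hs']; exact (hA _).1 hs), hs',
    he.eq_iff, he.eq_iff, τ.injective.eq_iff]

theorem claim71 (hk : 0 < k) (hinj : ∀ v, Function.Injective (ℓ v)) (e : Fin k → ℕ)
    (he : Function.Injective e) (τ : Equiv.Perm (Fin k)) {ω : V → Om R k}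
    (hω : ∀ v, wt R ℓ (fun _ _ => 1) v (ω v) ≠ 0) (r : ℕ) :
    ∀ w : V, stg G D χ ω w ≤ r → (∀ x ∈ nb G r w, ℓ x = e) →
      ∀ i, cl G D χ ℓ ω w = e i ↔ cl G D χ ℓ (T71 V R τ ω) w = e (τ i) := by
  induction r with
  | zero =>
    intro w hw hx
    refine step71 G ℓ hk hinj e he τ hω w (hx w (nb_self G _ w)) fun u h1 h2 => ?_
    omega
  | succ r ih =>
    intro w hw hx
    refine step71 G ℓ hk hinj e he τ hω w (hx w (nb_self G _ w)) fun u h1 h2 => ?_
    exact ih u (by omega) fun x hx' => hx x (nb_adj G r h1.symm hx')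

open Classical in
theorem Pr71 {α : Type} [Fintype α] {w : V → α → ℝ} (e : (V → α) ≃ (V → α))
    (he : ∀ ω, ∏ v, w v (e ω v) = ∏ v, w v (ω v)) {P Q : (V → α) → Prop}
    (h : ∀ ω, (∀ v, w v (ω v) ≠ 0) → (P ω ↔ Q (e ω))) : Pr w P = Pr w Q := by
  unfold Pr
  refine Eq.trans ?_ (Ex_equiv e he (fun ω => if Q ω then (1 : ℝ) else 0))
  refine Ex_congr' fun ω hω => ?_
  simp only [h ω hω]

open Classical in
theorem Pr71_true {α : Type} [Fintype α] {w : V → α → ℝ} (hw : IsW w) {P : (V → α) → Prop}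
    (h : ∀ ω, P ω) : Pr w P = 1 := by
  unfold Pr
  have : (fun ω => if P ω then (1 : ℝ) else 0) = fun _ => 1 := by
    funext ω
    rw [if_pos (h ω)]
  rw [this]
  exact Ex_const hw 1

theorem sym_eq (hχ : ∀ v, χ v ≤ D) (hR : 0 < R) (hk : 0 < k)
    (hinj : ∀ v, Function.Injective (ℓ v)) (e : Fin k → ℕ) (v : V)
    (hreg : ∀ w ∈ nb G (R * (D + 1)) v, ℓ w = e) (j : Fin k) :
    Pr (wt R ℓ (fun _ _ => 1)) (fun ω : V → Om R k => cl G D χ ℓ ω v = e j) = 1 / k := by
  have hv : ℓ v = e := hreg v (nb_self G _ v)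
  have he : Function.Injective e := hv ▸ hinj v
  have hstg : ∀ ω : V → Om R k, stg G D χ ω v ≤ R * (D + 1) := by
    intro ω
    unfold stg
    split_ifs
    · exact Nat.zero_le _
    · have h1 := (ω v).1.isLt
      have h2 := hχ v
      have h3 : ((ω v).1 : ℕ) + 1 ≤ R := h1
      have h4 := Nat.mul_le_mul_right (D + 1) h3
      rw [add_mul, one_mul] at h4
      omega
  have hsw : ∀ i, Pr (wt R ℓ (fun _ _ => 1)) (fun ω : V → Om R k => cl G D χ ℓ ω v = e i) =
      Pr (wt R ℓ (fun _ _ => 1)) (fun ω : V → Om R k => cl G D χ ℓ ω v = e j) := by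
    intro i
    refine Pr71 (T71 V R (Equiv.swap i j)) (wt71 ℓ _) fun ω hω => ?_
    have := claim71 G (χ := χ) (D := D) ℓ hk hinj e he (Equiv.swap i j) hω _ v (hstg ω) hreg i
    rwa [Equiv.swap_apply_left] at this
  have hIsW := isW_wt (V := V) (R := R) ℓ (fun _ _ => (1 : ℝ)) hR hk (fun _ _ => one_pos)
  have hsum := Pr_sum (wt R ℓ (fun _ _ => 1)) (fun ω : V → Om R k => cl G D χ ℓ ω v) (Ls ℓ v)
  rw [Pr71_true hIsW (fun ω => cl_mem G ℓ ω v)] at hsum
  unfold Ls at hsum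
  rw [hv, sum_image (fun a _ b _ h => he h), sum_congr rfl (fun i _ => hsw i), sum_const,
    card_univ, Fintype.card_fin, nsmul_eq_mul] at hsum
  have hk0 : (k : ℝ) ≠ 0 := by exact_mod_cast hk.ne'
  rw [eq_div_iff hk0]
  linarith

end Pool.Agent.Helper28.EQ
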