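import Pool.Agent.Helper28.EQ.Second
import Pool.Agent.Helper28.EQ.Sym
import Pool.Agent.Helper28.EQ.PatA
import Pool.Agent.Helper28.EQ.PatB
import Pool.Agent.Helper28.EQ.Count
import Pool.Agent.Helper28.EQ.Balance
import Pool.Agent.Helper28.EQ.Chi

/-!
# Block EQ-C1: almost all lists are equal

PROOF. `R = 4`, `y = 1`, `ρ = 4 (D+1)`, `β0 = (D+1)^ρ`, `Irr = {v : ℓ v ≠ e}`, `|Irr| ≤ δ0 n`. For every
`j`: `∑ v, Pr (cl v = e j) ≤ n/k + |Irr| β0` (`sym_eq` if the ball `nb ρ v` contains no irregular vertex,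
the other balls are at most `|Irr| β0` by `nb_symm`, `nb_card`). For `j ≠ j'`: the sum over the `v` with
`Gd v` and `N[v] ∩ Irr = ∅` of `Pr (cl v = e j ∧ no neighbour has the colour e j')` is
`≥ ε1 (n - (D+1)^2 δ0 n)/(D+1)` (`patA`, `patB`, `good_count`). `exists_dev` (`ι = Fin k ⊕ Fin k × Fin k`,
`B v = nb (ρ+1) v`, `η = η0 n`) gives one `ω` for which all these sums differ from their expectations by
less than `η0 n`. Apply `balance` to `f = cl ω`, `U = image of e`, `N = (n+k-1)/k`,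
`μ = ⌊k (δ0 β0 + η0) n⌋`; needs `(D+1) μ < ε1 (1 - (D+1)^2 δ0) n/(D+1) - η0 n`: choose `δ0`, `η0`
small, `n` large. Colours outside `U` are only used at irregular vertices: at most `δ0 n ≤ N`.
-/

namespace Pool.Agent.Helper28.EQ

open Finset

section aux

variable {V : Type} [Fintype V] [DecidableEq V] (G : SimpleGraph V) [DecidableRel G.Adj]
  {k D : ℕ} {χ : V → ℕ} (ℓ : V → Fin k → ℕ)

/-- Balls around irregular vertices. -/
theorem h28_irr_count (hD : ∀ v, G.degree v ≤ D) (r : ℕ) (Irr : Finset V) :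
    (univ.filter fun v => ¬ Disjoint (nb G r v) Irr).card ≤ Irr.card * (D + 1) ^ r := by
  classical
  have h1 : (univ.filter fun v => ¬ Disjoint (nb G r v) Irr) ⊆ Irr.biUnion (fun w => nb G r w) := by
    intro v hv
    simp only [mem_filter, mem_univ, true_and] at hv
    rw [Finset.not_disjoint_iff] at hv
    obtain ⟨w, hw1, hw2⟩ := hv
    rw [Finset.mem_biUnion]
    exact ⟨w, hw2, nb_symm G hw1⟩
  refine (Finset.card_le_card h1).trans ?_
  refine (Finset.card_biUnion_le_card_mul _ _ ((D + 1) ^ r) ?_)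
  intro w _
  exact nb_card G hD r w

open Classical in
/-- The indicators. -/
noncomputable def h28Y (D : ℕ) (χ : V → ℕ) (e : Fin k → ℕ) :
    (Fin k ⊕ (Fin k × Fin k)) → V → (V → Om 4 k) → ℝ
  | .inl j, v, ω => if cl G D χ ℓ ω v = e j then 1 else 0
  | .inr (j, j'), v, ω => if (Gd G k v ∧ ∀ w ∈ insert v (G.neighborFinset v), ℓ w = e) ∧
      (cl G D χ ℓ ω v = e j ∧ ∀ u, G.Adj v u → cl G D χ ℓ ω u ≠ e j') then 1 else 0

theorem h28Y_nonneg (e : Fin k → ℕ) (i : Fin k ⊕ (Fin k × Fin k)) (v : V) (ω : V → Om 4 k) :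
    0 ≤ h28Y G ℓ D χ e i v ω := by
  rcases i with j | ⟨j, j'⟩
  · simp only [h28Y]
    split_ifs <;> norm_num
  · simp only [h28Y]
    split_ifs <;> norm_num

theorem h28Y_le (e : Fin k → ℕ) (i : Fin k ⊕ (Fin k × Fin k)) (v : V) (ω : V → Om 4 k) :
    h28Y G ℓ D χ e i v ω ≤ 1 := by
  rcases i with j | ⟨j, j'⟩
  · simp only [h28Y]
    split_ifs <;> norm_num
  · simp only [h28Y]
    split_ifs <;> norm_num

theorem h28Y_dep (hχ : ∀ v, χ v ≤ D) (e : Fin k → ℕ) (i : Fin k ⊕ (Fin k × Fin k)) (v : V) :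
    Dep (h28Y G ℓ D χ e i v) (nb G (4 * (D + 1) + 1) v) := by
  intro ω ω' h
  have hv : cl G D χ ℓ ω v = cl G D χ ℓ ω' v :=
    cl_dep G ℓ hχ v ω ω' fun w hw => h w (nb_mono G (Nat.le_succ _) v hw)
  have hu : ∀ u, G.Adj v u → cl G D χ ℓ ω u = cl G D χ ℓ ω' u := fun u hu =>
    cl_dep G ℓ hχ u ω ω' fun w hw => h w (nb_adj G _ hu hw)
  rcases i with j | ⟨j, j'⟩
  · simp only [h28Y, hv]
  · have hiff : (cl G D χ ℓ ω v = e j ∧ ∀ u, G.Adj v u → cl G D χ ℓ ω u ≠ e j') ↔
        (cl G D χ ℓ ω' v = e j ∧ ∀ u, G.Adj v u → cl G D χ ℓ ω' u ≠ e j') := by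
      rw [hv]
      refine and_congr_right fun _ => ?_
      exact forall_congr' fun u => forall_congr' fun h' => by rw [hu u h']
    simp only [h28Y]
    by_cases hc : (Gd G k v ∧ ∀ w ∈ insert v (G.neighborFinset v), ℓ w = e) ∧
        (cl G D χ ℓ ω v = e j ∧ ∀ u, G.Adj v u → cl G D χ ℓ ω u ≠ e j')
    · rw [if_pos hc, if_pos ⟨hc.1, hiff.mp hc.2⟩]
    · rw [if_neg hc, if_neg fun h' => hc ⟨h'.1, hiff.mpr h'.2⟩]

theorem h28_sum_inl (hG : Good G k D) (hχ : Chi G D χ) (hk : 0 < k)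
    (hinj : ∀ v, Function.Injective (ℓ v)) (e : Fin k → ℕ) (j : Fin k) :
    ∑ v, Ex (wt 4 ℓ (fun _ _ => 1)) (h28Y G ℓ D χ e (.inl j) v)
      ≤ (Fintype.card V : ℝ) / k
        + ((univ.filter fun v => ℓ v ≠ e).card : ℝ) * ((D : ℝ) + 1) ^ (4 * (D + 1)) := by
  classical
  set Irr := univ.filter fun v => ℓ v ≠ e with hIrr
  have h1 : ∀ v, Ex (wt 4 ℓ (fun _ _ => 1)) (h28Y G ℓ D χ e (.inl j) v)
      ≤ 1 / (k : ℝ) + (if ¬ Disjoint (nb G (4 * (D + 1)) v) Irr then 1 else 0) := by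
    intro v
    have hEx : Ex (wt 4 ℓ (fun _ _ => 1)) (h28Y G ℓ D χ e (.inl j) v)
        = Pr (wt 4 ℓ (fun _ _ => 1)) (fun ω : V → Om 4 k => cl G D χ ℓ ω v = e j) := by
      unfold Pr
      congr 1
      funext ω
      simp only [h28Y]
      by_cases hc : cl G D χ ℓ ω v = e j
      · rw [if_pos hc, if_pos hc]
      · rw [if_neg hc, if_neg hc]
    rw [hEx]
    by_cases hd : Disjoint (nb G (4 * (D + 1)) v) Irr
    · rw [if_neg (not_not.mpr hd), add_zero]
      refine (sym_eq G ℓ hχ.hle (by norm_num) hk hinj e v ?_ j).le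
      intro w hw
      by_contra hne
      exact Finset.disjoint_left.mp hd hw (by rw [hIrr, mem_filter]; exact ⟨mem_univ _, hne⟩)
    · rw [if_pos hd]
      have h2 := Pr_le_one (isW_wt (V := V) (R := 4) ℓ (fun _ _ => (1 : ℝ)) (by norm_num) hk
        (fun _ _ => one_pos)) (fun ω : V → Om 4 k => cl G D χ ℓ ω v = e j)
      have h3 : (0 : ℝ) ≤ 1 / k := by positivity
      linarith
  calc _ ≤ ∑ v : V, (1 / (k : ℝ) + (if ¬ Disjoint (nb G (4 * (D + 1)) v) Irr then 1 else 0)) :=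
        Finset.sum_le_sum fun v _ => h1 v
    _ = (Fintype.card V : ℝ) / k
        + ((univ.filter fun v => ¬ Disjoint (nb G (4 * (D + 1)) v) Irr).card : ℝ) := by
        rw [Finset.sum_add_distrib, Finset.sum_boole]
        simp
        ring
    _ ≤ _ := by
        have h2 := h28_irr_count G hG.hD (4 * (D + 1)) Irr
        have h3 : ((univ.filter fun v => ¬ Disjoint (nb G (4 * (D + 1)) v) Irr).card : ℝ)
            ≤ (Irr.card * (D + 1) ^ (4 * (D + 1)) : ℕ) := by exact_mod_cast h2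
        push_cast at h3
        linarith

theorem h28_sum_inr (hG : Good G k D) (hχ : Chi G D χ) (hk : 0 < k)
    (hinj : ∀ v, Function.Injective (ℓ v)) (e : Fin k → ℕ) (j j' : Fin k) (hj : j ≠ j') :
    ε1 k D * (((Fintype.card V : ℝ) - ((D : ℝ) + 1) ^ 2 * (univ.filter fun v => ℓ v ≠ e).card)
        / ((D : ℝ) + 1))
      ≤ ∑ v, Ex (wt 4 ℓ (fun _ _ => 1)) (h28Y G ℓ D χ e (.inr (j, j')) v) := by
  classical
  set Irr := univ.filter fun v => ℓ v ≠ e with hIrr
  have hε : 0 ≤ ε1 k D := by unfold ε1; positivity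
  have hw := isW_wt (V := V) (R := 4) ℓ (fun _ _ => (1 : ℝ)) (by norm_num) hk
        (fun _ _ => one_pos)
  have h1 : ∀ v, (if (Gd G k v ∧ ∀ w ∈ insert v (G.neighborFinset v), w ∉ Irr) then ε1 k D else 0)
      ≤ Ex (wt 4 ℓ (fun _ _ => 1)) (h28Y G ℓ D χ e (.inr (j, j')) v) := by
    intro v
    split_ifs with h
    · have hreg : ∀ w ∈ insert v (G.neighborFinset v), ℓ w = e := by
        intro w hw
        have := h.2 w hw
        rw [hIrr, mem_filter] at this
        by_contra hne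
        exact this ⟨mem_univ _, hne⟩
      have hEx : Ex (wt 4 ℓ (fun _ _ => 1)) (h28Y G ℓ D χ e (.inr (j, j')) v)
          = Pr (wt 4 ℓ (fun _ _ => 1)) (fun ω : V → Om 4 k =>
            cl G D χ ℓ ω v = e j ∧ ∀ u, G.Adj v u → cl G D χ ℓ ω u ≠ e j') := by
        unfold Pr
        congr 1
        funext ω
        simp only [h28Y]
        have : (Gd G k v ∧ ∀ w ∈ insert v (G.neighborFinset v), ℓ w = e) := ⟨h.1, hreg⟩
        simp only [this, true_and]
        congr 1
        apply propext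
        constructor
        · rintro ⟨_, h⟩; exact h
        · intro h; exact ⟨this.2, h⟩
      rw [hEx]
      rcases h.1 with hd | ⟨hd1, hd2⟩
      · exact patA G ℓ hG hχ hinj e v hd hreg j j' hj
      · exact patB G ℓ hG hχ hinj e v hd1 hd2 hreg j j' hj
    · have := Ex_mono hw (g := fun _ => 0) (h := h28Y G ℓ D χ e (.inr (j, j')) v)
        (fun ω => h28Y_nonneg G ℓ e _ v ω)
      rwa [Ex_const hw] at this
  have h2 := good_count G hG hk Irr
  have hD : (0 : ℝ) < (D : ℝ) + 1 := by positivity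
  have h3 : ((Fintype.card V : ℝ) - ((D : ℝ) + 1) ^ 2 * Irr.card) / ((D : ℝ) + 1)
      ≤ ((univ.filter fun v => Gd G k v ∧
          ∀ w ∈ insert v (G.neighborFinset v), w ∉ Irr).card : ℝ) := by
    rw [div_le_iff₀ hD]
    linarith
  calc _ ≤ ε1 k D * ((univ.filter fun v => Gd G k v ∧
          ∀ w ∈ insert v (G.neighborFinset v), w ∉ Irr).card : ℝ) :=
        mul_le_mul_of_nonneg_left h3 hε
    _ = ∑ v : V, (if (Gd G k v ∧ ∀ w ∈ insert v (G.neighborFinset v), w ∉ Irr)
          then ε1 k D else 0) := by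
        rw [← Finset.sum_filter, Finset.sum_const, nsmul_eq_mul]
        ring
    _ ≤ _ := Finset.sum_le_sum fun v _ => h1 v

end aux

theorem case1 (k D : ℕ) (hk : 2 ≤ k) :
    ∃ δ0 : ℝ, 0 < δ0 ∧ ∃ n0 : ℕ, ∀ (V : Type) [Fintype V] [DecidableEq V] (G : SimpleGraph V)
      [DecidableRel G.Adj], Good G k D → n0 ≤ Fintype.card V → ∀ ℓ : V → Fin k → ℕ,
      (∀ v, Function.Injective (ℓ v)) → ∀ e : Fin k → ℕ, Function.Injective e →
      ((univ.filter fun v => ℓ v ≠ e).card : ℝ) ≤ δ0 * Fintype.card V →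
      ∃ f : V → ℕ, (∀ v, f v ∈ Ls ℓ v) ∧ (∀ u v, G.Adj u v → f u ≠ f v) ∧
        ∀ c, (univ.filter fun v => f v = c).card ≤ (Fintype.card V + k - 1) / k := by
  classical
  have hk0 : 0 < k := by omega
  have hkR : (0 : ℝ) < k := by exact_mod_cast hk0
  have hkR1 : (1 : ℝ) ≤ k := by exact_mod_cast (by omega : 1 ≤ k)
  set d : ℝ := (D : ℝ) + 1 with hd
  have hd1 : (1 : ℝ) ≤ d := by rw [hd]; linarith [Nat.cast_nonneg (α := ℝ) D]
  have hd0 : (0 : ℝ) < d := by linarith
  have hεpos : 0 < ε1 k D := by unfold ε1; positivity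
  have hεle : ε1 k D ≤ 1 := by
    unfold ε1
    have h1 : ((1 : ℝ) / 4) ^ ((D + 1) ^ 2) ≤ 1 := pow_le_one₀ (by norm_num) (by norm_num)
    have h2 : ((1 / (k : ℝ)) ^ (2 ^ k)) ^ (D + 1) ≤ 1 := by
      apply pow_le_one₀ (by positivity)
      apply pow_le_one₀ (by positivity)
      rw [div_le_one hkR]
      exact hkR1
    have h3 : (0 : ℝ) ≤ (1 / 4) ^ ((D + 1) ^ 2) := by positivity
    calc _ ≤ (1 : ℝ) * 1 := mul_le_mul h1 h2 (by positivity) (by norm_num)
      _ = 1 := by norm_num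
  set β0 : ℝ := d ^ (4 * (D + 1)) with hβ0
  have hβ1 : 1 ≤ β0 := one_le_pow₀ hd1
  set a : ℝ := ε1 k D / d with ha
  have ha0 : 0 < a := by rw [ha]; positivity
  have ha1 : a ≤ 1 := by
    rw [ha, div_le_one hd0]
    linarith
  set Q : ℝ := d * k * β0 + ε1 k D * d + 1 with hQ
  have hQ1 : 0 < Q := by rw [hQ]; positivity
  set δ0 : ℝ := a / (16 * Q) with hδ0
  have hδ0pos : 0 < δ0 := by rw [hδ0]; positivity
  set η0 : ℝ := a / (8 * (d * k)) with hη0
  have hη0pos : 0 < η0 := by rw [hη0]; positivity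
  have e1 : δ0 * Q = a / 16 := by rw [hδ0]; field_simp
  have e2 : d * k * η0 = a / 8 := by rw [hη0]; field_simp
  have e3 : η0 ≤ a / 8 := by
    rw [← e2]
    have : 1 ≤ d * k := by nlinarith
    nlinarith
  have e4 : d * (k * (δ0 * β0 + η0)) + ε1 k D * d * δ0 + η0 ≤ 3 * a / 8 := by
    have : d * (k * (δ0 * β0 + η0)) + ε1 k D * d * δ0 + δ0 = δ0 * Q + d * k * η0 := by
      rw [hQ]; ring
    nlinarith
  have e5 : δ0 ≤ 1 / k := by
    rw [le_div_iff₀ hkR]
    have h1 : (k : ℝ) ≤ Q := by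
      rw [hQ]
      have : (k : ℝ) ≤ d * k * β0 := by
        have h2 : (k : ℝ) ≤ d * k := by nlinarith
        have h3 : d * k ≤ d * k * β0 := by nlinarith [mul_pos hd0 hkR]
        linarith
      have : 0 < ε1 k D * d := by positivity
      linarith
    have : δ0 * k ≤ δ0 * Q := mul_le_mul_of_nonneg_left h1 hδ0pos.le
    linarith
  set B : ℝ := (((k : ℝ) + k * k) * ((D : ℝ) + 1) ^ (2 * (4 * (D + 1) + 1))) / η0 ^ 2 with hB
  refine ⟨δ0, hδ0pos, ⌈B⌉₊ + 1, ?_⟩
  intro V _ _ G _ hG hn ℓ hinj e he hirr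
  have hnpos : 0 < Fintype.card V := by omega
  set n : ℝ := (Fintype.card V : ℝ) with hn'
  have hnR : 0 < n := by rw [hn']; exact_mod_cast hnpos
  have hBn : B < n := by
    have h1 : B ≤ ⌈B⌉₊ := Nat.le_ceil B
    have h2 : ((⌈B⌉₊ + 1 : ℕ) : ℝ) ≤ n := by rw [hn']; exact_mod_cast hn
    push_cast at h2
    linarith
  obtain ⟨χ, hχ⟩ := exists_chi G D hG.hD
  have hw := isW_wt (V := V) (R := 4) ℓ (fun _ _ => (1 : ℝ)) (by norm_num) hk0
        (fun _ _ => one_pos)
  obtain ⟨ω, hω⟩ := exists_dev hw (fun v => nb G (4 * (D + 1) + 1) v)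
    ((D + 1) ^ (2 * (4 * (D + 1) + 1))) (fun v => nb_overlap G hG.hD _ v)
    (h28Y G ℓ D χ e) (fun i v ω => h28Y_nonneg G ℓ e i v ω) (fun i v ω => h28Y_le G ℓ e i v ω)
    (fun i v => h28Y_dep G ℓ hχ.hle e i v) (η0 * n) (by positivity) (by
      rw [Fintype.card_sum, Fintype.card_prod, Fintype.card_fin]
      push_cast
      rw [hB, div_lt_iff₀ (by positivity)] at hBn
      have : ((k : ℝ) + k * k) * (((D : ℝ) + 1) ^ (2 * (4 * (D + 1) + 1)) * n)
          = (((k : ℝ) + k * k) * ((D : ℝ) + 1) ^ (2 * (4 * (D + 1) + 1))) * n := by ring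
      rw [← hn', this]
      calc _ < (n * η0 ^ 2) * n := mul_lt_mul_of_pos_right hBn hnR
        _ = (η0 * n) ^ 2 := by ring)
  set f : V → ℕ := fun v => cl G D χ ℓ ω v with hf
  set N : ℕ := (Fintype.card V + k - 1) / k with hN
  have hNn : Fintype.card V ≤ k * N := by
    rw [hN]
    have h1 := Nat.div_add_mod (Fintype.card V + k - 1) k
    have h2 := Nat.mod_lt (Fintype.card V + k - 1) hk0
    omega
  have hNR : n / k ≤ N := by
    rw [div_le_iff₀ hkR]
    have : ((Fintype.card V : ℕ) : ℝ) ≤ ((k * N : ℕ) : ℝ) := by exact_mod_cast hNn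
    push_cast at this
    rw [← hn'] at this
    linarith
  set irr : ℝ := ((univ.filter fun v => ℓ v ≠ e).card : ℝ) with hirr'
  have hirr0 : 0 ≤ irr := by rw [hirr']; positivity
  -- class sizes
  have hX : ∀ j : Fin k, ((univ.filter fun v => f v = e j).card : ℝ)
      ≤ n / k + (δ0 * β0 + η0) * n := by
    intro j
    have h1 := hω (.inl j)
    have h2 := h28_sum_inl G ℓ hG hχ hk0 hinj e j
    have h3 : ∑ v, h28Y G ℓ D χ e (.inl j) v ω = ((univ.filter fun v => f v = e j).card : ℝ) := by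
      simp only [h28Y]
      rw [Finset.sum_boole]
    rw [h3] at h1
    have h4 := (abs_lt.mp h1).2
    have h5 : irr * β0 ≤ δ0 * n * β0 := mul_le_mul_of_nonneg_right hirr (by positivity)
    rw [← hn', ← hirr', ← hd, ← hβ0] at h2
    nlinarith
  -- movable vertices
  have hM : ∀ j j' : Fin k, j ≠ j' → (a - ε1 k D * d * δ0 - η0) * n <
      ((univ.filter fun v => f v = e j ∧ e j' ∈ Ls ℓ v ∧
        ∀ u ∈ G.neighborFinset v, f u ≠ e j').card : ℝ) := by
    intro j j' hj
    have h1 := hω (.inr (j, j'))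
    have h2 := h28_sum_inr G ℓ hG hχ hk0 hinj e j j' hj
    have h4 := (abs_lt.mp h1).1
    have h3 : ∑ v, h28Y G ℓ D χ e (.inr (j, j')) v ω
        ≤ ((univ.filter fun v => f v = e j ∧ e j' ∈ Ls ℓ v ∧
        ∀ u ∈ G.neighborFinset v, f u ≠ e j').card : ℝ) := by
      rw [← Finset.sum_boole]
      refine Finset.sum_le_sum fun v _ => ?_
      simp only [h28Y]
      split_ifs with c1 c2
      · exact le_rfl
      · exfalso
        apply c2
        refine ⟨c1.2.1, ?_, ?_⟩
        · unfold Ls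
          rw [c1.1.2 v (Finset.mem_insert_self _ _)]
          exact Finset.mem_image_of_mem _ (mem_univ _)
        · intro u hu
          rw [SimpleGraph.mem_neighborFinset] at hu
          exact c1.2.2 u hu
      · norm_num
      · norm_num
    rw [← hn', ← hirr', ← hd] at h2
    have h5 : a * n - ε1 k D * d * irr = ε1 k D * ((n - d ^ 2 * irr) / d) := by
      rw [ha]; field_simp
    have h6 : ε1 k D * d * irr ≤ ε1 k D * d * (δ0 * n) :=
      mul_le_mul_of_nonneg_left hirr (by positivity)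
    nlinarith
  set μ : ℕ := ⌊(k : ℝ) * (δ0 * β0 + η0) * n⌋₊ with hμ
  have hμR : (μ : ℝ) ≤ (k : ℝ) * (δ0 * β0 + η0) * n := Nat.floor_le (by positivity)
  have hsumU : ∀ g : ℕ → ℕ, ∑ c ∈ univ.image e, g c = ∑ j : Fin k, g (e j) := by
    intro g
    rw [Finset.sum_image fun x _ y _ h => he h]
  obtain ⟨f', hf1, hf2, hf3⟩ := balance G k D N μ hG.hD hNn (Ls ℓ) (univ.image e)
    (by rw [Finset.card_image_of_injective _ he, Finset.card_univ, Fintype.card_fin]) f
    (fun v => cl_mem G ℓ ω v) (fun u v h => cl_proper G ℓ hG hχ hinj ω h)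
    (by
      rw [hsumU]
      apply Nat.le_floor
      push_cast
      have h1 : ∀ j : Fin k, (((univ.filter fun v => f v = e j).card - N : ℕ) : ℝ)
          ≤ (δ0 * β0 + η0) * n := by
        intro j
        rcases Nat.le_total (univ.filter fun v => f v = e j).card N with h | h
        · rw [Nat.sub_eq_zero_of_le h]
          simp only [Nat.cast_zero]
          positivity
        · rw [Nat.cast_sub h]
          have := hX j
          linarith
      calc _ ≤ ∑ _j : Fin k, (δ0 * β0 + η0) * n := Finset.sum_le_sum fun j _ => h1 j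
        _ = _ := by simp; ring)
    (by
      intro c hc c' hc' hcc
      obtain ⟨j, -, rfl⟩ := Finset.mem_image.mp hc
      obtain ⟨j', -, rfl⟩ := Finset.mem_image.mp hc'
      have hj : j ≠ j' := fun h => hcc (by rw [h])
      have h1 := hM j j' hj
      have h2 : (((D + 1) * μ : ℕ) : ℝ) < ((univ.filter fun v => f v = e j ∧ e j' ∈ Ls ℓ v ∧
        ∀ u ∈ G.neighborFinset v, f u ≠ e j').card : ℝ) := by
        refine lt_of_le_of_lt ?_ h1
        push_cast
        rw [← hd]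
        have h3 : d * μ ≤ d * ((k : ℝ) * (δ0 * β0 + η0) * n) :=
          mul_le_mul_of_nonneg_left hμR hd0.le
        have h4 : (d * (k * (δ0 * β0 + η0)) + ε1 k D * d * δ0 + η0) * n ≤ 3 * a / 8 * n :=
          mul_le_mul_of_nonneg_right e4 hnR.le
        nlinarith [mul_pos ha0 hnR]
      exact_mod_cast h2)
  refine ⟨f', hf1, hf2, fun c => ?_⟩
  by_cases hc : c ∈ univ.image e
  · exact hf3 c hc
  · have h1 : (univ.filter fun v => f' v = c) ⊆ univ.filter fun v => ℓ v ≠ e := by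
      intro v hv
      rw [mem_filter] at hv ⊢
      refine ⟨mem_univ _, fun h => hc ?_⟩
      have := hf1 v
      rw [hv.2] at this
      unfold Ls at this
      rwa [h] at this
    have h2 : ((univ.filter fun v => f' v = c).card : ℝ) ≤ N := by
      calc ((univ.filter fun v => f' v = c).card : ℝ) ≤ irr := by
            rw [hirr']; exact_mod_cast Finset.card_le_card h1
        _ ≤ δ0 * n := hirr
        _ ≤ 1 / k * n := mul_le_mul_of_nonneg_right e5 hnR.le
        _ = n / k := by ring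
        _ ≤ N := hNR
    exact_mod_cast h2

end Pool.Agent.Helper28.EQ
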