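import Pool.Agent.Helper28.EQ.Defs

/-!
# Block EQ-CT: continuity of the expected class sizes in the prices

PROOF. `ExX` is a finite sum of finite products of the functions `pr (..) A j`, which are constants or
quotients `exp(..)/∑ exp(..)` with positive denominator (`A` nonempty) of continuous functions of `x`.
The event `cl ω v = c` does not depend on `x`.
-/

namespace Pool.Agent.Helper28.EQ

open Finset

variable {V : Type} [Fintype V] [DecidableEq V] (G : SimpleGraph V) [DecidableRel G.Adj]
  {k D R : ℕ} {χ : V → ℕ} (ℓ : V → Fin k → ℕ)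

theorem cont_prc7 {p : ℕ} (e : Fin p → ℕ) (lam : ℝ) (c : ℕ) :
    Continuous fun x : Fin p → ℝ => prc e lam x c := by
  unfold prc
  apply Real.continuous_exp.comp
  apply continuous_const.mul
  apply continuous_finsetSum
  intro i _
  by_cases h : e i = c
  · simp only [h, if_true]
    exact continuous_apply i
  · simp only [h, if_false]
    exact continuous_const

theorem cont_ys7 {p : ℕ} (e : Fin p → ℕ) (lam : ℝ) (v : V) (c : ℕ) :
    Continuous fun x : Fin p → ℝ => ys G k (prc e lam x) v c := by
  unfold ys
  by_cases h : k ≤ G.degree v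
  · simp only [h, if_true]
    exact continuous_const
  · simp only [h, if_false]
    exact cont_prc7 e lam c

theorem ys_pos7 {p : ℕ} (e : Fin p → ℕ) (lam : ℝ) (x : Fin p → ℝ) (v : V) (c : ℕ) :
    0 < ys G k (prc e lam x) v c := by
  unfold ys
  by_cases h : k ≤ G.degree v
  · simp only [h, if_true]
    norm_num
  · simp only [h, if_false]
    unfold prc
    exact Real.exp_pos _

theorem cont_pr7 {p : ℕ} (e : Fin p → ℕ) (lam : ℝ) (v : V) (l : Fin k → ℕ) (A : Finset (Fin k))
    (j : Fin k) : Continuous fun x : Fin p → ℝ => pr (ys G k (prc e lam x) v) l A j := by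
  unfold pr
  by_cases hA : A.Nonempty
  · by_cases hj : j ∈ A
    · simp only [hA, hj, if_true]
      refine Continuous.div (cont_ys7 G e lam v (l j)) ?_ ?_
      · exact continuous_finsetSum _ fun i _ => cont_ys7 G e lam v (l i)
      · intro x
        exact (Finset.sum_pos (fun i _ => ys_pos7 G e lam x v (l i)) hA).ne'
    · simp only [hA, hj, if_true, if_false]
      exact continuous_const
  · simp only [hA, if_false]
    exact continuous_const

theorem cont_ExX {p : ℕ} (e : Fin p → ℕ) (lam : ℝ) (c : ℕ) :
    Continuous fun x : Fin p → ℝ => ExX G D χ R ℓ (ys G k (prc e lam x)) c := by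
  unfold ExX Pr Ex
  apply continuous_finsetSum
  intro v _
  apply continuous_finsetSum
  intro ω _
  apply Continuous.mul _ continuous_const
  apply continuous_finsetProd
  intro u _
  unfold wt wch
  apply continuous_const.mul
  apply continuous_finsetProd
  intro A _
  exact cont_pr7 G e lam u (ℓ u) A _

end Pool.Agent.Helper28.EQ
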