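import Pool.Agent.Helper28.EQ.Key

/-!
# Block EQ-SB: slack by a path of three vertices

PROOF. Event `F`: time of `u` in `[0, R')`, of `v` in `[R', 2R')`, of `u'` in `[2R', 3R')`, of all other
vertices of `N(u) ∪ N(v) ∪ N(u')` in `[3R', 4R')`, and `(ω u).2 univ = ju`. These are at most
`(D+1)^2` vertices, none of them is big (`hO`), `P(F) ≥ δ4` (`Ex_prod`, `sum_wch`). On `F`: `u` is
before all its neighbours, `cl u = ℓ u ju =: a`. `v` is adjacent to `u`, so `cl v ≠ a`
(`cl_proper`). The only neighbour of `u'` with smaller stage is `v` (`u` is not adjacent to `u'`),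
so `bk u' = {cl v}` does not contain `a`, and at least one neighbour of `u'` has time at most that of
`u'`. `a ∈ bk u'` also implies the latter. So `P(a ∈ bk u') + P(F) ≤ φ (k-1) 1 + (D+1)^2/(4R')`
(`Pr_add_le`, `rank_nbr`).
-/

namespace Pool.Agent.Helper28.EQ

open Finset

variable {V : Type} [Fintype V] [DecidableEq V] (G : SimpleGraph V) [DecidableRel G.Adj]
  {k D : ℕ} {χ : V → ℕ} (ℓ : V → Fin k → ℕ) (y : V → ℕ → ℝ)

section h5
open Classical

/-- The lower end of the time interval prescribed for the vertex `x` (in units of `R'`). -/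
noncomputable def h5pos (u v u' x : V) : ℕ := if x = u then 0 else if x = v then 1 else
  if x = u' then 2 else 3

/-- The local event at the vertex `x`. -/
def h5ev (R' : ℕ) (u v u' : V) (ju : Fin k) (x : V) (a : Om (4 * R') k) : Prop :=
  h5pos u v u' x * R' ≤ (a.1 : ℕ) ∧ (a.1 : ℕ) < (h5pos u v u' x + 1) * R' ∧
    (x = u → a.2 univ = ju)

theorem h5_card_time (R' c : ℕ) (hc : c ≤ 3) :
    (univ.filter fun t : Fin (4 * R') => c * R' ≤ (t : ℕ) ∧ (t : ℕ) < (c + 1) * R').card = R' := by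
  have h1 : (univ.filter fun t : Fin (4 * R') => c * R' ≤ (t : ℕ) ∧ (t : ℕ) < (c + 1) * R').map
      Fin.valEmbedding = Finset.Ico (c * R') ((c + 1) * R') := by
    ext x
    simp only [Finset.mem_map, Finset.mem_filter, Finset.mem_univ, true_and, Fin.valEmbedding_apply,
      Finset.mem_Ico]
    constructor
    · rintro ⟨t, ht, rfl⟩; exact ht
    · intro hx
      refine ⟨⟨x, ?_⟩, hx, rfl⟩
      have : (c + 1) * R' ≤ 4 * R' := Nat.mul_le_mul_right _ (by omega)
      omega
  have h2 := congrArg Finset.card h1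
  rw [Finset.card_map, Nat.card_Ico] at h2
  rw [h2, ← Nat.sub_mul]
  have : c + 1 - c = 1 := by omega
  rw [this, one_mul]

theorem h5_local (R' : ℕ) (hR : 0 < R') (hk : 0 < k) (hy : ∀ v c, 0 < y v c)
    (u v u' : V) (ju : Fin k) (x : V) :
    ∑ a : Om (4 * R') k, wt (4 * R') ℓ y x a * (if h5ev R' u v u' ju x a then 1 else 0)
      = 1 / 4 * (if x = u then pr (y u) (ℓ u) univ ju else 1) := by
  have hc : h5pos u v u' x ≤ 3 := by unfold h5pos; split_ifs <;> omega
  have hR0 : (0 : ℝ) < R' := by exact_mod_cast hR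
  have h1 : ∀ a : Om (4 * R') k, wt (4 * R') ℓ y x a * (if h5ev R' u v u' ju x a then 1 else 0)
      = (1 / ((4 * R' : ℕ) : ℝ) * (if h5pos u v u' x * R' ≤ (a.1 : ℕ) ∧
          (a.1 : ℕ) < (h5pos u v u' x + 1) * R' then 1 else 0)) *
        (wch ℓ y x a.2 * (if x = u → a.2 univ = ju then 1 else 0)) := by
    intro a
    unfold wt h5ev
    by_cases p : h5pos u v u' x * R' ≤ (a.1 : ℕ) ∧ (a.1 : ℕ) < (h5pos u v u' x + 1) * R'
    · by_cases q : x = u → a.2 univ = ju
      · rw [if_pos ⟨p.1, p.2, q⟩, if_pos p, if_pos q]; ring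
      · rw [if_neg (fun h => q h.2.2), if_pos p, if_neg q]; ring
    · rw [if_neg (fun h => p ⟨h.1, h.2.1⟩), if_neg p]; ring
  rw [Finset.sum_congr rfl (fun a _ => h1 a)]
  have h5 : ∑ a : Om (4 * R') k, (1 / ((4 * R' : ℕ) : ℝ) * (if h5pos u v u' x * R' ≤ (a.1 : ℕ) ∧
          (a.1 : ℕ) < (h5pos u v u' x + 1) * R' then 1 else 0)) *
        (wch ℓ y x a.2 * (if x = u → a.2 univ = ju then 1 else 0)) =
      (∑ t : Fin (4 * R'), 1 / ((4 * R' : ℕ) : ℝ) * (if h5pos u v u' x * R' ≤ (t : ℕ) ∧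
          (t : ℕ) < (h5pos u v u' x + 1) * R' then 1 else 0)) *
        ∑ s : Finset (Fin k) → Fin k,
          (wch ℓ y x s * (if x = u → s univ = ju then 1 else 0)) := by
    rw [Finset.sum_mul_sum]
    exact Fintype.sum_prod_type _
  rw [h5, ← Finset.mul_sum, Finset.sum_boole, h5_card_time R' _ hc]
  have h2 : (1 / ((4 * R' : ℕ) : ℝ) * (R' : ℝ)) = 1 / 4 := by
    push_cast; field_simp
  rw [h2]
  congr 1
  by_cases hx : x = u
  · subst hx
    rw [if_pos rfl]
    have h3 := sum_wch ℓ y hk hy x univ (fun j => if j = ju then (1 : ℝ) else 0)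
    have h4 : ∑ s : Finset (Fin k) → Fin k, wch ℓ y x s * (if x = x → s univ = ju then 1 else 0)
        = ∑ s : Finset (Fin k) → Fin k, wch ℓ y x s * (if s univ = ju then (1 : ℝ) else 0) := by
      refine Finset.sum_congr rfl fun s _ => ?_
      simp
    rw [h4, h3]
    simp
  · rw [if_neg hx]
    have h3 := sum_wch ℓ y hk hy x univ (fun _ => (1 : ℝ))
    have h4 : ∑ s : Finset (Fin k) → Fin k, wch ℓ y x s * (if x = u → s univ = ju then 1 else 0)
        = ∑ s : Finset (Fin k) → Fin k, wch ℓ y x s * (1 : ℝ) := by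
      refine Finset.sum_congr rfl fun s _ => ?_
      rw [if_pos (fun h => absurd h hx)]
    rw [h4, h3]
    simp only [mul_one]
    exact sum_pr hk (hy x) (ℓ x) univ

theorem h5_prF (R' : ℕ) (hR : 0 < R') (hk : 0 < k) (hkD : k ≤ D + 1) (hy : ∀ v c, 0 < y v c)
    (u v u' : V) (ju : Fin k) (hj : 1 / (k : ℝ) ≤ pr (y u) (ℓ u) univ ju) (S : Finset V)
    (hS : S.card ≤ (D + 1) ^ 2) :
    δ4 k D ≤ Pr (wt (4 * R') ℓ y) (fun ω : V → Om (4 * R') k =>
      ∀ x ∈ S, h5ev R' u v u' ju x (ω x)) := by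
  have hW : IsW (wt (V := V) (4 * R') ℓ y) := isW_wt ℓ y (by omega) hk hy
  have e : (fun ω : V → Om (4 * R') k =>
      (if ∀ x ∈ S, h5ev R' u v u' ju x (ω x) then (1 : ℝ) else 0)) =
      fun ω => ∏ x ∈ S, (if h5ev R' u v u' ju x (ω x) then (1 : ℝ) else 0) := by
    funext ω
    rw [Finset.prod_ite_zero]
    simp
  have hE : Pr (wt (4 * R') ℓ y) (fun ω : V → Om (4 * R') k =>
      ∀ x ∈ S, h5ev R' u v u' ju x (ω x)) = Ex (wt (4 * R') ℓ y)
      (fun ω : V → Om (4 * R') k =>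
        (if ∀ x ∈ S, h5ev R' u v u' ju x (ω x) then (1 : ℝ) else 0)) := by
    unfold Pr; congr 1; funext ω
    by_cases h : ∀ x ∈ S, h5ev R' u v u' ju x (ω x)
    · rw [if_pos h, if_pos h]
    · rw [if_neg h, if_neg h]
  rw [hE, e, Ex_prod hW S (fun x a => if h5ev R' u v u' ju x a then (1 : ℝ) else 0)]
  rw [Finset.prod_congr rfl (fun x _ => h5_local ℓ y R' hR hk hy u v u' ju x)]
  rw [Finset.prod_mul_distrib, Finset.prod_const]
  have hk0 : (0 : ℝ) < k := by exact_mod_cast hk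
  have hk1 : 1 / (k : ℝ) ≤ 1 := by
    rw [div_le_one hk0]; exact_mod_cast hk
  have h1 : 1 / (k : ℝ) ≤ ∏ x ∈ S, (if x = u then pr (y u) (ℓ u) univ ju else 1) := by
    rw [Finset.prod_ite_eq']
    split_ifs
    · exact hj
    · exact hk1
  have h2 : ((1 : ℝ) / 4) ^ ((D + 1) ^ 2) ≤ (1 / 4) ^ S.card :=
    pow_le_pow_of_le_one (by norm_num) (by norm_num) hS
  have h3 : (1 / ((k : ℝ) + 1)) ^ (k + 2) ≤ 1 / (k : ℝ) := by
    have h4 : (1 / ((k : ℝ) + 1)) ^ (k + 2) ≤ (1 / ((k : ℝ) + 1)) ^ 1 :=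
      pow_le_pow_of_le_one (by positivity) (by rw [div_le_one (by positivity)]; linarith) (by omega)
    rw [pow_one] at h4
    refine h4.trans ?_
    exact one_div_le_one_div_of_le hk0 (by linarith)
  unfold δ4
  exact mul_le_mul h2 (h3.trans h1) (by positivity) (by positivity)

end h5

theorem slackB (hG : Good G k D) (hχ : Chi G D χ) (R' : ℕ) (hR : 0 < R')
    (hinj : ∀ v, Function.Injective (ℓ v)) (hy : ∀ v c, 0 < y v c)
    (u v u' : V) (huv : G.Adj u v) (hvu : G.Adj v u') (hne : u ≠ u') (hnadj : ¬ G.Adj u u')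
    (hu : G.degree u + 1 = k) (hv : G.degree v + 1 = k) (hu' : G.degree u' + 1 = k) (ju : Fin k)
    (hj : 1 / (k : ℝ) ≤ pr (y u) (ℓ u) univ ju) :
    Pr (wt (4 * R') ℓ y) (fun ω : V → Om (4 * R') k => {ℓ u ju} ⊆ bk G D χ ℓ ω u')
      ≤ 1 - 1 / (k : ℝ) + ((D : ℝ) + 1) ^ 2 / (4 * R') - δ4 k D := by
  have hk : 0 < k := by omega
  have hkD : k ≤ D + 1 := by have := hG.hD u; omega
  have huv' : u ≠ v := huv.ne
  have hvu' : v ≠ u' := hvu.ne
  set S : Finset V := G.neighborFinset u ∪ G.neighborFinset v ∪ G.neighborFinset u' with hS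
  have hScard : S.card ≤ (D + 1) ^ 2 := by
    have h1 : S.card ≤ G.degree u + G.degree v + G.degree u' := by
      rw [hS]
      refine (card_union_le _ _).trans ?_
      have := card_union_le (G.neighborFinset u) (G.neighborFinset v)
      simp only [SimpleGraph.card_neighborFinset_eq_degree] at this ⊢
      omega
    have h2 := hG.hD u
    have h3 := hG.hD v
    have h4 := hG.hD u'
    nlinarith [sq_nonneg ((D : ℤ) - 1)]
  have huS : u ∈ S := by
    rw [hS]; simp only [mem_union, SimpleGraph.mem_neighborFinset]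
    exact Or.inl (Or.inr huv.symm)
  have hvS : v ∈ S := by
    rw [hS]; simp only [mem_union, SimpleGraph.mem_neighborFinset]
    exact Or.inl (Or.inl huv)
  have hu'S : u' ∈ S := by
    rw [hS]; simp only [mem_union, SimpleGraph.mem_neighborFinset]
    exact Or.inl (Or.inr hvu)
  have hW : IsW (wt (V := V) (4 * R') ℓ y) := isW_wt ℓ y (by omega) hk hy
  have hF := h5_prF ℓ y R' hR hk hkD hy u v u' ju hj S hScard
  have hdu : G.degree u < k := by omega
  have hdv : G.degree v < k := by omega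
  have hdu' : G.degree u' < k := by omega
  have hnbr : ∀ x z : V, G.degree z + 1 = k → G.Adj x z → G.degree x < k := by
    intro x z hz hxz
    by_contra h
    push Not at h
    have := hG.hO x z hxz h
    omega
  have hpu : h5pos u v u' u = 0 := by unfold h5pos; rw [if_pos rfl]
  have hpv : h5pos u v u' v = 1 := by
    unfold h5pos; rw [if_neg huv'.symm, if_pos rfl]
  have hpu' : h5pos u v u' u' = 2 := by
    unfold h5pos; rw [if_neg hne.symm, if_neg hvu'.symm, if_pos rfl]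
  have hpx : ∀ x, x ≠ u → 1 ≤ h5pos u v u' x := by
    intro x hx; unfold h5pos; rw [if_neg hx]; split_ifs <;> omega
  have hpx3 : ∀ x, x ≠ u → x ≠ v → x ≠ u' → h5pos u v u' x = 3 := by
    intro x h1 h2 h3; unfold h5pos; rw [if_neg h1, if_neg h2, if_neg h3]
  have hmain := Pr_add_le hW
    (P := fun ω : V → Om (4 * R') k => {ℓ u ju} ⊆ bk G D χ ℓ ω u')
    (Q := fun ω : V → Om (4 * R') k => ∀ x ∈ S, h5ev R' u v u' ju x (ω x))
    (S := fun ω : V → Om (4 * R') k =>
      1 ≤ ((G.neighborFinset u').filter fun x => (ω x).1 ≤ (ω u').1).card) ?_ ?_ ?_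
  · have hrk := rank_nbr G ℓ y hG.hD (R := 4 * R') (by omega) hk hy u' 1
    have hφ : φ (G.degree u') 1 = 1 - 1 / (k : ℝ) := by
      unfold φ
      have hk0 : (0 : ℝ) < k := by exact_mod_cast hk
      have h1 : ((G.degree u' : ℝ) + 1) = k := by exact_mod_cast hu'
      rw [h1, Nat.cast_one, max_eq_right]
      have : 1 / (k : ℝ) ≤ 1 := by
        rw [div_le_one hk0]; exact_mod_cast hk
      linarith
    rw [hφ] at hrk
    push_cast at hrk
    linarith
  · -- disjoint
    intro ω hP hQ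
    have hmem : ℓ u ju ∈ bk G D χ ℓ ω u' := hP (mem_singleton_self _)
    obtain ⟨qu1, qu2, qu3⟩ := hQ u huS
    obtain ⟨qv1, qv2, -⟩ := hQ v hvS
    obtain ⟨qw1, qw2, -⟩ := hQ u' hu'S
    rw [hpu] at qu1 qu2
    rw [hpv] at qv1 qv2
    rw [hpu'] at qw1 qw2
    -- colour of u
    have hcu : cl G D χ ℓ ω u = ℓ u ju := by
      have hav : av G D χ ℓ ω u = univ := by
        ext j
        rw [mem_av]
        simp only [mem_univ, iff_true]
        intro hj'
        rw [mem_bk] at hj'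
        obtain ⟨x, hx1, hx2, -⟩ := hj'
        have hxS : x ∈ S := by
          rw [hS]; simp only [mem_union, SimpleGraph.mem_neighborFinset]
          exact Or.inl (Or.inl hx1.symm)
        obtain ⟨qx1, -, -⟩ := hQ x hxS
        have h1 := hpx x hx1.ne
        have h2 : R' ≤ h5pos u v u' x * R' := Nat.le_mul_of_pos_left _ h1
        have h3 := stg_lt G (χ := χ) (D := D) (ω := ω) hdu (hnbr x u hu hx1)
          (by rw [Fin.lt_def]; omega) hχ.hle
        omega
      rw [cl_eq, hav, pick_eq _ (mem_univ _), qu3 rfl]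
    rw [mem_bk] at hmem
    obtain ⟨x, hx1, hx2, hx3⟩ := hmem
    have hxu : x ≠ u := by
      rintro rfl; exact hnadj hx1
    have hxv : x ≠ v := by
      rintro rfl
      exact cl_proper G ℓ hG hχ hinj ω huv (hcu.trans hx3.symm)
    have hxS : x ∈ S := by
      rw [hS]; simp only [mem_union, SimpleGraph.mem_neighborFinset]
      exact Or.inr hx1.symm
    obtain ⟨qx1, -, -⟩ := hQ x hxS
    rw [hpx3 x hxu hxv hx1.ne] at qx1
    have h3 := stg_lt G (χ := χ) (D := D) (ω := ω) hdu' (hnbr x u' hu' hx1)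
      (by rw [Fin.lt_def]; omega) hχ.hle
    omega
  · -- P implies S
    intro ω hP
    have hmem : ℓ u ju ∈ bk G D χ ℓ ω u' := hP (mem_singleton_self _)
    rw [mem_bk] at hmem
    obtain ⟨x, hx1, hx2, -⟩ := hmem
    have h1 := le_of_stg_lt G (χ := χ) (D := D) (hnbr x u' hu' hx1) hdu' hx2 hχ.hle
    exact card_pos.2 ⟨x, mem_filter.2 ⟨by rw [SimpleGraph.mem_neighborFinset]; exact hx1.symm, h1⟩⟩
  · -- Q implies S
    intro ω hQ
    obtain ⟨qv1, qv2, -⟩ := hQ v hvS
    obtain ⟨qw1, qw2, -⟩ := hQ u' hu'S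
    rw [hpv] at qv1 qv2
    rw [hpu'] at qw1 qw2
    refine card_pos.2 ⟨v, mem_filter.2 ⟨by rw [SimpleGraph.mem_neighborFinset]; exact hvu.symm, ?_⟩⟩
    rw [Fin.le_def]; omega

end Pool.Agent.Helper28.EQ
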