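import Pool.Agent.Helper28.EQ.SlackA
import Pool.Agent.Helper28.EQ.SlackB

/-!
# Block EQ-SC: every regular neighbourhood contains a vertex with slack

PROOF. `|Ls ℓ w \ E| = k - |E| =: s ≥ 1` for `w ∈ N[v]`. (1) If some `y ∈ N[v]` has degree `≤ k - 2`:
`key_le` and `φ d s = (1 - s/(d+1))_+ ≤ |E|/k - δ4` for `d + 1 ≤ k - 1` (difference at least
`1/k^2 ≥ δ4`). This is the case if `v` has degree `≤ k - 2` or `≥ k` (then it has a neighbour, of degree
`≤ k - 2` by `hO`). (2) So `v` and all its neighbours have degree `k - 1`. Let `top w` be the colour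
of `Ls ℓ w` with the largest `y0`, ties: the smallest colour; it is not in `E` for `w ∈ N[v]`, and
`pr univ ≥ 1/k` for its position. Take `u ≠ u'` in `N(v)` not adjacent (`hK`).
(a) `top u ∉ Ls ℓ v \ E`: `slackA` with `Z = {u}`, `T = Ls ℓ v \ E`. (b) `top v ∉ Ls ℓ u \ E`: `slackA` at
`u` with `Z = {v}`, `T = Ls ℓ u \ E`. The same for `u'`. (c) Otherwise `top u = top v = top u'` (each is
in the list of the other). If `s ≥ 2`: `slackA` with `Z = {u, u'}`, `T = Ls ℓ v \ E`. If `s = 1`:
`Ls ℓ u' \ E = {top u'} = {top u}`, `slackB`.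
-/

namespace Pool.Agent.Helper28.EQ

open Finset

variable {V : Type} [Fintype V] [DecidableEq V] (G : SimpleGraph V) [DecidableRel G.Adj]
  {k D : ℕ} {χ : V → ℕ} (ℓ : V → Fin k → ℕ)

/-- A position of the list with the largest weight, ties: the smallest colour. -/
theorem sc_top (hk : 2 ≤ k) (y0 : ℕ → ℝ) (w : V) : ∃ j : Fin k,
    (∀ i, y0 (ℓ w i) ≤ y0 (ℓ w j)) ∧ ∀ i, y0 (ℓ w i) = y0 (ℓ w j) → ℓ w j ≤ ℓ w i := by
  have hne : (univ : Finset (Fin k)).Nonempty := ⟨⟨0, by omega⟩, mem_univ _⟩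
  obtain ⟨m, _, hm⟩ := exists_max_image univ (fun i => y0 (ℓ w i)) hne
  have hne' : (univ.filter fun i => y0 (ℓ w i) = y0 (ℓ w m)).Nonempty := ⟨m, by simp⟩
  obtain ⟨j, hj, hj'⟩ := exists_min_image _ (fun i => ℓ w i) hne'
  rw [mem_filter] at hj
  refine ⟨j, ?_, ?_⟩
  · intro i
    rw [hj.2]
    exact hm i (mem_univ _)
  · intro i hi
    refine hj' i ?_
    rw [mem_filter]
    exact ⟨mem_univ _, hi.trans hj.2⟩

theorem sc_pr (hk : 2 ≤ k) (y0 : ℕ → ℝ) (hy0 : ∀ c, 0 < y0 c) (w : V) {j : Fin k}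
    (hj : ∀ i, y0 (ℓ w i) ≤ y0 (ℓ w j)) : 1 / (k : ℝ) ≤ pr y0 (ℓ w) univ j := by
  have hne : (univ : Finset (Fin k)).Nonempty := ⟨⟨0, by omega⟩, mem_univ _⟩
  unfold pr
  rw [if_pos hne, if_pos (mem_univ _)]
  have hsum : 0 < ∑ i, y0 (ℓ w i) := sum_pos (fun i _ => hy0 _) hne
  have hle : ∑ i, y0 (ℓ w i) ≤ k * y0 (ℓ w j) := by
    calc ∑ i, y0 (ℓ w i) ≤ ∑ _i : Fin k, y0 (ℓ w j) := sum_le_sum fun i _ => hj i
      _ = k * y0 (ℓ w j) := by simp
  have hk0 : (0 : ℝ) < k := by
    have : 0 < k := by omega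
    exact_mod_cast this
  rw [div_le_div_iff₀ hk0 hsum]
  linarith

theorem slackC (hG : Good G k D) (hχ : Chi G D χ) (R' : ℕ) (hR : 0 < R') (hk : 2 ≤ k)
    (hinj : ∀ v, Function.Injective (ℓ v)) (y0 : ℕ → ℝ) (hy0 : ∀ c, 0 < y0 c) (E : Finset ℕ)
    (hE1 : E.Nonempty) (hE2 : E.card + 1 ≤ k) (hEy : ∀ c ∈ E, ∀ c', c' ∉ E → y0 c < y0 c')
    (v : V) (hreg : ∀ w ∈ insert v (G.neighborFinset v), E ⊆ Ls ℓ w) :
    ∃ x ∈ insert v (G.neighborFinset v), G.degree x < k ∧
      Pr (wt (4 * R') ℓ (ys G k y0))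
          (fun ω : V → Om (4 * R') k => Ls ℓ x \ E ⊆ bk G D χ ℓ ω x)
        ≤ (E.card : ℝ) / k + ((D : ℝ) + 1) ^ 2 / (4 * R') - δ4 k D := by
  have hkN : 0 < k := by omega
  have hk0 : (0 : ℝ) < k := by exact_mod_cast hkN
  have hE1' : 1 ≤ E.card := card_pos.2 hE1
  have hys : ∀ v c, 0 < ys G k y0 v c := by
    intro v c; unfold ys; split_ifs
    · norm_num
    · exact hy0 c
  have hysy : ∀ w, G.degree w < k → ys G k y0 w = y0 := by
    intro w hw; unfold ys; rw [if_neg (by omega)]
  have hcardL : ∀ w, (Ls ℓ w).card = k := by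
    intro w; unfold Ls
    rw [card_image_of_injective _ (hinj w), card_univ, Fintype.card_fin]
  have hcardT : ∀ w ∈ insert v (G.neighborFinset v), (Ls ℓ w \ E).card = k - E.card := by
    intro w hw
    rw [card_sdiff_of_subset (hreg w hw), hcardL]
  set s := k - E.card with hs
  have hs1 : 1 ≤ s := by omega
  have hsk : (s : ℝ) = k - E.card := by
    rw [hs, Nat.cast_sub (by omega)]
  have hEk : (E.card : ℝ) / k = 1 - (s : ℝ) / k := by
    rw [hsk]; field_simp; ring
  -- bounds for `δ4`
  have hδ : δ4 k D ≤ 1 / ((k : ℝ) + 1) ^ 2 := by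
    unfold δ4
    have h1 : ((1 : ℝ) / 4) ^ ((D + 1) ^ 2) ≤ 1 := pow_le_one₀ (by norm_num) (by norm_num)
    have h2 : (1 / ((k : ℝ) + 1)) ^ (k + 2) ≤ (1 / ((k : ℝ) + 1)) ^ 2 := by
      apply pow_le_pow_of_le_one (by positivity) _ (by omega)
      rw [div_le_one (by positivity)]
      linarith
    calc ((1 : ℝ) / 4) ^ ((D + 1) ^ 2) * (1 / ((k : ℝ) + 1)) ^ (k + 2)
        ≤ 1 * (1 / ((k : ℝ) + 1)) ^ 2 := by gcongr
      _ = 1 / ((k : ℝ) + 1) ^ 2 := by rw [one_mul, div_pow, one_pow]
  have hcast : ((4 * R' : ℕ) : ℝ) = 4 * (R' : ℝ) := by push_cast; ring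
  by_cases h1 : ∃ w ∈ insert v (G.neighborFinset v), G.degree w + 2 ≤ k
  · -- a vertex of small degree
    obtain ⟨w, hw, hdw⟩ := h1
    refine ⟨w, hw, by omega, ?_⟩
    have h2 := key_le G (R := 4 * R') (χ := χ) ℓ (ys G k y0) hG.hD hχ.hle (by omega) hinj hys
      (fun u hu c => by unfold ys; rw [if_pos hu]) w (by omega) (Ls ℓ w \ E)
    rw [hcardT w hw, hcast] at h2
    refine h2.trans ?_
    have h3 : φ (G.degree w) s ≤ (E.card : ℝ) / k - δ4 k D := by
      unfold φ
      apply max_le
      · have h4 : 1 / (k : ℝ) ≤ (E.card : ℝ) / k := by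
          gcongr
          exact_mod_cast hE1'
        have h5 : 1 / ((k : ℝ) + 1) ^ 2 ≤ 1 / k := by
          apply one_div_le_one_div_of_le hk0
          nlinarith
        linarith
      · have hd1 : ((G.degree w : ℕ) : ℝ) + 1 ≤ k - 1 := by
          have : G.degree w + 2 ≤ k := hdw
          have h6 : ((G.degree w + 2 : ℕ) : ℝ) ≤ (k : ℝ) := by exact_mod_cast this
          push_cast at h6
          linarith
        have hd0 : (0 : ℝ) < ((G.degree w : ℕ) : ℝ) + 1 := by positivity
        have hk1 : (0 : ℝ) < (k : ℝ) - 1 := by linarith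
        have h4 : (s : ℝ) / (k - 1) ≤ (s : ℝ) / (((G.degree w : ℕ) : ℝ) + 1) := by gcongr
        have hs1' : (1 : ℝ) ≤ s := by exact_mod_cast hs1
        have h5 : 1 / ((k : ℝ) + 1) ^ 2 ≤ (s : ℝ) / (k - 1) - (s : ℝ) / k := by
          have e : (s : ℝ) / (k - 1) - (s : ℝ) / k = s / ((k - 1) * k) := by
            field_simp; ring
          rw [e]
          calc 1 / ((k : ℝ) + 1) ^ 2 ≤ 1 / ((k - 1) * k) := by
                apply one_div_le_one_div_of_le (by positivity)
                nlinarith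
            _ ≤ s / ((k - 1) * k) := by gcongr
        rw [hEk]
        linarith
    linarith
  · push Not at h1
    -- all degrees are `k - 1`
    have hdeg : ∀ w ∈ insert v (G.neighborFinset v), G.degree w + 1 = k := by
      intro w hw
      have h2 := h1 w hw
      by_contra hne
      have h3 : k ≤ G.degree w := by omega
      rw [mem_insert] at hw
      rcases hw with rfl | hw
      · have h4 : 0 < G.degree w := by omega
        obtain ⟨u, hu⟩ := (G.degree_pos_iff_exists_adj w).1 h4
        have h5 := hG.hO w u hu h3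
        have h6 := h1 u (mem_insert_of_mem ((G.mem_neighborFinset w u).2 hu))
        omega
      · rw [G.mem_neighborFinset] at hw
        have h5 := hG.hO w v hw.symm h3
        have h6 := h1 v (mem_insert_self _ _)
        omega
    have hv := hdeg v (mem_insert_self _ _)
    have hadj : ∀ w, G.Adj v w → w ∈ insert v (G.neighborFinset v) := fun w hw =>
      mem_insert_of_mem ((G.mem_neighborFinset v w).2 hw)
    obtain ⟨u, u', hu, hu', hne, hnadj⟩ := hG.hK v hv (fun w hw => hdeg w (hadj w hw))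
    have hdu := hdeg u (hadj u hu)
    have hdu' := hdeg u' (hadj u' hu')
    choose jt hjt1 hjt2 using fun w => sc_top ℓ hk y0 w
    have htopL : ∀ w, ℓ w (jt w) ∈ Ls ℓ w := fun w => mem_image_of_mem _ (mem_univ _)
    have hmaxL : ∀ w, ∀ c ∈ Ls ℓ w, y0 c ≤ y0 (ℓ w (jt w)) := by
      intro w c hc
      obtain ⟨i, _, rfl⟩ := mem_image.1 hc
      exact hjt1 w i
    have hminL : ∀ w, ∀ c ∈ Ls ℓ w, y0 c = y0 (ℓ w (jt w)) → ℓ w (jt w) ≤ c := by
      intro w c hc
      obtain ⟨i, _, rfl⟩ := mem_image.1 hc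
      exact hjt2 w i
    have htopE : ∀ w ∈ insert v (G.neighborFinset v), ℓ w (jt w) ∉ E := by
      intro w hw hE
      have h2 : 0 < (Ls ℓ w \ E).card := by rw [hcardT w hw]; omega
      obtain ⟨c, hc⟩ := card_pos.1 h2
      rw [mem_sdiff] at hc
      have h3 := hEy _ hE c hc.2
      have h4 := hmaxL w c hc.1
      linarith
    have hprw : ∀ w, G.degree w + 1 = k → 1 / (k : ℝ) ≤ pr (ys G k y0 w) (ℓ w) univ (jt w) := by
      intro w hw
      rw [hysy w (by omega)]
      exact sc_pr ℓ hk y0 hy0 w (hjt1 w)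
    -- one neighbour whose top colour differs
    have stepA : ∀ x ∈ insert v (G.neighborFinset v), ∀ z ∈ insert v (G.neighborFinset v),
        G.Adj x z → ℓ z (jt z) ∉ Ls ℓ x \ E →
        Pr (wt (4 * R') ℓ (ys G k y0))
          (fun ω : V → Om (4 * R') k => Ls ℓ x \ E ⊆ bk G D χ ℓ ω x)
        ≤ (E.card : ℝ) / k + ((D : ℝ) + 1) ^ 2 / (4 * R') - δ4 k D := by
      intro x hx z hz hxz hnot
      have h2 := slackA G ℓ (ys G k y0) hG hχ R' hR hinj hys x (hdeg x hx) {z}
        (by rw [singleton_subset_iff, G.mem_neighborFinset]; exact hxz)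
        (by intro z' hz'; rw [mem_singleton] at hz'; subst hz'; exact hdeg _ hz)
        (by
          intro a ha b hb
          rw [mem_singleton] at ha hb
          subst ha; subst hb
          exact G.irrefl)
        (Ls ℓ x \ E) (by rw [card_singleton, hcardT x hx]; exact hs1)
        (by rw [hcardT x hx]; omega) jt
        (by intro z' hz'; rw [mem_singleton] at hz'; subst hz'; exact hprw _ (hdeg _ hz))
        (by
          rw [image_singleton, singleton_inter_of_notMem hnot, card_empty, card_singleton]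
          exact one_pos)
      rw [hcardT x hx, ← hEk] at h2
      exact h2
    have hvin : v ∈ insert v (G.neighborFinset v) := mem_insert_self _ _
    by_cases ha : ℓ u (jt u) ∈ Ls ℓ v \ E
    swap
    · exact ⟨v, hvin, by omega, stepA v hvin u (hadj u hu) hu ha⟩
    by_cases ha' : ℓ u' (jt u') ∈ Ls ℓ v \ E
    swap
    · exact ⟨v, hvin, by omega, stepA v hvin u' (hadj u' hu') hu' ha'⟩
    by_cases hb : ℓ v (jt v) ∈ Ls ℓ u \ E
    swap
    · exact ⟨u, hadj u hu, by omega, stepA u (hadj u hu) v hvin hu.symm hb⟩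
    by_cases hb' : ℓ v (jt v) ∈ Ls ℓ u' \ E
    swap
    · exact ⟨u', hadj u' hu', by omega, stepA u' (hadj u' hu') v hvin hu'.symm hb'⟩
    rw [mem_sdiff] at ha ha' hb hb'
    have heq : ∀ x, ℓ x (jt x) ∈ Ls ℓ v → ℓ v (jt v) ∈ Ls ℓ x → ℓ x (jt x) = ℓ v (jt v) := by
      intro x h2 h3
      have h4 := hmaxL v _ h2
      have h5 := hmaxL x _ h3
      have h6 : y0 (ℓ x (jt x)) = y0 (ℓ v (jt v)) := le_antisymm h4 h5
      exact le_antisymm (hminL x _ h3 h6.symm) (hminL v _ h2 h6)
    have e1 := heq u ha.1 hb.1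
    have e2 := heq u' ha'.1 hb'.1
    rcases Nat.lt_or_ge s 2 with hs2 | hs2
    · -- `s = 1`
      have hs1' : s = 1 := by omega
      refine ⟨u', hadj u' hu', by omega, ?_⟩
      have h2 := slackB G ℓ (ys G k y0) hG hχ R' hR hinj hys u v u' hu.symm hu' hne hnadj hdu hv hdu'
        (jt u) (hprw u hdu)
      have h3 : Ls ℓ u' \ E = {ℓ u (jt u)} := by
        have h4 : (Ls ℓ u' \ E).card = 1 := by rw [hcardT u' (hadj u' hu'), hs1']
        obtain ⟨c, hc⟩ := card_eq_one.1 h4
        have h5 : ℓ u' (jt u') ∈ Ls ℓ u' \ E :=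
          mem_sdiff.2 ⟨htopL u', htopE u' (hadj u' hu')⟩
        rw [hc, mem_singleton] at h5
        rw [hc, ← h5, e2, e1]
      rw [h3, hEk, hs1']
      push_cast
      exact h2
    · refine ⟨v, hvin, by omega, ?_⟩
      have hZc : ({u, u'} : Finset V).card = 2 := card_pair hne
      have h2 := slackA G ℓ (ys G k y0) hG hχ R' hR hinj hys v hv {u, u'}
        (by
          intro z hz
          rw [mem_insert, mem_singleton] at hz
          rw [G.mem_neighborFinset]
          rcases hz with rfl | rfl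
          · exact hu
          · exact hu')
        (by
          intro z hz
          rw [mem_insert, mem_singleton] at hz
          rcases hz with rfl | rfl
          · exact hdu
          · exact hdu')
        (by
          intro z hz z' hz'
          rw [mem_insert, mem_singleton] at hz hz'
          rcases hz with rfl | rfl <;> rcases hz' with rfl | rfl
          · exact G.irrefl
          · exact hnadj
          · exact fun h => hnadj h.symm
          · exact G.irrefl)
        (Ls ℓ v \ E) (by rw [hZc, hcardT v hvin]; exact hs2) (by rw [hcardT v hvin]; omega) jt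
        (by
          intro z hz
          rw [mem_insert, mem_singleton] at hz
          rcases hz with rfl | rfl
          · exact hprw _ hdu
          · exact hprw _ hdu')
        (by
          rw [hZc]
          have h4 : ({u, u'} : Finset V).image (fun z => ℓ z (jt z)) ⊆ {ℓ v (jt v)} := by
            intro c hc
            obtain ⟨z, hz, rfl⟩ := mem_image.1 hc
            rw [mem_insert, mem_singleton] at hz
            rw [mem_singleton]
            rcases hz with rfl | rfl
            · exact e1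
            · exact e2
          calc _ ≤ (({u, u'} : Finset V).image (fun z => ℓ z (jt z))).card :=
                card_le_card inter_subset_left
            _ ≤ ({ℓ v (jt v)} : Finset ℕ).card := card_le_card h4
            _ < 2 := by rw [card_singleton]; norm_num)
      rw [hcardT v hvin, ← hEk] at h2
      exact h2

end Pool.Agent.Helper28.EQ
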