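import Pool.Agent.Helper28.EQ.Upper
import Pool.Agent.Helper28.EQ.SlackC

/-!
# Block EQ-EB: expected number of vertices with an expensive colour

PROOF. `∑ c ∈ E, ExX c = ∑ v, Pr (cl v ∈ E)` (`Pr_sum`, exchange of sums). For `v` big this is
`|Ls ∩ E|/k` (`Pr_E_big`), for `v` not big it is
`≤ Pr (Ls \ E ⊆ bk v) + k κ ≤ φ (d v) |Ls \ E| + (D+1)^2/(4R') + k κ` (`Pr_E_le`, `key_le`) and
`φ d i ≤ 1 - i/k` for `d + 1 ≤ k`, `i ≤ k`, `|Ls \ E| = k - |Ls ∩ E|`. (`ebound1`.) For `ebound2` use in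
addition `slackC`: for every `v` with `E ⊆ Ls w` for all `w ∈ N[v]` there is a vertex `x ∈ N[v]` which has
the better bound; `v ↦ x` is at most `(D+1)`-to-one, and at most `(D+1) irr` vertices `v` have an
irregular vertex in `N[v]`. So at least `(n - (D+1) irr)/(D+1)` vertices have the better bound.
-/

namespace Pool.Agent.Helper28.EQ

open Finset

variable {V : Type} [Fintype V] [DecidableEq V] (G : SimpleGraph V) [DecidableRel G.Adj]
  {k D : ℕ} {χ : V → ℕ} (ℓ : V → Fin k → ℕ)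

lemma eb81_ys_pos {y0 : ℕ → ℝ} (hy0 : ∀ c, 0 < y0 c) (v : V) (c : ℕ) : 0 < ys G k y0 v c := by
  unfold ys
  split_ifs
  · exact one_pos
  · exact hy0 c

lemma eb81_ys_big {y0 : ℕ → ℝ} (v : V) (hv : k ≤ G.degree v) (c : ℕ) : ys G k y0 v c = 1 := by
  unfold ys
  rw [if_pos hv]

lemma eb81_ys_small {y0 : ℕ → ℝ} (v : V) (hv : G.degree v < k) : ys G k y0 v = y0 := by
  unfold ys
  rw [if_neg (by omega)]

lemma eb81_card_Ls (hinj : ∀ v, Function.Injective (ℓ v)) (v : V) : (Ls ℓ v).card = k := by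
  unfold Ls
  rw [card_image_of_injective _ (hinj v), card_univ, Fintype.card_fin]

lemma eb81_sum (R : ℕ) (y : V → ℕ → ℝ) (E : Finset ℕ) :
    ∑ c ∈ E, ExX G D χ R ℓ y c =
      ∑ v, Pr (wt R ℓ y) (fun ω : V → Om R k => cl G D χ ℓ ω v ∈ E) := by
  unfold ExX
  rw [sum_comm]
  refine sum_congr rfl fun v _ => ?_
  rw [Pr_sum]

lemma eb81_phi {d i : ℕ} (hd : d + 1 ≤ k) (hi : i ≤ k) : φ d i ≤ 1 - (i : ℝ) / k := by
  unfold φ
  have hk : (0 : ℝ) < k := by
    have : 0 < k := by omega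
    exact_mod_cast this
  refine max_le ?_ ?_
  · have : (i : ℝ) / k ≤ 1 := by
      rw [div_le_one hk]
      exact_mod_cast hi
    linarith
  · have h1 : (i : ℝ) / k ≤ (i : ℝ) / (d + 1) := by
      refine div_le_div_of_nonneg_left (Nat.cast_nonneg i) (by positivity) ?_
      exact_mod_cast hd
    linarith

/-- bound for one vertex -/
lemma eb81_vertex (hG : Good G k D) (hχ : Chi G D χ) (R' : ℕ) (hR : 0 < R') (hk : 2 ≤ k)
    (hinj : ∀ v, Function.Injective (ℓ v)) (y0 : ℕ → ℝ) (hy0 : ∀ c, 0 < y0 c) (E : Finset ℕ)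
    (κ : ℝ) (hκ0 : 0 ≤ κ) (hκ : ∀ c ∈ E, ∀ c', c' ∉ E → y0 c ≤ κ * y0 c') (v : V) :
    Pr (wt (4 * R') ℓ (ys G k y0)) (fun ω : V → Om (4 * R') k => cl G D χ ℓ ω v ∈ E)
      ≤ ((Ls ℓ v ∩ E).card : ℝ) / k + (((D : ℝ) + 1) ^ 2 / (4 * R') + k * κ) := by
  have hk0 : 0 < k := by omega
  have hk1 : (0 : ℝ) < k := by exact_mod_cast hk0
  have hpos : 0 ≤ ((D : ℝ) + 1) ^ 2 / (4 * R') + k * κ := by positivity
  rcases Nat.lt_or_ge (G.degree v) k with hv | hv
  · have h1 := Pr_E_le (G := G) (D := D) (χ := χ) (R := 4 * R') ℓ (ys G k y0) (by omega) hk0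
      (eb81_ys_pos G hy0) v E κ hκ0 (by
        rw [eb81_ys_small G v hv]
        exact hκ)
    have h2 := key_le (G := G) (D := D) (χ := χ) (R := 4 * R') ℓ (ys G k y0) hG.hD hχ.hle
      (by omega) hinj (eb81_ys_pos G hy0) (fun u hu c => eb81_ys_big G u hu c) v hv (Ls ℓ v \ E)
    have hc : (Ls ℓ v \ E).card + (Ls ℓ v ∩ E).card = k := by
      rw [card_sdiff_add_card_inter, eb81_card_Ls ℓ hinj]
    have h3 := eb81_phi (k := k) (d := G.degree v) (i := (Ls ℓ v \ E).card) (by omega) (by omega)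
    have h4 : 1 - ((Ls ℓ v \ E).card : ℝ) / k = ((Ls ℓ v ∩ E).card : ℝ) / k := by
      have : ((Ls ℓ v \ E).card : ℝ) + ((Ls ℓ v ∩ E).card : ℝ) = k := by exact_mod_cast hc
      rw [eq_div_iff hk1.ne', sub_mul, div_mul_cancel₀ _ hk1.ne']
      linarith
    push_cast at h2
    linarith
  · have h1 := Pr_E_big (G := G) (D := D) (χ := χ) (R := 4 * R') ℓ (ys G k y0) (by omega) hk0
      (eb81_ys_pos G hy0) hinj v hv (eb81_ys_big G v hv) E
    rw [h1]
    linarith

theorem ebound1 (hG : Good G k D) (hχ : Chi G D χ) (R' : ℕ) (hR : 0 < R') (hk : 2 ≤ k)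
    (hinj : ∀ v, Function.Injective (ℓ v)) (y0 : ℕ → ℝ) (hy0 : ∀ c, 0 < y0 c) (E : Finset ℕ)
    (κ : ℝ) (hκ0 : 0 ≤ κ) (hκ : ∀ c ∈ E, ∀ c', c' ∉ E → y0 c ≤ κ * y0 c') :
    ∑ c ∈ E, ExX G D χ (4 * R') ℓ (ys G k y0) c
      ≤ (∑ v, ((Ls ℓ v ∩ E).card : ℝ)) / k
        + Fintype.card V * (((D : ℝ) + 1) ^ 2 / (4 * R') + k * κ) := by
  rw [eb81_sum]
  refine (sum_le_sum fun v _ => eb81_vertex G ℓ hG hχ R' hR hk hinj y0 hy0 E κ hκ0 hκ v).trans ?_
  rw [sum_add_distrib, sum_const, card_univ, nsmul_eq_mul, sum_div]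

theorem ebound2 (hG : Good G k D) (hχ : Chi G D χ) (R' : ℕ) (hR : 0 < R') (hk : 2 ≤ k)
    (hinj : ∀ v, Function.Injective (ℓ v)) (y0 : ℕ → ℝ) (hy0 : ∀ c, 0 < y0 c) (E : Finset ℕ)
    (κ : ℝ) (hκ0 : 0 ≤ κ) (hκ1 : κ < 1) (hκ : ∀ c ∈ E, ∀ c', c' ∉ E → y0 c ≤ κ * y0 c')
    (hE1 : E.Nonempty) (hE2 : E.card + 1 ≤ k) :
    ∑ c ∈ E, ExX G D χ (4 * R') ℓ (ys G k y0) c
      ≤ (E.card : ℝ) * Fintype.card V / k
        + Fintype.card V * (((D : ℝ) + 1) ^ 2 / (4 * R') + k * κ)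
        - δ4 k D * ((Fintype.card V
            - ((D : ℝ) + 1) * (univ.filter fun v => ¬ E ⊆ Ls ℓ v).card) / ((D : ℝ) + 1)) := by
  classical
  have hk0 : 0 < k := by omega
  have hk1 : (0 : ℝ) < k := by exact_mod_cast hk0
  have hδ : 0 ≤ δ4 k D := by unfold δ4; positivity
  rw [eb81_sum]
  set A : V → ℝ := fun v =>
    Pr (wt (4 * R') ℓ (ys G k y0)) (fun ω : V → Om (4 * R') k => cl G D χ ℓ ω v ∈ E) with hA
  set K : ℝ := ((D : ℝ) + 1) ^ 2 / (4 * R') + k * κ with hK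
  -- general bound
  have hgen : ∀ v, A v ≤ (E.card : ℝ) / k + K := by
    intro v
    have h1 := eb81_vertex G ℓ hG hχ R' hR hk hinj y0 hy0 E κ hκ0 hκ v
    have h2 : ((Ls ℓ v ∩ E).card : ℝ) / k ≤ (E.card : ℝ) / k := by
      refine div_le_div_of_nonneg_right ?_ hk1.le
      exact_mod_cast card_le_card inter_subset_right
    simp only [hA]
    linarith
  set X : Finset V := univ.filter fun x => A x ≤ (E.card : ℝ) / k + K - δ4 k D with hX
  set J : Finset V := univ.filter fun v => ¬ E ⊆ Ls ℓ v with hJ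
  -- closed neighbourhoods
  have hNcard : ∀ v, (insert v (G.neighborFinset v)).card ≤ D + 1 := by
    intro v
    refine (card_insert_le _ _).trans ?_
    have := hG.hD v
    rw [G.card_neighborFinset_eq_degree]
    omega
  have hNsymm : ∀ {u v : V}, u ∈ insert v (G.neighborFinset v) →
      v ∈ insert u (G.neighborFinset u) := by
    intro u v h
    rw [mem_insert, SimpleGraph.mem_neighborFinset] at h ⊢
    rcases h with h | h
    · exact Or.inl h.symm
    · exact Or.inr h.symm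
  have hcover : (univ : Finset V) ⊆ (X.biUnion fun x => insert x (G.neighborFinset x)) ∪
      (J.biUnion fun x => insert x (G.neighborFinset x)) := by
    intro v _
    rw [mem_union, mem_biUnion, mem_biUnion]
    by_cases hv : ∀ w ∈ insert v (G.neighborFinset v), E ⊆ Ls ℓ w
    · left
      obtain ⟨x, hx, hdx, hPx⟩ := slackC G ℓ hG hχ R' hR hk hinj y0 hy0 E hE1 hE2
        (fun c hc c' hc' => (hκ c hc c' hc').trans_lt (by
          have := hy0 c'
          nlinarith)) v hv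
      refine ⟨x, ?_, hNsymm hx⟩
      rw [hX, mem_filter]
      refine ⟨mem_univ _, ?_⟩
      have h1 := Pr_E_le (G := G) (D := D) (χ := χ) (R := 4 * R') ℓ (ys G k y0) (by omega) hk0
        (eb81_ys_pos G hy0) x E κ hκ0 (by
          rw [eb81_ys_small G x hdx]
          exact hκ)
      simp only [hA, hK]
      linarith
    · right
      push_neg at hv
      obtain ⟨w, hw, hwE⟩ := hv
      exact ⟨w, by rw [hJ, mem_filter]; exact ⟨mem_univ _, hwE⟩, hNsymm hw⟩
  have hcount : Fintype.card V ≤ X.card * (D + 1) + J.card * (D + 1) := by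
    rw [← card_univ]
    refine (card_le_card hcover).trans ((card_union_le _ _).trans ?_)
    exact Nat.add_le_add (card_biUnion_le_card_mul _ _ _ fun x _ => hNcard x)
      (card_biUnion_le_card_mul _ _ _ fun x _ => hNcard x)
  have hcountR : ((Fintype.card V : ℝ) - ((D : ℝ) + 1) * J.card) / ((D : ℝ) + 1) ≤ X.card := by
    rw [div_le_iff₀ (by positivity)]
    have : (Fintype.card V : ℝ) ≤ X.card * (D + 1) + J.card * (D + 1) := by exact_mod_cast hcount
    linarith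
  -- the sum
  have hsum : ∑ v, A v ≤ ∑ v, ((E.card : ℝ) / k + K - if v ∈ X then δ4 k D else 0) := by
    refine sum_le_sum fun v _ => ?_
    split_ifs with hv
    · rw [hX, mem_filter] at hv
      exact hv.2
    · rw [sub_zero]
      exact hgen v
  refine hsum.trans ?_
  rw [sum_sub_distrib, sum_const, card_univ, nsmul_eq_mul, sum_ite_mem, univ_inter, sum_const,
    nsmul_eq_mul]
  have h5 := mul_le_mul_of_nonneg_left hcountR hδ
  have h6 : (Fintype.card V : ℝ) * ((E.card : ℝ) / k + K) =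
      (E.card : ℝ) * Fintype.card V / k + Fintype.card V * K := by ring
  rw [h6]
  linarith

end Pool.Agent.Helper28.EQ
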