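import Pool.Agent.Helper28.EQ.Defs
import Pool.Agent.Helper23.VS.Brouwer

/-!
# Block EQ-FX: prices by Brouwer's fixed point theorem

PROOF. Apply `Pool.Agent.Helper23.VS.brouwer_cube` to `f x c = max 0 (min 1 (x c + (m x c - τ)))`. Let `x`
be the fixed point and suppose `m x c0 > τ`. Then `x c0 = 1`. The `p` numbers `x c`, one of them equal
to 1, cannot meet all `p` open intervals `(i/p, (i+1)/p)`, `i = 0, ..., p-1`; choose `i` such that none
is in `(i/p, (i+1)/p)`, `θ = i/p`, `E = {c : x c ≥ (i+1)/p}`, `c0 ∈ E`. For `c ∈ E`: `x c > 0`, so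
`x c = min 1 (...) ≤ x c + (m x c - τ)` and `m x c ≥ τ`. The sum over `E` contradicts `H`.
-/

namespace Pool.Agent.Helper28.EQ

open Finset

theorem exists_prices (p : ℕ) (hp : 0 < p) (m : (Fin p → ℝ) → Fin p → ℝ)
    (hm : ContinuousOn m (Set.Icc 0 1)) (τ : ℝ)
    (H : ∀ x ∈ Set.Icc (0 : Fin p → ℝ) 1, ∀ E : Finset (Fin p), E.Nonempty → ∀ θ : ℝ, 0 ≤ θ →
      (∀ c ∈ E, θ + 1 / (p : ℝ) ≤ x c) → (∀ c, c ∉ E → x c ≤ θ) →
      ∑ c ∈ E, m x c < E.card * τ) :
    ∃ x ∈ Set.Icc (0 : Fin p → ℝ) 1, ∀ c, m x c ≤ τ := by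
  classical
  have hp' : (0 : ℝ) < p := by exact_mod_cast hp
  obtain ⟨x, hx, hfix⟩ := Pool.Agent.Helper23.VS.brouwer_cube p
    (fun x c => max 0 (min 1 (x c + (m x c - τ))))
    (by
      refine continuousOn_pi.mpr fun c => ?_
      have h1 : ContinuousOn (fun x : Fin p → ℝ => m x c) (Set.Icc 0 1) :=
        (continuousOn_pi.mp hm) c
      have h2 : ContinuousOn (fun x : Fin p → ℝ => x c) (Set.Icc 0 1) :=
        (continuous_apply c).continuousOn
      exact continuousOn_const.sup
        (continuousOn_const.inf (h2.add (h1.sub continuousOn_const))))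
    (by
      intro x _
      constructor
      · intro c; exact le_max_left _ _
      · intro c; exact max_le zero_le_one (min_le_left _ _))
  refine ⟨x, hx, ?_⟩
  by_contra hcon
  push Not at hcon
  obtain ⟨c0, hc0⟩ := hcon
  have hfix' : ∀ c, max 0 (min 1 (x c + (m x c - τ))) = x c := fun c => congrFun hfix c
  have hx1 : ∀ c, x c ≤ 1 := fun c => hx.2 c
  have hx0 : ∀ c, 0 ≤ x c := fun c => hx.1 c
  have h1 : x c0 = 1 := by
    by_contra hne
    have hlt : x c0 < 1 := lt_of_le_of_ne (hx1 c0) hne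
    have h2 : x c0 < min 1 (x c0 + (m x c0 - τ)) := lt_min hlt (by linarith)
    have h3 := le_max_right 0 (min 1 (x c0 + (m x c0 - τ)))
    rw [hfix'] at h3
    linarith
  have h2 : ∃ i : Fin p, ∀ c, ¬ ((i : ℝ) / p < x c ∧ x c < ((i : ℝ) + 1) / p) := by
    by_contra hall
    push Not at hall
    choose g hg1 hg2 using hall
    have hinj : Function.Injective g := by
      intro i j hij
      have a1 := hg1 i
      have a2 := hg2 i
      have b1 := hg1 j
      have b2 := hg2 j
      rw [hij] at a1 a2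
      have c1 : (i : ℝ) / p < ((j : ℝ) + 1) / p := a1.trans b2
      have c2 : (j : ℝ) / p < ((i : ℝ) + 1) / p := b1.trans a2
      rw [div_lt_div_iff_of_pos_right hp'] at c1 c2
      have d1 : (i : ℕ) < (j : ℕ) + 1 := by exact_mod_cast c1
      have d2 : (j : ℕ) < (i : ℕ) + 1 := by exact_mod_cast c2
      exact Fin.ext (by omega)
    have hsurj := Finite.injective_iff_surjective.mp hinj
    obtain ⟨i, hi⟩ := hsurj c0
    have a2 := hg2 i
    rw [hi, h1, lt_div_iff₀ hp', one_mul] at a2
    have : (p : ℕ) < (i : ℕ) + 1 := by exact_mod_cast a2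
    have := i.2
    omega
  obtain ⟨i, hi⟩ := h2
  have hi1 : ((i : ℝ) + 1) / p ≤ 1 := by
    rw [div_le_one hp']
    have : (i : ℕ) + 1 ≤ p := i.2
    exact_mod_cast this
  have hE := H x hx (univ.filter fun c => ((i : ℝ) + 1) / p ≤ x c)
    ⟨c0, by simp only [mem_filter, mem_univ, true_and]; rw [h1]; exact hi1⟩ ((i : ℝ) / p)
    (by positivity)
    (by
      intro c hc
      simp only [mem_filter, mem_univ, true_and] at hc
      rw [← add_div]
      exact hc)
    (by
      intro c hc
      simp only [mem_filter, mem_univ, true_and, not_le] at hc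
      by_contra hcc
      push Not at hcc
      exact hi c ⟨hcc, hc⟩)
  have hge : ((univ.filter fun c => ((i : ℝ) + 1) / p ≤ x c).card : ℝ) * τ ≤
      ∑ c ∈ univ.filter (fun c => ((i : ℝ) + 1) / p ≤ x c), m x c := by
    rw [← nsmul_eq_mul]
    refine Finset.card_nsmul_le_sum _ _ _ fun c hc => ?_
    simp only [mem_filter, mem_univ, true_and] at hc
    have hpos : 0 < x c := lt_of_lt_of_le (by positivity) hc
    have e1 := hfix' c
    have e2 : min 1 (x c + (m x c - τ)) = x c := by
      rcases max_choice 0 (min 1 (x c + (m x c - τ))) with h | h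
      · rw [h] at e1; linarith
      · rw [← h]; exact e1
    have e3 := min_le_right 1 (x c + (m x c - τ))
    rw [e2] at e3
    linarith
  linarith

end Pool.Agent.Helper28.EQ
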