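import Pool.Agent.Helper28.EQ.Second
import Pool.Agent.Helper28.EQ.EBound
import Pool.Agent.Helper28.EQ.Fix
import Pool.Agent.Helper28.EQ.Cont
import Pool.Agent.Helper28.EQ.Chi

/-!
# Block EQ-C2: at most `k - 1` colours are in almost all lists

PROOF. `n = |V|`, `N = (n+k-1)/k`, `n_c = |{v : c ∈ Ls ℓ v}|`, `P = {c : n_c > N}`, `p = |P| ≤ k^2`
(`∑ n_c = k n`, `n_c ≥ n/k` on `P`). If `P = ∅` any colouring of the process works. Let
`σ = min (δ1/k) (δ4 k D/(2(D+1)))`, `δ2 = σ/(4k^2)`, `R'` with `(D+1)^2/(4R') ≤ σ/4`, `lam` with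
`k exp(-lam/k^2) ≤ σ/4`. Apply `exists_prices` with `m x i = ExX .. (e i) / n` (`e` an enumeration of
`P`, weights `ys G k (prc e lam x)`, `cont_ExX`), `τ = 1/k - δ2`. Hypothesis `H`: for `E`, `θ` let
`E' = E.image e`, `κ = exp(-lam/p)`: `prc c ≤ κ prc c'` for `c ∈ E'`, `c' ∉ E'`. If `E'` contains a
colour `∉ U`: `ebound1` and `∑ v |Ls ∩ E'| = ∑_{c ∈ E'} n_c ≤ (|E| - δ1) n`. If `E' ⊆ U`: `ebound2`, the
number of irregular vertices is `≤ ∑_{c ∈ E'} (n - n_c) ≤ k δ1 n ≤ n/(2(D+1))`. In both cases the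
sum is `≤ |E| n/k + n σ/2 - n σ < |E| τ n`. So there are weights with `ExX (e i) ≤ (1/k - δ2) n`
for all `i`. `exists_dev` with `Y i v ω = 1` if `cl ω v = e i` (`cl_dep`, `nb_overlap`,
`β = (D+1)^(2ρ)`, `ρ = 4R'(D+1)`), `η = δ2 n`, needs `k^2 β < δ2^2 n`. The colouring `cl ω` has
`|{v : cl ω v = c}| ≤ n/k` for `c ∈ P` and `≤ n_c ≤ N` for `c ∉ P`.
-/

namespace Pool.Agent.Helper28.EQ

open Finset

section aux87

variable {V : Type} [Fintype V] [DecidableEq V] {k : ℕ}

omit [DecidableEq V] in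
/-- Double counting of the pairs `c ∈ Ls ℓ v`, `c ∈ E`. -/
lemma h87_sum_nc (ℓ : V → Fin k → ℕ) (E : Finset ℕ) :
    ∑ c ∈ E, ((univ.filter fun v => c ∈ Ls ℓ v).card : ℝ) = ∑ v, ((Ls ℓ v ∩ E).card : ℝ) := by
  have h1 : ∀ c, ((univ.filter fun v => c ∈ Ls ℓ v).card : ℝ)
      = ∑ v, if c ∈ Ls ℓ v then (1 : ℝ) else 0 := by
    intro c
    simp
  have h2 : ∀ v, ((Ls ℓ v ∩ E).card : ℝ) = ∑ c ∈ E, if c ∈ Ls ℓ v then (1 : ℝ) else 0 := by
    intro v
    rw [Finset.sum_boole, Finset.inter_comm, ← Finset.filter_mem_eq_inter]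
  rw [Finset.sum_congr rfl fun c _ => h1 c, Finset.sum_congr rfl fun v _ => h2 v,
    Finset.sum_comm]

omit [Fintype V] [DecidableEq V] in
lemma h87_Ls_card {ℓ : V → Fin k → ℕ} (hinj : ∀ v, Function.Injective (ℓ v)) (v : V) :
    (Ls ℓ v).card = k := by
  unfold Ls
  rw [Finset.card_image_of_injective _ (hinj v)]
  simp

lemma h87_prc_apply {p : ℕ} {e : Fin p → ℕ} (he : Function.Injective e) (lam : ℝ)
    (x : Fin p → ℝ) (i : Fin p) : prc e lam x (e i) = Real.exp (-lam * x i) := by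
  unfold prc
  congr 2
  rw [Finset.sum_eq_single i]
  · simp
  · intro j _ hj
    simp [he.ne hj]
  · simp

lemma h87_prc_off {p : ℕ} {e : Fin p → ℕ} (lam : ℝ) (x : Fin p → ℝ) {c : ℕ}
    (hc : ∀ i, e i ≠ c) : prc e lam x c = 1 := by
  unfold prc
  simp [hc]

lemma h87_δ4_pos (k D : ℕ) : 0 < δ4 k D := by
  unfold δ4
  positivity

/-- The prices separate the expensive colours. -/
lemma h87_sep {p : ℕ} (hp : 0 < p) {e : Fin p → ℕ} (he : Function.Injective e) {lam : ℝ}
    (hlam : 0 < lam) (x : Fin p → ℝ) (E : Finset (Fin p)) (θ : ℝ)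
    (hθ : 0 ≤ θ) (h1 : ∀ c ∈ E, θ + 1 / (p : ℝ) ≤ x c) (h2 : ∀ c, c ∉ E → x c ≤ θ) :
    ∀ c ∈ E.image e, ∀ c', c' ∉ E.image e →
      prc e lam x c ≤ Real.exp (-lam / p) * prc e lam x c' := by
  intro c hc c' hc'
  rw [Finset.mem_image] at hc
  obtain ⟨i, hi, rfl⟩ := hc
  rw [h87_prc_apply he]
  have hp' : (0 : ℝ) < p := by exact_mod_cast hp
  by_cases h : ∃ j, e j = c'
  · obtain ⟨j, rfl⟩ := h
    have hj : j ∉ E := fun hj => hc' (Finset.mem_image_of_mem e hj)
    rw [h87_prc_apply he, ← Real.exp_add]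
    apply Real.exp_le_exp.2
    have := h1 i hi
    have h3 := h2 j hj
    have h4 : x j + 1 / (p : ℝ) ≤ x i := by linarith
    have h5 : lam * (x j + 1 / (p : ℝ)) ≤ lam * x i := mul_le_mul_of_nonneg_left h4 hlam.le
    have h6 : -lam / (p : ℝ) + -lam * x j = -(lam * (x j + 1 / (p : ℝ))) := by
      field_simp
      ring
    rw [h6]
    linarith
  · push Not at h
    rw [h87_prc_off lam x h, mul_one]
    apply Real.exp_le_exp.2
    have := h1 i hi
    have h4 : 1 / (p : ℝ) ≤ x i := by linarith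
    have h5 : lam * (1 / (p : ℝ)) ≤ lam * x i := mul_le_mul_of_nonneg_left h4 hlam.le
    have h6 : -lam / (p : ℝ) = -(lam * (1 / (p : ℝ))) := by
      field_simp
    rw [h6]
    linarith

variable (G : SimpleGraph V) [DecidableRel G.Adj] {D : ℕ} {χ : V → ℕ}

/-- The hypothesis of `exists_prices`. -/
lemma h87_H (hG : Good G k D) (hχ : Chi G D χ) (hk : 2 ≤ k) {ℓ : V → Fin k → ℕ}
    (hinj : ∀ v, Function.Injective (ℓ v)) {δ1 : ℝ} (hδ0 : 0 < δ1)
    (hδ1 : δ1 * (2 * k * (D + 1)) ≤ 1) {U : Finset ℕ} (hU : U.card + 1 ≤ k)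
    (hU1 : ∀ c ∈ U, (1 - δ1) * Fintype.card V
      ≤ ((univ.filter fun v => c ∈ Ls ℓ v).card : ℝ))
    (hU2 : ∀ c, c ∉ U → ((univ.filter fun v => c ∈ Ls ℓ v).card : ℝ)
      ≤ (1 - δ1) * Fintype.card V)
    {σ : ℝ} (hσ0 : 0 < σ) (hσ1 : σ ≤ δ1 / k) (hσ2 : σ ≤ δ4 k D / (2 * (D + 1)))
    {R' : ℕ} (hR' : 0 < R') (hR : ((D : ℝ) + 1) ^ 2 / (4 * R') ≤ σ / 4) {lam : ℝ}
    (hlam : 0 < lam) {p : ℕ} (hp0 : 0 < p) (hp : p ≤ k ^ 2) {e : Fin p → ℕ}
    (he : Function.Injective e) (hκ : k * Real.exp (-lam / p) ≤ σ / 4)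
    (hn : 0 < Fintype.card V) (x : Fin p → ℝ) (E : Finset (Fin p)) (hE : E.Nonempty) (θ : ℝ)
    (hθ : 0 ≤ θ) (h1 : ∀ c ∈ E, θ + 1 / (p : ℝ) ≤ x c) (h2 : ∀ c, c ∉ E → x c ≤ θ) :
    ∑ i ∈ E, ExX G D χ (4 * R') ℓ (ys G k (prc e lam x)) (e i) / (Fintype.card V : ℝ)
      < E.card * (1 / (k : ℝ) - σ / (4 * (k : ℝ) ^ 2)) := by
  have hn' : (0 : ℝ) < Fintype.card V := by exact_mod_cast hn
  have hk0 : (0 : ℝ) < k := by exact_mod_cast (by omega : 0 < k)
  have hD0 : (0 : ℝ) < (D : ℝ) + 1 := by positivity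
  have hp' : (0 : ℝ) < p := by exact_mod_cast hp0
  set n : ℝ := (Fintype.card V : ℝ) with hndef
  set E' : Finset ℕ := E.image e with hE'
  have hcardE : E'.card = E.card := Finset.card_image_of_injective _ he
  have hsum : ∑ c ∈ E', ExX G D χ (4 * R') ℓ (ys G k (prc e lam x)) c
      = ∑ i ∈ E, ExX G D χ (4 * R') ℓ (ys G k (prc e lam x)) (e i) := by
    rw [hE', Finset.sum_image (fun a _ b _ h => he h)]
  have hpos : ∀ c, 0 < prc e lam x c := fun c => by
    unfold prc
    exact Real.exp_pos _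
  have hκ0 : 0 ≤ Real.exp (-lam / p) := (Real.exp_pos _).le
  have hκ1 : Real.exp (-lam / p) < 1 := by
    rw [Real.exp_lt_one_iff]
    have : 0 < lam / p := div_pos hlam hp'
    have h6 : -lam / (p : ℝ) = -(lam / p) := by ring
    rw [h6]
    linarith
  have hsep := h87_sep hp0 he hlam x E θ hθ h1 h2
  have hkey : ∑ c ∈ E', ExX G D χ (4 * R') ℓ (ys G k (prc e lam x)) c
      ≤ (E.card : ℝ) * n / k - n * σ / 2 := by
    by_cases hEU : E' ⊆ U
    · -- all colours are in almost all lists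
      have hc2 : E'.card + 1 ≤ k := le_trans (by simpa using Finset.card_le_card hEU) hU
      have hne : E'.Nonempty := hE.image e
      have hb := ebound2 G ℓ hG hχ R' hR' hk hinj (prc e lam x) hpos E' (Real.exp (-lam / p))
        hκ0 hκ1 hsep hne hc2
      have hirr : ((univ.filter fun v => ¬ E' ⊆ Ls ℓ v).card : ℝ) ≤ n / (2 * (D + 1)) := by
        have hsub : (univ.filter fun v => ¬ E' ⊆ Ls ℓ v)
            ⊆ E'.biUnion fun c => univ.filter fun v => c ∉ Ls ℓ v := by
          intro v hv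
          rw [Finset.mem_filter] at hv
          rw [Finset.not_subset] at hv
          obtain ⟨c, hc, hcv⟩ := hv.2
          rw [Finset.mem_biUnion]
          exact ⟨c, hc, by simp [hcv]⟩
        have hle : ((univ.filter fun v => ¬ E' ⊆ Ls ℓ v).card : ℝ)
            ≤ ∑ c ∈ E', ((univ.filter fun v => c ∉ Ls ℓ v).card : ℝ) := by
          exact_mod_cast (Finset.card_le_card hsub).trans Finset.card_biUnion_le
        have hcomp : ∀ c ∈ E', ((univ.filter fun v => c ∉ Ls ℓ v).card : ℝ) ≤ δ1 * n := by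
          intro c hc
          have h3 := Finset.card_filter_add_card_filter_not (s := (univ : Finset V))
            (fun v => c ∈ Ls ℓ v)
          rw [Finset.card_univ] at h3
          have h4 : ((univ.filter fun v => c ∈ Ls ℓ v).card : ℝ)
              + ((univ.filter fun v => c ∉ Ls ℓ v).card : ℝ) = n := by
            rw [hndef]
            exact_mod_cast h3
          have h5 := hU1 c (hEU hc)
          linarith
        have hle2 : ∑ c ∈ E', ((univ.filter fun v => c ∉ Ls ℓ v).card : ℝ)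
            ≤ E'.card * (δ1 * n) := by
          have := Finset.sum_le_card_nsmul E' _ (δ1 * n) hcomp
          rwa [nsmul_eq_mul] at this
        have hcE : (E'.card : ℝ) ≤ k := by
          exact_mod_cast (by omega : E'.card ≤ k)
        have h6 : (E'.card : ℝ) * (δ1 * n) ≤ k * (δ1 * n) :=
          mul_le_mul_of_nonneg_right hcE (by positivity)
        have h7 : k * (δ1 * n) ≤ n / (2 * (D + 1)) := by
          rw [le_div_iff₀ (by positivity)]
          have : k * (δ1 * n) * (2 * (D + 1)) = (δ1 * (2 * k * (D + 1))) * n := by ring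
          rw [this]
          calc (δ1 * (2 * k * (D + 1))) * n ≤ 1 * n := mul_le_mul_of_nonneg_right hδ1 hn'.le
            _ = n := one_mul n
        linarith
      have hhalf : n / (2 * (D + 1)) ≤ (n - ((D : ℝ) + 1)
          * (univ.filter fun v => ¬ E' ⊆ Ls ℓ v).card) / ((D : ℝ) + 1) := by
        rw [le_div_iff₀ hD0]
        have h8 : ((D : ℝ) + 1) * (univ.filter fun v => ¬ E' ⊆ Ls ℓ v).card
            ≤ ((D : ℝ) + 1) * (n / (2 * (D + 1))) :=
          mul_le_mul_of_nonneg_left hirr hD0.le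
        have h9 : ((D : ℝ) + 1) * (n / (2 * (D + 1))) = n / 2 := by
          field_simp
        have h10 : n / (2 * (D + 1)) * ((D : ℝ) + 1) = n / 2 := by
          field_simp
        rw [h10]
        rw [h9] at h8
        linarith
      have hδ4 := h87_δ4_pos k D
      have h11 : δ4 k D * (n / (2 * (D + 1))) ≤ δ4 k D * ((n - ((D : ℝ) + 1)
          * (univ.filter fun v => ¬ E' ⊆ Ls ℓ v).card) / ((D : ℝ) + 1)) :=
        mul_le_mul_of_nonneg_left hhalf hδ4.le
      have h12 : n * σ ≤ δ4 k D * (n / (2 * (D + 1))) := by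
        have : δ4 k D * (n / (2 * (D + 1))) = n * (δ4 k D / (2 * (D + 1))) := by ring
        rw [this]
        exact mul_le_mul_of_nonneg_left hσ2 hn'.le
      have h13 : n * (((D : ℝ) + 1) ^ 2 / (4 * R') + k * Real.exp (-lam / p)) ≤ n * (σ / 2) :=
        mul_le_mul_of_nonneg_left (by linarith) hn'.le
      rw [hcardE] at hb
      rw [← hndef] at hb
      linarith
    · -- one colour is missing in many lists
      rw [Finset.not_subset] at hEU
      obtain ⟨c0, hc0, hc0U⟩ := hEU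
      have hb := ebound1 G ℓ hG hχ R' hR' hk hinj (prc e lam x) hpos E' (Real.exp (-lam / p))
        hκ0 hsep
      rw [← h87_sum_nc] at hb
      have hsum2 : ∑ c ∈ E', ((univ.filter fun v => c ∈ Ls ℓ v).card : ℝ)
          ≤ (E.card - δ1) * n := by
        rw [← Finset.add_sum_erase _ _ hc0]
        have h3 : ∑ c ∈ E'.erase c0, ((univ.filter fun v => c ∈ Ls ℓ v).card : ℝ)
            ≤ (E'.erase c0).card * n := by
          have := Finset.sum_le_card_nsmul (E'.erase c0)
            (fun c => ((univ.filter fun v => c ∈ Ls ℓ v).card : ℝ)) n (fun c _ => by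
              rw [hndef, ← Finset.card_univ]
              exact_mod_cast Finset.card_le_card (Finset.filter_subset _ _))
          rwa [nsmul_eq_mul] at this
        have h4 : ((E'.erase c0).card : ℝ) = E.card - 1 := by
          have h5 := Finset.card_erase_add_one hc0
          rw [hcardE] at h5
          rw [← h5]
          push_cast
          ring
        have h5 := hU2 c0 hc0U
        rw [h4] at h3
        have : (E.card - δ1) * n = (1 - δ1) * n + (E.card - 1) * n := by ring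
        rw [this]
        linarith
      have h6 : (∑ c ∈ E', ((univ.filter fun v => c ∈ Ls ℓ v).card : ℝ)) / k
          ≤ (E.card : ℝ) * n / k - n * σ := by
        have h7 : (∑ c ∈ E', ((univ.filter fun v => c ∈ Ls ℓ v).card : ℝ)) / k
            ≤ ((E.card - δ1) * n) / k := div_le_div_of_nonneg_right hsum2 hk0.le
        have h8 : ((E.card - δ1) * n) / k = (E.card : ℝ) * n / k - n * (δ1 / k) := by ring
        have h9 : n * σ ≤ n * (δ1 / k) := mul_le_mul_of_nonneg_left hσ1 hn'.le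
        linarith
      have h13 : n * (((D : ℝ) + 1) ^ 2 / (4 * R') + k * Real.exp (-lam / p)) ≤ n * (σ / 2) :=
        mul_le_mul_of_nonneg_left (by linarith) hn'.le
      rw [← hndef] at hb
      linarith
  rw [← Finset.sum_div, ← hsum, div_lt_iff₀ hn']
  have hcE : (E.card : ℝ) ≤ (k : ℝ) ^ 2 := by
    have h3 : E.card ≤ p := by simpa using Finset.card_le_univ E
    exact_mod_cast h3.trans hp
  have h14 : (E.card : ℝ) * (σ / (4 * (k : ℝ) ^ 2)) ≤ σ / 4 := by
    calc (E.card : ℝ) * (σ / (4 * (k : ℝ) ^ 2)) ≤ (k : ℝ) ^ 2 * (σ / (4 * (k : ℝ) ^ 2)) :=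
          mul_le_mul_of_nonneg_right hcE (by positivity)
      _ = σ / 4 := by field_simp
  have h15 : (E.card : ℝ) * (σ / (4 * (k : ℝ) ^ 2)) * n ≤ σ / 4 * n :=
    mul_le_mul_of_nonneg_right h14 hn'.le
  have h16 : (E.card : ℝ) * (1 / (k : ℝ) - σ / (4 * (k : ℝ) ^ 2)) * n
      = (E.card : ℝ) * n / k - (E.card : ℝ) * (σ / (4 * (k : ℝ) ^ 2)) * n := by ring
  rw [h16]
  have h17 : 0 < n * σ := by positivity
  linarith

end aux87

theorem case2 (k D : ℕ) (hk : 2 ≤ k) (δ1 : ℝ) (hδ0 : 0 < δ1)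
    (hδ1 : δ1 * (2 * k * (D + 1)) ≤ 1) :
    ∃ n0 : ℕ, ∀ (V : Type) [Fintype V] [DecidableEq V] (G : SimpleGraph V) [DecidableRel G.Adj],
      Good G k D → n0 ≤ Fintype.card V → ∀ ℓ : V → Fin k → ℕ, (∀ v, Function.Injective (ℓ v)) →
      ∀ U : Finset ℕ, U.card + 1 ≤ k →
      (∀ c ∈ U, (1 - δ1) * Fintype.card V ≤ ((univ.filter fun v => c ∈ Ls ℓ v).card : ℝ)) →
      (∀ c, c ∉ U → ((univ.filter fun v => c ∈ Ls ℓ v).card : ℝ) ≤ (1 - δ1) * Fintype.card V) →
      ∃ f : V → ℕ, (∀ v, f v ∈ Ls ℓ v) ∧ (∀ u v, G.Adj u v → f u ≠ f v) ∧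
        ∀ c, (univ.filter fun v => f v = c).card ≤ (Fintype.card V + k - 1) / k := by
  have hk0 : (0 : ℝ) < k := by exact_mod_cast (by omega : 0 < k)
  have hδ4 := h87_δ4_pos k D
  set σ : ℝ := min (δ1 / k) (δ4 k D / (2 * (D + 1))) with hσ
  have hσ0 : 0 < σ := lt_min (by positivity) (by positivity)
  have hσ1 : σ ≤ δ1 / k := min_le_left _ _
  have hσ2 : σ ≤ δ4 k D / (2 * (D + 1)) := min_le_right _ _
  set δ2 : ℝ := σ / (4 * (k : ℝ) ^ 2) with hδ2
  have hδ20 : 0 < δ2 := by positivity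
  set R' : ℕ := ⌈((D : ℝ) + 1) ^ 2 / σ⌉₊ + 1 with hR'def
  have hR' : 0 < R' := by omega
  have hR : ((D : ℝ) + 1) ^ 2 / (4 * R') ≤ σ / 4 := by
    have hR'' : (0 : ℝ) < R' := by exact_mod_cast hR'
    have h1 : ((D : ℝ) + 1) ^ 2 / σ ≤ R' := by
      rw [hR'def]
      push_cast
      exact (Nat.le_ceil _).trans (by linarith)
    rw [div_le_iff₀ hσ0] at h1
    rw [div_le_div_iff₀ (by positivity) (by norm_num)]
    linarith
  set lam : ℝ := (k : ℝ) ^ 2 * (4 * k / σ) with hlamdef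
  have hlam : 0 < lam := by positivity
  set ρ : ℕ := 4 * R' * (D + 1) with hρ
  set β : ℕ := (D + 1) ^ (2 * ρ) with hβ
  refine ⟨⌈(k : ℝ) ^ 2 * β / δ2 ^ 2⌉₊ + 1, ?_⟩
  intro V _ _ G _ hG hn0 ℓ hinj U hU hU1 hU2
  have hn : 0 < Fintype.card V := by omega
  have hn' : (0 : ℝ) < Fintype.card V := by exact_mod_cast hn
  obtain ⟨χ, hχ⟩ := exists_chi G D hG.hD
  set N : ℕ := (Fintype.card V + k - 1) / k with hN
  have hNk : Fintype.card V ≤ k * N := by
    have h1 := Nat.div_add_mod (Fintype.card V + k - 1) k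
    have h2 := Nat.mod_lt (Fintype.card V + k - 1) (by omega : 0 < k)
    rw [← hN] at h1
    omega
  -- a colour class is contained in the set of the vertices whose list contains the colour
  have hclass : ∀ (ω : V → Om (4 * R') k) (c : ℕ),
      (univ.filter fun v => cl G D χ ℓ ω v = c).card
        ≤ (univ.filter fun v => c ∈ Ls ℓ v).card := by
    intro ω c
    apply Finset.card_le_card
    intro v hv
    rw [Finset.mem_filter] at hv ⊢
    exact ⟨hv.1, hv.2 ▸ cl_mem G ℓ ω v⟩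
  set P : Finset ℕ := (univ.biUnion (Ls ℓ)).filter
    (fun c => N < (univ.filter fun v => c ∈ Ls ℓ v).card) with hP
  have hPmem : ∀ c, c ∉ P → (univ.filter fun v => c ∈ Ls ℓ v).card ≤ N := by
    intro c hc
    by_contra hcon
    push Not at hcon
    apply hc
    rw [hP, Finset.mem_filter]
    refine ⟨?_, hcon⟩
    have : 0 < (univ.filter fun v => c ∈ Ls ℓ v).card := lt_of_le_of_lt (Nat.zero_le _) hcon
    obtain ⟨v, hv⟩ := Finset.card_pos.1 this
    rw [Finset.mem_filter] at hv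
    exact Finset.mem_biUnion.2 ⟨v, Finset.mem_univ v, hv.2⟩
  have hPcard : P.card ≤ k ^ 2 := by
    have h1 : (P.card : ℝ) * N ≤ ∑ c ∈ P, ((univ.filter fun v => c ∈ Ls ℓ v).card : ℝ) := by
      have := Finset.card_nsmul_le_sum P
        (fun c => ((univ.filter fun v => c ∈ Ls ℓ v).card : ℝ)) (N : ℝ) (fun c hc => by
          rw [hP, Finset.mem_filter] at hc
          exact_mod_cast hc.2.le)
      rwa [nsmul_eq_mul] at this
    rw [h87_sum_nc] at h1
    have h2 : ∑ v, ((Ls ℓ v ∩ P).card : ℝ) ≤ Fintype.card V * k := by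
      have := Finset.sum_le_card_nsmul (univ : Finset V)
        (fun v => ((Ls ℓ v ∩ P).card : ℝ)) (k : ℝ) (fun v _ => by
          have h3 := Finset.card_le_card (Finset.inter_subset_left (s₁ := Ls ℓ v) (s₂ := P))
          rw [h87_Ls_card hinj] at h3
          exact_mod_cast h3)
      rwa [nsmul_eq_mul, Finset.card_univ] at this
    have h3 : (Fintype.card V : ℝ) ≤ k * N := by exact_mod_cast hNk
    have h4 : (P.card : ℝ) * Fintype.card V ≤ (k : ℝ) ^ 2 * Fintype.card V := by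
      calc (P.card : ℝ) * Fintype.card V ≤ P.card * (k * N) :=
            mul_le_mul_of_nonneg_left h3 (by positivity)
        _ = k * (P.card * N) := by ring
        _ ≤ k * (Fintype.card V * k) := mul_le_mul_of_nonneg_left (h1.trans h2) hk0.le
        _ = (k : ℝ) ^ 2 * Fintype.card V := by ring
    exact_mod_cast le_of_mul_le_mul_right h4 hn'
  rcases Nat.eq_zero_or_pos P.card with hP0 | hP0
  · -- no colour can be overused
    have hP' : P = ∅ := Finset.card_eq_zero.1 hP0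
    let ω0 : V → Om (4 * R') k := fun _ => (⟨0, by omega⟩, fun _ => ⟨0, by omega⟩)
    refine ⟨cl G D χ ℓ ω0, cl_mem G ℓ ω0, fun u v h => cl_proper G ℓ hG hχ hinj ω0 h, ?_⟩
    intro c
    exact (hclass ω0 c).trans (hPmem c (by rw [hP']; exact Finset.notMem_empty c))
  · set p : ℕ := P.card with hpdef
    let e : Fin p → ℕ := fun i => (P.equivFin.symm i : ℕ)
    have he : Function.Injective e := by
      intro i j hij
      exact P.equivFin.symm.injective (Subtype.ext hij)
    have heP : ∀ c ∈ P, ∃ i, e i = c := by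
      intro c hc
      refine ⟨P.equivFin ⟨c, hc⟩, ?_⟩
      simp [e]
    have hp' : (0 : ℝ) < p := by exact_mod_cast hP0
    have hκ : k * Real.exp (-lam / p) ≤ σ / 4 := by
      have hpk : (p : ℝ) ≤ (k : ℝ) ^ 2 := by exact_mod_cast hPcard
      have h1 : 4 * k / σ ≤ lam / p := by
        rw [le_div_iff₀ hp', hlamdef]
        calc 4 * k / σ * p ≤ 4 * k / σ * (k : ℝ) ^ 2 :=
              mul_le_mul_of_nonneg_left hpk (by positivity)
          _ = (k : ℝ) ^ 2 * (4 * k / σ) := by ring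
      have h2 : 4 * k / σ < Real.exp (lam / p) :=
        lt_of_le_of_lt h1 (lt_of_lt_of_le (by linarith) (Real.add_one_le_exp _))
      have h3 : -lam / (p : ℝ) = -(lam / p) := by ring
      rw [h3, Real.exp_neg, ← div_eq_mul_inv, div_le_iff₀ (Real.exp_pos _)]
      have h4 : σ / 4 * (4 * k / σ) = k := by
        field_simp
      calc (k : ℝ) = σ / 4 * (4 * k / σ) := h4.symm
        _ ≤ σ / 4 * Real.exp (lam / p) := mul_le_mul_of_nonneg_left h2.le (by positivity)
    obtain ⟨x, hx, hxm⟩ := exists_prices p hP0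
      (fun x i => ExX G D χ (4 * R') ℓ (ys G k (prc e lam x)) (e i) / (Fintype.card V : ℝ))
      (Continuous.continuousOn (continuous_pi fun i => (cont_ExX G ℓ e lam (e i)).div_const _))
      (1 / (k : ℝ) - δ2)
      (fun x _ E hE θ hθ h1 h2 => h87_H G hG hχ hk hinj hδ0 hδ1 hU hU1 hU2 hσ0 hσ1 hσ2 hR' hR
        hlam hP0 hPcard he hκ hn x E hE θ hθ h1 h2)
    classical
    set y : V → ℕ → ℝ := ys G k (prc e lam x) with hy
    have hypos : ∀ v c, 0 < y v c := fun v c => ys_pos G (fun c => by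
      unfold prc
      exact Real.exp_pos _) v c
    have hw : IsW (wt (V := V) (4 * R') ℓ y) := isW_wt ℓ y (by omega) (by omega) hypos
    have hnβ : (Fintype.card (Fin p) : ℝ) * (β * Fintype.card V)
        < (δ2 * Fintype.card V) ^ 2 := by
      rw [Fintype.card_fin]
      have h1 : (k : ℝ) ^ 2 * β / δ2 ^ 2 < Fintype.card V := by
        have h2 : ((⌈(k : ℝ) ^ 2 * β / δ2 ^ 2⌉₊ + 1 : ℕ) : ℝ) ≤ Fintype.card V := by
          exact_mod_cast hn0
        push_cast at h2
        have h3 := Nat.le_ceil ((k : ℝ) ^ 2 * β / δ2 ^ 2)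
        linarith
      rw [div_lt_iff₀ (by positivity)] at h1
      have hpk : (p : ℝ) ≤ (k : ℝ) ^ 2 := by exact_mod_cast hPcard
      have hβ0 : (0 : ℝ) ≤ β := by positivity
      calc (p : ℝ) * (β * Fintype.card V) = (p * β) * Fintype.card V := by ring
        _ ≤ ((k : ℝ) ^ 2 * β) * Fintype.card V :=
            mul_le_mul_of_nonneg_right (mul_le_mul_of_nonneg_right hpk hβ0) hn'.le
        _ < (Fintype.card V * δ2 ^ 2) * Fintype.card V := mul_lt_mul_of_pos_right h1 hn'
        _ = (δ2 * Fintype.card V) ^ 2 := by ring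
    obtain ⟨ω, hω⟩ := exists_dev hw (fun v => nb G ρ v) β
      (fun v => nb_overlap G hG.hD ρ v) (ι := Fin p)
      (fun i v ω => if cl G D χ ℓ ω v = e i then (1 : ℝ) else 0)
      (fun i v ω => by split_ifs <;> norm_num)
      (fun i v ω => by split_ifs <;> norm_num)
      (fun i v ω ω' h => by
        have := cl_dep G ℓ (R := 4 * R') hχ.hle v ω ω' h
        dsimp only at this ⊢
        rw [this])
      (δ2 * Fintype.card V) (by positivity) hnβ
    refine ⟨cl G D χ ℓ ω, cl_mem G ℓ ω, fun u v h => cl_proper G ℓ hG hχ hinj ω h, ?_⟩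
    intro c
    by_cases hc : c ∈ P
    · obtain ⟨i, rfl⟩ := heP c hc
      have h1 := hω i
      have h2 : ∑ v, Ex (wt (4 * R') ℓ y)
          (fun ω : V → Om (4 * R') k => if cl G D χ ℓ ω v = e i then (1 : ℝ) else 0)
          = ExX G D χ (4 * R') ℓ y (e i) := by
        unfold ExX Pr
        refine Finset.sum_congr rfl fun v _ => ?_
        refine congrArg _ (funext fun ω => ?_)
        by_cases h : cl G D χ ℓ ω v = e i <;> simp [h]
      rw [h2] at h1
      have h3 := hxm i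
      rw [div_le_iff₀ hn'] at h3
      have h4 : ∑ v, (if cl G D χ ℓ ω v = e i then (1 : ℝ) else 0)
          = ((univ.filter fun v => cl G D χ ℓ ω v = e i).card : ℝ) := by
        simp
      rw [h4] at h1
      have h5 := (abs_lt.1 h1).2
      have h6 : ((univ.filter fun v => cl G D χ ℓ ω v = e i).card : ℝ)
          < 1 / (k : ℝ) * Fintype.card V := by
        have : (1 / (k : ℝ) - δ2) * Fintype.card V
          = 1 / (k : ℝ) * Fintype.card V - δ2 * Fintype.card V := by ring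
        linarith
      have h7 : (Fintype.card V : ℝ) ≤ k * N := by exact_mod_cast hNk
      have h8 : 1 / (k : ℝ) * Fintype.card V ≤ N := by
        rw [one_div, inv_mul_le_iff₀ hk0]
        exact h7
      exact_mod_cast (h6.trans_le h8).le
    · exact (hclass ω c).trans (hPmem c hc)

end Pool.Agent.Helper28.EQ
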