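import Pool.Agent.Helper28.EQ.Case1
import Pool.Agent.Helper28.EQ.Case2

/-!
# Block EQ-CB: both cases together, lists as finsets of an arbitrary type

PROOF. `k = 1`: `Good G 1 D` has no edges? For `k = 1` a vertex of degree 0 satisfies `degree + 1 = k`, so
`hK` gives neighbours, contradiction; so `V` has no vertex of degree 0, and a vertex of degree
`≥ 1 = k` has a neighbour `w` with `degree w + 2 ≤ 1`, contradiction: `V` is empty, everything is trivial.
`k ≥ 2`: `δ0`, from `case1`, `δ1 = min (δ0/k) (min (1/(2k(D+1))) (1/(2(k+1))))`. Embed the colours of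
the lists into `ℕ`. `U = {c : n_c ≥ (1-δ1) n}`. `|U| ≤ k`, because `∑ n_c = k n` and
`(k+1)(1-δ1) > k` (`n > 0`). If `|U| = k` let `e` be an enumeration of `U` and choose the enumeration
`ℓ v = e` for all `v` with `L v = U`; the number of `v` with `L v ≠ U` is at most
`∑_{c ∈ U} (n - n_c) ≤ k δ1 n ≤ δ0 n`: `case1`. Otherwise `case2`.
-/

namespace Pool.Agent.Helper28.EQ

open Finset

namespace CombAux

/-- Both cases together for lists of natural numbers. -/
theorem comb_nat (k D : ℕ) (hk : 2 ≤ k) :
    ∃ n0 : ℕ, ∀ (V : Type) [Fintype V] [DecidableEq V] (G : SimpleGraph V) [DecidableRel G.Adj],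
      Good G k D → n0 ≤ Fintype.card V → ∀ (L : V → Finset ℕ),
      (∀ v, (L v).card = k) →
      ∃ f : V → ℕ, (∀ v, f v ∈ L v) ∧ (∀ u v, G.Adj u v → f u ≠ f v) ∧
        ∀ c, (univ.filter fun v => f v = c).card ≤ (Fintype.card V + k - 1) / k := by
  classical
  obtain ⟨δ0, hδ0, n1, hcase1⟩ := case1 k D hk
  have hk0 : (0 : ℝ) < k := by
    have : 0 < k := by omega
    exact_mod_cast this
  have hD0 : (0 : ℝ) ≤ D := Nat.cast_nonneg D
  set δ1 : ℝ := min (δ0 / k) (min (1 / (2 * k * (D + 1))) (1 / (2 * (k + 1)))) with hδ1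
  have hδ1pos : 0 < δ1 := by
    rw [hδ1]
    refine lt_min (by positivity) (lt_min (by positivity) (by positivity))
  have hδ1a : δ1 ≤ δ0 / k := min_le_left _ _
  have hδ1b : δ1 ≤ 1 / (2 * k * (D + 1)) := (min_le_right _ _).trans (min_le_left _ _)
  have hδ1c : δ1 ≤ 1 / (2 * (k + 1)) := (min_le_right _ _).trans (min_le_right _ _)
  obtain ⟨n2, hcase2⟩ := case2 k D hk δ1 hδ1pos (by
    rw [le_div_iff₀ (by positivity)] at hδ1b
    exact hδ1b)
  refine ⟨max 1 (max n1 n2), ?_⟩
  intro V _ _ G _ hG hn L hL
  have hn1 : 1 ≤ Fintype.card V := (le_max_left _ _).trans hn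
  have hn2 : n1 ≤ Fintype.card V := ((le_max_left _ _).trans (le_max_right _ _)).trans hn
  have hn3 : n2 ≤ Fintype.card V := ((le_max_right _ _).trans (le_max_right _ _)).trans hn
  set n : ℝ := (Fintype.card V : ℝ) with hnn
  have hnpos : 0 < n := by rw [hnn]; exact_mod_cast hn1
  let ℓ : V → Fin k → ℕ := fun v => (L v).orderEmbOfFin (hL v)
  have hinj : ∀ v, Function.Injective (ℓ v) := fun v => ((L v).orderEmbOfFin (hL v)).injective
  have hLs : ∀ v, Ls ℓ v = L v := by
    intro v
    apply Finset.coe_injective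
    unfold Ls
    rw [Finset.coe_image, Finset.coe_univ, Set.image_univ]
    exact Finset.range_orderEmbOfFin (L v) (hL v)
  let cnt : ℕ → ℕ := fun c => (univ.filter fun v => c ∈ L v).card
  let K : Finset ℕ := univ.biUnion L
  let U : Finset ℕ := K.filter fun c => (1 - δ1) * n ≤ (cnt c : ℝ)
  have hdc : ∀ W : Finset ℕ, ∑ c ∈ W, cnt c = ∑ v : V, (W ∩ L v).card := by
    intro W
    have h1 : ∀ c, cnt c = ∑ v : V, if c ∈ L v then 1 else 0 := by
      intro c
      show (univ.filter fun v => c ∈ L v).card = _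
      rw [Finset.card_filter]
    have h2 : ∀ v, (W ∩ L v).card = ∑ c ∈ W, if c ∈ L v then 1 else 0 := by
      intro v
      rw [← Finset.card_filter, Finset.filter_mem_eq_inter]
    simp only [h1, h2]
    exact Finset.sum_comm
  have hUcard : U.card ≤ k := by
    by_contra hcon
    push Not at hcon
    have h1 : ∑ c ∈ U, cnt c ≤ Fintype.card V * k := by
      rw [hdc]
      calc ∑ v : V, (U ∩ L v).card ≤ ∑ _v : V, k :=
            Finset.sum_le_sum fun v _ => (Finset.card_le_card Finset.inter_subset_right).trans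
              (hL v).le
        _ = Fintype.card V * k := by rw [Finset.sum_const, Finset.card_univ, smul_eq_mul]
    have h2 : (U.card : ℝ) * ((1 - δ1) * n) ≤ ∑ c ∈ U, (cnt c : ℝ) := by
      rw [← nsmul_eq_mul]
      refine Finset.card_nsmul_le_sum _ _ _ fun c hc => ?_
      exact (Finset.mem_filter.mp hc).2
    have h3 : ∑ c ∈ U, (cnt c : ℝ) ≤ n * k := by
      have : ((∑ c ∈ U, cnt c : ℕ) : ℝ) ≤ ((Fintype.card V * k : ℕ) : ℝ) := by exact_mod_cast h1
      push_cast at this
      exact this
    have h4 : ((k : ℝ) + 1) ≤ U.card := by exact_mod_cast hcon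
    have h5 : ((k : ℝ) + 1) * δ1 ≤ 1 / 2 := by
      rw [le_div_iff₀ (by positivity)] at hδ1c
      linarith
    have hδ1one : 0 ≤ 1 - δ1 := by nlinarith
    have h6 : ((k : ℝ) + 1) * ((1 - δ1) * n) ≤ n * k := by
      refine le_trans ?_ (h2.trans h3)
      exact mul_le_mul_of_nonneg_right h4 (mul_nonneg hδ1one hnpos.le)
    nlinarith
  have hδle : δ1 ≤ 1 := by
    refine hδ1c.trans ?_
    rw [div_le_one (by positivity)]
    linarith
  by_cases hUk : U.card = k
  · -- almost all lists are equal
    let e : Fin k → ℕ := U.orderEmbOfFin hUk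
    have he : Function.Injective e := (U.orderEmbOfFin hUk).injective
    have hle : ∀ v, L v = U → ℓ v = e := by
      intro v hv
      show ((L v).orderEmbOfFin (hL v) : Fin k → ℕ) = U.orderEmbOfFin hUk
      congr 2
    have hirr : ((univ.filter fun v => ℓ v ≠ e).card : ℝ) ≤ δ0 * Fintype.card V := by
      have h1 : (univ.filter fun v => ℓ v ≠ e) ⊆ univ.filter fun v => L v ≠ U := by
        intro v hv
        simp only [mem_filter, mem_univ, true_and] at hv ⊢
        exact fun h => hv (hle v h)
      have h2 : ∀ v, (if L v ≠ U then (1 : ℝ) else 0) ≤ ∑ c ∈ U, if c ∈ L v then (0 : ℝ) else 1 := by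
        intro v
        have hnn : ∀ c ∈ U, (0 : ℝ) ≤ if c ∈ L v then (0 : ℝ) else 1 := by
          intro c _; split_ifs <;> norm_num
        split_ifs with h
        · have hns : ¬ U ⊆ L v := by
            intro hsub
            exact h (Finset.eq_of_subset_of_card_le hsub (by rw [hL v, hUk])).symm
          rw [Finset.not_subset] at hns
          obtain ⟨c, hc, hcL⟩ := hns
          calc (1 : ℝ) = if c ∈ L v then (0 : ℝ) else 1 := by rw [if_neg hcL]
            _ ≤ _ := Finset.single_le_sum hnn hc
        · exact Finset.sum_nonneg hnn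
      have h3 : ((univ.filter fun v => L v ≠ U).card : ℝ) = ∑ v : V, if L v ≠ U then (1 : ℝ) else 0 := by
        rw [Finset.card_filter]
        push_cast
        rfl
      have h4 : ∀ c ∈ U, ∑ v : V, (if c ∈ L v then (0 : ℝ) else 1) ≤ δ1 * n := by
        intro c hc
        have h5 := (Finset.mem_filter.mp hc).2
        have h6 : ∑ v : V, (if c ∈ L v then (0 : ℝ) else 1) + (cnt c : ℝ) = n := by
          have h7 : (cnt c : ℝ) = ∑ v : V, (if c ∈ L v then (1 : ℝ) else 0) := by
            show (((univ.filter fun v => c ∈ L v).card : ℕ) : ℝ) = _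
            rw [Finset.card_filter]
            push_cast
            rfl
          rw [h7, ← Finset.sum_add_distrib]
          have h8 : ∀ v : V, (if c ∈ L v then (0 : ℝ) else 1) + (if c ∈ L v then (1 : ℝ) else 0) = 1 := by
            intro v; split_ifs <;> norm_num
          simp only [h8, Finset.sum_const, Finset.card_univ, nsmul_eq_mul, mul_one]
          rfl
        linarith
      calc ((univ.filter fun v => ℓ v ≠ e).card : ℝ) ≤ ((univ.filter fun v => L v ≠ U).card : ℝ) := by
            exact_mod_cast Finset.card_le_card h1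
        _ = ∑ v : V, if L v ≠ U then (1 : ℝ) else 0 := h3
        _ ≤ ∑ v : V, ∑ c ∈ U, (if c ∈ L v then (0 : ℝ) else 1) := Finset.sum_le_sum fun v _ => h2 v
        _ = ∑ c ∈ U, ∑ v : V, (if c ∈ L v then (0 : ℝ) else 1) := Finset.sum_comm
        _ ≤ ∑ _c ∈ U, δ1 * n := Finset.sum_le_sum h4
        _ = k * (δ1 * n) := by rw [Finset.sum_const, hUk, nsmul_eq_mul]
        _ ≤ δ0 * n := by
            rw [le_div_iff₀ hk0] at hδ1a
            nlinarith
    obtain ⟨f, hf1, hf2, hf3⟩ := hcase1 V G hG hn2 ℓ hinj e he hirr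
    exact ⟨f, fun v => by rw [← hLs v]; exact hf1 v, hf2, hf3⟩
  · obtain ⟨f, hf1, hf2, hf3⟩ := hcase2 V G hG hn3 ℓ hinj U (by omega)
      (by
        intro c hc
        simp only [hLs]
        exact (Finset.mem_filter.mp hc).2)
      (by
        intro c hc
        simp only [hLs]
        by_cases hcK : c ∈ K
        · have : ¬ ((1 - δ1) * n ≤ (cnt c : ℝ)) := fun h => hc (Finset.mem_filter.mpr ⟨hcK, h⟩)
          exact (not_le.mp this).le
        · have h0 : (univ.filter fun v => c ∈ L v) = ∅ := by
            ext v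
            simp only [mem_filter, mem_univ, true_and, notMem_empty, iff_false]
            intro hcv
            exact hcK (Finset.mem_biUnion.mpr ⟨v, mem_univ v, hcv⟩)
          rw [h0, Finset.card_empty]
          have : 0 ≤ (1 - δ1) * n := mul_nonneg (by linarith) hnpos.le
          exact_mod_cast this)
    exact ⟨f, fun v => by rw [← hLs v]; exact hf1 v, hf2, hf3⟩

end CombAux

theorem comb (k D : ℕ) (hk : 1 ≤ k) :
    ∃ n0 : ℕ, ∀ (V : Type) [Fintype V] [DecidableEq V] (G : SimpleGraph V) [DecidableRel G.Adj],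
      Good G k D → n0 ≤ Fintype.card V → ∀ (C : Type) [DecidableEq C] (L : V → Finset C),
      (∀ v, (L v).card = k) →
      ∃ f : V → C, (∀ v, f v ∈ L v) ∧ (∀ u v, G.Adj u v → f u ≠ f v) ∧
        ∀ c, (univ.filter fun v => f v = c).card ≤ (Fintype.card V + k - 1) / k := by
  rcases Nat.lt_or_ge k 2 with hk2 | hk2
  · refine ⟨0, ?_⟩
    intro V _ _ G _ hG _ C _ L hL
    have hk1 : k = 1 := by omega
    have hempty : IsEmpty V := by
      refine ⟨fun v => ?_⟩
      rcases Nat.eq_zero_or_pos (G.degree v) with h0 | hpos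
      · obtain ⟨u, -, hu, -⟩ := hG.hK v (by omega) (by
          intro w hw
          exfalso
          have := (G.degree_pos_iff_exists_adj v).mpr ⟨w, hw⟩
          omega)
        have := (G.degree_pos_iff_exists_adj v).mpr ⟨u, hu⟩
        omega
      · obtain ⟨w, hw⟩ := (G.degree_pos_iff_exists_adj v).mp hpos
        have := hG.hO v w hw (by omega)
        omega
    refine ⟨fun v => hempty.elim v, fun v => hempty.elim v, fun v => hempty.elim v, fun c => ?_⟩
    rw [Finset.card_eq_zero.mpr (by
      ext v; exact hempty.elim v)]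
    exact Nat.zero_le _
  · obtain ⟨n0, hn0⟩ := CombAux.comb_nat k D hk2
    refine ⟨n0, ?_⟩
    intro V _ _ G _ hG hn C _ L hL
    let K : Finset C := univ.biUnion L
    have hLK : ∀ v, ∀ c ∈ L v, c ∈ K := fun v c hc => Finset.mem_biUnion.mpr ⟨v, mem_univ v, hc⟩
    let g : C → ℕ := fun c => if h : c ∈ K then (K.equivFin ⟨c, h⟩ : ℕ) else 0
    have hg : ∀ c ∈ K, ∀ c' ∈ K, g c = g c' → c = c' := by
      intro c hc c' hc' h
      simp only [g, dif_pos hc, dif_pos hc'] at h
      have h1 := K.equivFin.injective (Fin.ext h)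
      exact congrArg Subtype.val h1
    obtain ⟨f', hf1, hf2, hf3⟩ := hn0 V G hG hn (fun v => (L v).image g) (by
      intro v
      rw [Finset.card_image_of_injOn, hL v]
      intro c hc c' hc' h
      exact hg c (hLK v c hc) c' (hLK v c' hc') h)
    have hex : ∀ v, ∃ c ∈ L v, g c = f' v := fun v => Finset.mem_image.mp (hf1 v)
    choose f hfL hfg using hex
    refine ⟨f, hfL, ?_, ?_⟩
    · intro u v huv h
      apply hf2 u v huv
      rw [← hfg u, ← hfg v, h]
    · intro c
      refine le_trans (Finset.card_le_card ?_) (hf3 (g c))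
      intro v hv
      simp only [mem_filter, mem_univ, true_and] at hv ⊢
      rw [← hfg v, hv]

end Pool.Agent.Helper28.EQ
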