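import Mathlib

/-!
# Equitable list colouring of large graphs (MP_c0e710_co): definitions

Paper proof: /team-store/h28_EQ_README.md
Colours are natural numbers in all blocks. `ℓ v : Fin k → ℕ` is the list of the vertex `v`.
-/

namespace Pool.Agent.Helper28.EQ

open Finset

/-! ### Product expectation -/

section

variable {V α β : Type} [Fintype V] [DecidableEq V] [Fintype α]

/-- Expectation of `g` for independent coordinates `ω v` with weights `w v`. -/
noncomputable def Ex (w : V → α → ℝ) (g : (V → α) → ℝ) : ℝ :=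
  ∑ ω : V → α, (∏ v, w v (ω v)) * g ω

/-- `w v` is a probability vector for every `v`. -/
def IsW (w : V → α → ℝ) : Prop := (∀ v a, 0 ≤ w v a) ∧ ∀ v, ∑ a, w v a = 1

/-- `g` depends only on the coordinates in `S`. -/
def Dep (g : (V → α) → β) (S : Finset V) : Prop :=
  ∀ ω ω' : V → α, (∀ v ∈ S, ω v = ω' v) → g ω = g ω'

open Classical in
/-- Probability of the event `P`. -/
noncomputable def Pr (w : V → α → ℝ) (P : (V → α) → Prop) : ℝ :=
  Ex w (fun ω => if P ω then 1 else 0)

end

/-- `φ m g = (1 - g/(m+1))_+`. -/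
noncomputable def φ (m g : ℕ) : ℝ := max 0 (1 - (g : ℝ) / (m + 1))

/-! ### The process -/

/-- The choice made by the choice function `s` from the set `A` of positions. -/
def pick {k : ℕ} (s : Finset (Fin k) → Fin k) (A : Finset (Fin k)) : Fin k :=
  if s A ∈ A then s A else if h : A.Nonempty then A.min' h else s A

section

variable {V : Type} [Fintype V] [DecidableEq V] (G : SimpleGraph V) [DecidableRel G.Adj]

/-- Colour the vertices in the order of the stages `st`, the vertex `v` chooses with the choice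
function `s v` among the positions of its list whose colours are not used by the neighbours with
smaller stage. -/
def col {k : ℕ} (ℓ : V → Fin k → ℕ) (st : V → ℕ) (s : V → Finset (Fin k) → Fin k) : V → ℕ :=
  (measure st).wf.fix fun v rec => ℓ v (pick (s v)
    (univ.filter fun j => ∀ u, ∀ h : st u < st v, G.Adj u v → rec u h ≠ ℓ v j))

/-- The colours blocked at `v`: colours of the neighbours of smaller stage. -/
def blk {k : ℕ} (ℓ : V → Fin k → ℕ) (st : V → ℕ) (s : V → Finset (Fin k) → Fin k) (v : V) :
    Finset ℕ :=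
  ((G.neighborFinset v).filter fun u => st u < st v).image (col G ℓ st s)

/-- The available positions. -/
def avail {k : ℕ} (ℓ : V → Fin k → ℕ) (st : V → ℕ) (s : V → Finset (Fin k) → Fin k) (v : V) :
    Finset (Fin k) :=
  univ.filter fun j => ℓ v j ∉ blk G ℓ st s v

/-- The data of a vertex: a time and a choice function. -/
abbrev Om (R k : ℕ) := Fin R × (Finset (Fin k) → Fin k)

/-- The stage of `v`: vertices of degree `≥ k` (big vertices) have stage 0, the others are ordered
by time, ties are broken by the proper colouring `χ` with values `≤ D`. -/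
def stg (D : ℕ) (χ : V → ℕ) {R k : ℕ} (ω : V → Om R k) (v : V) : ℕ :=
  if k ≤ G.degree v then 0 else 1 + ((ω v).1 : ℕ) * (D + 1) + χ v

/-- The colouring of the process. -/
def cl (D : ℕ) (χ : V → ℕ) {R k : ℕ} (ℓ : V → Fin k → ℕ) (ω : V → Om R k) (v : V) : ℕ :=
  col G ℓ (stg G D χ ω) (fun u => (ω u).2) v

/-- The blocked colours of the process. -/
def bk (D : ℕ) (χ : V → ℕ) {R k : ℕ} (ℓ : V → Fin k → ℕ) (ω : V → Om R k) (v : V) : Finset ℕ :=
  blk G ℓ (stg G D χ ω) (fun u => (ω u).2) v

/-- The available positions of the process. -/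
def av (D : ℕ) (χ : V → ℕ) {R k : ℕ} (ℓ : V → Fin k → ℕ) (ω : V → Om R k) (v : V) :
    Finset (Fin k) :=
  avail G ℓ (stg G D χ ω) (fun u => (ω u).2) v

/-- The list of `v` as a set of colours. -/
def Ls {k : ℕ} (ℓ : V → Fin k → ℕ) (v : V) : Finset ℕ := univ.image (ℓ v)

/-- Balls: vertices at distance at most `r`. -/
def nb : ℕ → V → Finset V
  | 0, v => {v}
  | r + 1, v => (insert v (G.neighborFinset v)).biUnion (nb r)

/-- Standing hypotheses on the graph: degrees `≤ D`, a vertex of degree `≥ k` has only neighbours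
of degree `≤ k - 2`, and no component is a complete graph with `k` vertices. -/
structure Good (k D : ℕ) : Prop where
  hD : ∀ v, G.degree v ≤ D
  hO : ∀ v w, G.Adj v w → k ≤ G.degree v → G.degree w + 2 ≤ k
  hK : ∀ v, G.degree v + 1 = k → (∀ w, G.Adj v w → G.degree w + 1 = k) →
    ∃ u u', G.Adj v u ∧ G.Adj v u' ∧ u ≠ u' ∧ ¬ G.Adj u u'

/-- Vertices of degree `≤ k - 2`, and vertices of degree `k - 1` all of whose neighbours have degree
`k - 1`. -/
def Gd (k : ℕ) (v : V) : Prop :=
  G.degree v + 2 ≤ k ∨ (G.degree v + 1 = k ∧ ∀ w, G.Adj v w → G.degree w + 1 = k)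

/-- `v` lies in a component which is a complete graph with `k` vertices. -/
def InK (k : ℕ) (v : V) : Prop :=
  ∃ S : Finset V, v ∈ S ∧ S.card = k ∧ ∀ x ∈ S, ∀ y, G.Adj x y ↔ (y ∈ S ∧ x ≠ y)

/-- `χ` is a proper colouring with the colours `0, ..., D`. -/
structure Chi (D : ℕ) (χ : V → ℕ) : Prop where
  hle : ∀ v, χ v ≤ D
  hne : ∀ u v, G.Adj u v → χ u ≠ χ v

end

/-! ### Weights -/

/-- Probability that `j` is chosen from the set `A` of positions of the list `l`, for the weights
`y` of the colours. -/
noncomputable def pr {k : ℕ} (y : ℕ → ℝ) (l : Fin k → ℕ) (A : Finset (Fin k)) (j : Fin k) : ℝ :=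
  if A.Nonempty then (if j ∈ A then y (l j) / ∑ i ∈ A, y (l i) else 0) else 1 / k

section

variable {V : Type} [Fintype V] [DecidableEq V] (G : SimpleGraph V) [DecidableRel G.Adj]

/-- Weights of the choice functions. -/
noncomputable def wch {k : ℕ} (ℓ : V → Fin k → ℕ) (y : V → ℕ → ℝ) (v : V)
    (s : Finset (Fin k) → Fin k) : ℝ :=
  ∏ A : Finset (Fin k), pr (y v) (ℓ v) A (s A)

/-- Weights of the data of the vertex `v`: the time is uniform, the choices from the sets `A` are
independent with the probabilities `pr`. -/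
noncomputable def wt (R : ℕ) {k : ℕ} (ℓ : V → Fin k → ℕ) (y : V → ℕ → ℝ) (v : V) (a : Om R k) : ℝ :=
  (1 / (R : ℝ)) * wch ℓ y v a.2

/-- The weights used by the process: big vertices choose uniformly, the others with the weights
`y0` of the colours. -/
noncomputable def ys (k : ℕ) (y0 : ℕ → ℝ) (v : V) : ℕ → ℝ :=
  if k ≤ G.degree v then (fun _ => 1) else y0

/-- Expected size of the colour class `c`. -/
noncomputable def ExX (D : ℕ) (χ : V → ℕ) (R : ℕ) {k : ℕ} (ℓ : V → Fin k → ℕ) (y : V → ℕ → ℝ)
    (c : ℕ) : ℝ :=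
  ∑ v, Pr (wt R ℓ y) (fun ω : V → Om R k => cl G D χ ℓ ω v = c)

/-- The weights `exp (-lam * price)` of the colours, where the colour `e i` has the price `x i` and
all other colours have the price 0. -/
noncomputable def prc {p : ℕ} (e : Fin p → ℕ) (lam : ℝ) (x : Fin p → ℝ) (c : ℕ) : ℝ :=
  Real.exp (-lam * ∑ i, if e i = c then x i else 0)

/-- Lower bound for the probability of the patterns used for the recolourings. -/
noncomputable def ε1 (k D : ℕ) : ℝ := (1 / 4) ^ ((D + 1) ^ 2) * ((1 / (k : ℝ)) ^ (2 ^ k)) ^ (D + 1)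

/-- Lower bound for the probability of the patterns used for the slack. -/
noncomputable def δ4 (k D : ℕ) : ℝ := (1 / 4) ^ ((D + 1) ^ 2) * (1 / ((k : ℝ) + 1)) ^ (k + 2)

end

end Pool.Agent.Helper28.EQ
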