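import Pool.Agent.Helper28.EQ.Top

/-!
# Colourings of a graph without its components `K_k` extend

The argument is the one of `Top.lean` (helper1).
-/

namespace Pool.Agent.Helper28.EQ

open Finset TopH1

open Classical in
theorem extK (k : ℕ) (hk : 1 ≤ k) (V : Type) [Fintype V] (G : SimpleGraph V)
    (C : Type) (L : V → Finset C) (hL : ∀ v, (L v).card = k)
    (f1 : {v // ¬ InK G k v} → C) (hf1 : ∀ a, f1 a ∈ L a.1)
    (hf1p : ∀ a b : {v // ¬ InK G k v}, G.Adj a.1 b.1 → f1 a ≠ f1 b)
    (hf1c : ∀ c, (univ.filter fun a => f1 a = c).card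
      ≤ (Fintype.card {v // ¬ InK G k v} + k - 1) / k) :
    ∃ f : V → C, (∀ v, f v ∈ L v) ∧ (∀ u v, G.Adj u v → f u ≠ f v) ∧
        ∀ c, (univ.filter fun v => f v = c).card ≤ (Fintype.card V + k - 1) / k := by
  have hcardW : Fintype.card {v // ¬ InK G k v} = (univ.filter fun v => ¬ InK G k v).card :=
    Fintype.card_subtype _
  -- the cliques
  let H' : SimpleGraph V :=
    { Adj := fun x y => G.Adj x y ∧ InK G k x
      symm := ⟨fun x y h => ⟨h.1.symm, inK_adj G h.2 h.1⟩⟩
      loopless := ⟨fun x h => G.loopless.irrefl x h.1⟩ }
  have hH' : ∀ v, H'.degree v < (L v).card := by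
    intro v
    rw [hL v, ← SimpleGraph.card_neighborFinset_eq_degree]
    by_cases hv : InK G k v
    · refine lt_of_le_of_lt (Finset.card_le_card ?_) (inK_deg G hv)
      intro x hx
      rw [SimpleGraph.mem_neighborFinset] at hx ⊢
      exact hx.1
    · have : H'.neighborFinset v = ∅ := by
        rw [Finset.eq_empty_iff_forall_notMem]
        intro x hx
        rw [SimpleGraph.mem_neighborFinset] at hx
        exact hv hx.2
      rw [this, Finset.card_empty]
      omega
  obtain ⟨f2, hf2, hf2p⟩ := greedy_list H' L hH'
  refine ⟨fun v => if h : InK G k v then f2 v else f1 ⟨v, h⟩, ?_, ?_, ?_⟩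
  · intro v
    by_cases h : InK G k v
    · simp only [h, dif_pos]; exact hf2 v
    · simp only [h, dif_neg, not_false_iff]; exact hf1 ⟨v, h⟩
  · intro u v huv
    by_cases hu : InK G k u
    · have hv := inK_adj G hu huv
      simp only [hu, hv, dif_pos]
      exact hf2p u v ⟨huv, hu⟩
    · have hv : ¬ InK G k v := fun h => hu (inK_adj G h huv.symm)
      simp only [hu, hv, dif_neg, not_false_iff]
      exact hf1p ⟨u, hu⟩ ⟨v, hv⟩ huv
  · intro c
    have hsplit : (univ.filter fun v => (if h : InK G k v then f2 v else f1 ⟨v, h⟩) = c) =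
        (univ.filter fun v => InK G k v ∧ f2 v = c) ∪
          (univ.filter fun a : {v // ¬ InK G k v} => f1 a = c).map (Function.Embedding.subtype _) := by
      ext v
      simp only [Finset.mem_filter, Finset.mem_univ, true_and, Finset.mem_union, Finset.mem_map,
        Function.Embedding.subtype_apply]
      by_cases h : InK G k v
      · simp only [h, dif_pos, true_and]
        constructor
        · intro h1; exact Or.inl h1
        · rintro (h1 | ⟨a, _, h2⟩)
          · exact h1
          · exact absurd (h2 ▸ h) a.2
      · simp only [h, dif_neg, not_false_iff, false_and, false_or]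
        constructor
        · intro h1; exact ⟨⟨v, h⟩, h1, rfl⟩
        · rintro ⟨a, h1, h2⟩
          subst h2
          exact h1
    rw [hsplit]
    refine (Finset.card_union_le _ _).trans ?_
    rw [Finset.card_map]
    -- the cliques
    have hX : k * (univ.filter fun v => InK G k v ∧ f2 v = c).card
        ≤ (univ.filter fun v => InK G k v).card := by
      have h1 : ((univ.filter fun v => InK G k v ∧ f2 v = c).biUnion (cn G)).card
          = ∑ v ∈ univ.filter (fun v => InK G k v ∧ f2 v = c), (cn G v).card := by
        apply Finset.card_biUnion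
        intro v hv w hw hne
        rw [Finset.mem_coe, Finset.mem_filter] at hv hw
        refine cn_disj G hv.2.1 hw.2.1 hne ?_
        intro hadj
        exact hf2p v w ⟨hadj, hv.2.1⟩ (hv.2.2.trans hw.2.2.symm)
      have h2 : ∑ v ∈ univ.filter (fun v => InK G k v ∧ f2 v = c), (cn G v).card
          = k * (univ.filter fun v => InK G k v ∧ f2 v = c).card := by
        rw [Finset.sum_congr rfl (g := fun _ => k), Finset.sum_const, smul_eq_mul, mul_comm]
        intro v hv
        rw [Finset.mem_filter] at hv
        exact cn_card G hv.2.1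
      rw [← h2, ← h1]
      apply Finset.card_le_card
      intro x hx
      rw [Finset.mem_biUnion] at hx
      obtain ⟨v, hv, hxv⟩ := hx
      rw [Finset.mem_filter] at hv ⊢
      exact ⟨Finset.mem_univ _, cn_inK G hv.2.1 hxv⟩
    have htot : (univ.filter fun v => InK G k v).card + (univ.filter fun v => ¬ InK G k v).card
        = Fintype.card V := Finset.card_filter_add_card_filter_not (s := univ) (fun v => InK G k v)
    have hc := hf1c c
    have hX' : (univ.filter fun v => InK G k v ∧ f2 v = c).card
        ≤ (univ.filter fun v => InK G k v).card / k := by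
      rw [Nat.le_div_iff_mul_le (by omega), mul_comm]; exact hX
    calc _ ≤ (univ.filter fun v => InK G k v).card / k
          + (Fintype.card {v // ¬ InK G k v} + k - 1) / k := Nat.add_le_add hX' hc
      _ ≤ ((univ.filter fun v => InK G k v).card + (Fintype.card {v // ¬ InK G k v} + k - 1)) / k :=
          Nat.div_add_div_le_add_div
      _ = (Fintype.card V + k - 1) / k := by
          rw [hcardW]; congr 1; omega

end Pool.Agent.Helper28.EQ
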