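import Pool.Agent.Helper28.EQ.ProbA
import Pool.Agent.Helper28.EQ.ProbB

/-!
# Block EQ-RK: the rank of a vertex among iid times

PROOF. Let `S = insert v M`, `m = |M|`. Let `Inj` be the event that the times of the vertices of `S`
are different: its complement has probability `≤ (m+1)^2/R` (union bound over pairs; for `u ≠ u'`
`P(t u = t u') = 1/R`, e.g. by `Ex_coord`). For `x ∈ S` let `rank x` be the number of
`u ∈ S \ {x}` with `t u ≤ t x`. For every `i` the probability of `Inj ∧ rank x = i` does not depend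
on `x ∈ S` (exchange the times of `x` and `v`: `Ex_equiv`, the weights are constant), and for every
injective `t` exactly one `x ∈ S` has rank `i` (`0 ≤ i ≤ m`); at most one is enough. So
`P(Inj ∧ rank v = i) ≤ 1/(m+1)` and `P(Inj ∧ g ≤ rank v) ≤ (m+1-g)/(m+1)` for `g ≤ m+1`, and it is 0
for `g > m`.
-/

namespace Pool.Agent.Helper28.EQ

open Finset

variable {V : Type} [Fintype V] [DecidableEq V]

/-- the constant weights -/
theorem isW31 (R : ℕ) (hR : 0 < R) : IsW (fun (_ : V) (_ : Fin R) => 1 / (R : ℝ)) := by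
  have hR' : (R : ℝ) ≠ 0 := by exact_mod_cast hR.ne'
  refine ⟨fun _ _ => by positivity, fun _ => ?_⟩
  rw [Finset.sum_const, Finset.card_univ, Fintype.card_fin, nsmul_eq_mul]
  field_simp

open Classical in
theorem Pr_eq31 (R : ℕ) (P : (V → Fin R) → Prop) :
    Pr (fun (_ : V) (_ : Fin R) => 1 / (R : ℝ)) P =
      Ex (fun (_ : V) (_ : Fin R) => 1 / (R : ℝ)) (fun ω => if P ω then (1 : ℝ) else 0) := rfl

open Classical in
theorem Pr_pair31 (R : ℕ) (hR : 0 < R) {a b : V} (hab : a ≠ b) :
    Ex (fun (_ : V) (_ : Fin R) => 1 / (R : ℝ)) (fun t : V → Fin R => if t a = t b then (1 : ℝ) else 0)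
      = 1 / R := by
  rw [Ex_coord (isW31 R hR) a]
  have e : (fun ω : V → Fin R => ∑ c : Fin R, 1 / (R : ℝ) *
      (if (Function.update ω a c) a = (Function.update ω a c) b then (1 : ℝ) else 0)) =
      fun _ => 1 / (R : ℝ) := by
    funext ω
    simp only [Function.update_self, Function.update_of_ne hab.symm]
    rw [← Finset.mul_sum, Finset.sum_ite_eq' Finset.univ (ω b)]
    simp
  rw [e, Ex_const (isW31 R hR)]

/-- rank of `x` in `S` -/
def rk31 {R : ℕ} (S : Finset V) (x : V) (t : V → Fin R) : ℕ := ((S.erase x).filter fun u => t u ≤ t x).card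

/-- different times on `S` -/
def Inj31 {R : ℕ} (S : Finset V) (t : V → Fin R) : Prop := ∀ a ∈ S, ∀ b ∈ S, t a = t b → a = b

open Classical in
theorem notInj31 (R : ℕ) (hR : 0 < R) (S : Finset V) :
    Pr (fun (_ : V) (_ : Fin R) => 1 / (R : ℝ)) (fun t : V → Fin R => ¬ Inj31 S t)
      ≤ (S.card : ℝ) ^ 2 / R := by
  rw [Pr_eq31]
  refine le_trans (Ex_mono (isW31 R hR) (h := fun ω : V → Fin R =>
    ∑ a ∈ S, ∑ b ∈ S.erase a, if ω a = ω b then (1 : ℝ) else 0) ?_) ?_
  · intro ω
    have hnn : ∀ a ∈ S, (0 : ℝ) ≤ ∑ b ∈ S.erase a, if ω a = ω b then (1 : ℝ) else 0 := by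
      intro a _
      exact Finset.sum_nonneg fun b _ => by split_ifs <;> norm_num
    by_cases h : Inj31 S ω
    · rw [if_neg (not_not.2 h)]
      exact Finset.sum_nonneg hnn
    · rw [if_pos h]
      unfold Inj31 at h
      push Not at h
      obtain ⟨a, ha, b, hb, hab, hne⟩ := h
      have h2 : (∑ b ∈ S.erase a, if ω a = ω b then (1 : ℝ) else 0) ≤
          ∑ a ∈ S, ∑ b ∈ S.erase a, if ω a = ω b then (1 : ℝ) else 0 :=
        Finset.single_le_sum (f := fun a => ∑ b ∈ S.erase a, if ω a = ω b then (1 : ℝ) else 0) hnn ha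
      have h3 : (if ω a = ω b then (1 : ℝ) else 0) ≤
          ∑ b ∈ S.erase a, if ω a = ω b then (1 : ℝ) else 0 :=
        Finset.single_le_sum (f := fun b => if ω a = ω b then (1 : ℝ) else 0)
          (fun b _ => by split_ifs <;> norm_num) (Finset.mem_erase.2 ⟨hne.symm, hb⟩)
      rw [if_pos hab] at h3
      linarith
  rw [Ex_sum]
  have h2 : ∀ a ∈ S, Ex (fun (_ : V) (_ : Fin R) => 1 / (R : ℝ))
      (fun ω : V → Fin R => ∑ b ∈ S.erase a, if ω a = ω b then (1 : ℝ) else 0) ≤ (S.card : ℝ) * (1 / R) := by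
    intro a ha
    rw [Ex_sum]
    rw [Finset.sum_congr rfl (fun b hb => Pr_pair31 R hR (Finset.ne_of_mem_erase hb).symm),
      Finset.sum_const, nsmul_eq_mul]
    apply mul_le_mul_of_nonneg_right _ (by positivity)
    exact_mod_cast Finset.card_le_card (Finset.erase_subset a S)
  refine (Finset.sum_le_sum h2).trans ?_
  rw [Finset.sum_const, nsmul_eq_mul]
  apply le_of_eq
  ring

theorem swap_mem31 {S : Finset V} {x v : V} (hx : x ∈ S) (hv : v ∈ S) (u : V) :
    Equiv.swap x v u ∈ S ↔ u ∈ S := by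
  rcases eq_or_ne u x with rfl | h1
  · rw [Equiv.swap_apply_left]; exact ⟨fun _ => hx, fun _ => hv⟩
  · rcases eq_or_ne u v with rfl | h2
    · rw [Equiv.swap_apply_right]; exact ⟨fun _ => hv, fun _ => hx⟩
    · rw [Equiv.swap_apply_of_ne_of_ne h1 h2]

theorem inj_swap31 {R : ℕ} {S : Finset V} {x v : V} (hx : x ∈ S) (hv : v ∈ S) (t : V → Fin R) :
    Inj31 S (fun u => t (Equiv.swap x v u)) ↔ Inj31 S t := by
  constructor
  · intro h a ha b hb hab
    have h1 := h (Equiv.swap x v a) ((swap_mem31 hx hv a).2 ha) (Equiv.swap x v b)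
      ((swap_mem31 hx hv b).2 hb) (by simpa using hab)
    exact (Equiv.swap x v).injective h1
  · intro h a ha b hb hab
    have h1 := h (Equiv.swap x v a) ((swap_mem31 hx hv a).2 ha) (Equiv.swap x v b)
      ((swap_mem31 hx hv b).2 hb) hab
    exact (Equiv.swap x v).injective h1

theorem rk_swap31 {R : ℕ} {S : Finset V} {x v : V} (hx : x ∈ S) (hv : v ∈ S) (t : V → Fin R) :
    rk31 S x (fun u => t (Equiv.swap x v u)) = rk31 S v t := by
  unfold rk31
  apply Finset.card_bij' (fun u _ => Equiv.swap x v u) (fun u _ => Equiv.swap x v u)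
  · intro u hu
    rw [Finset.mem_filter, Finset.mem_erase] at hu ⊢
    obtain ⟨⟨h1, h2⟩, h3⟩ := hu
    simp only [Equiv.swap_apply_left] at h3
    refine ⟨⟨?_, (swap_mem31 hx hv u).2 h2⟩, h3⟩
    intro h
    apply h1
    have := congrArg (Equiv.swap x v) h
    rwa [Equiv.swap_apply_self, Equiv.swap_apply_right] at this
  · intro u hu
    rw [Finset.mem_filter, Finset.mem_erase] at hu ⊢
    obtain ⟨⟨h1, h2⟩, h3⟩ := hu
    simp only [Equiv.swap_apply_left, Equiv.swap_apply_self]
    refine ⟨⟨?_, (swap_mem31 hx hv u).2 h2⟩, h3⟩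
    intro h
    apply h1
    have := congrArg (Equiv.swap x v) h
    rwa [Equiv.swap_apply_self, Equiv.swap_apply_left] at this
  · intro u _
    exact Equiv.swap_apply_self x v u
  · intro u _
    exact Equiv.swap_apply_self x v u

open Classical in
theorem sym31 (R : ℕ) {S : Finset V} {x v : V} (hx : x ∈ S) (hv : v ∈ S) (i : ℕ) :
    Ex (fun (_ : V) (_ : Fin R) => 1 / (R : ℝ))
      (fun t : V → Fin R => if Inj31 S t ∧ rk31 S x t = i then (1 : ℝ) else 0) =
    Ex (fun (_ : V) (_ : Fin R) => 1 / (R : ℝ))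
      (fun t : V → Fin R => if Inj31 S t ∧ rk31 S v t = i then (1 : ℝ) else 0) := by
  have h := Ex_equiv (w := fun (_ : V) (_ : Fin R) => 1 / (R : ℝ))
    (Equiv.arrowCongr (Equiv.swap x v) (Equiv.refl (Fin R))) (fun ω => rfl)
    (fun t : V → Fin R => if Inj31 S t ∧ rk31 S x t = i then (1 : ℝ) else 0)
  rw [← h]
  congr 1
  funext t
  have e : (Equiv.arrowCongr (Equiv.swap x v) (Equiv.refl (Fin R))) t =
      fun u => t (Equiv.swap x v u) := by
    funext u
    simp [Equiv.arrowCongr]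
  rw [e]
  simp only [inj_swap31 hx hv, rk_swap31 hx hv]

theorem rk_lt31 {R : ℕ} {S : Finset V} {t : V → Fin R} {x y : V} (hx : x ∈ S)
    (hy : y ∈ S) (hxy : t x < t y) : rk31 S x t < rk31 S y t := by
  unfold rk31
  apply Finset.card_lt_card
  rw [Finset.ssubset_iff_of_subset]
  · refine ⟨x, ?_, ?_⟩
    · rw [Finset.mem_filter, Finset.mem_erase]
      exact ⟨⟨fun h => by rw [h] at hxy; exact lt_irrefl _ hxy, hx⟩, hxy.le⟩
    · rw [Finset.mem_filter, Finset.mem_erase]
      exact fun h => h.1.1 rfl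
  · intro u hu
    rw [Finset.mem_filter, Finset.mem_erase] at hu ⊢
    refine ⟨⟨?_, hu.1.2⟩, hu.2.trans hxy.le⟩
    rintro rfl
    exact absurd hxy (not_lt.2 hu.2)

open Classical in
theorem one31 (R : ℕ) (hR : 0 < R) {S : Finset V} {v : V} (hv : v ∈ S) (i : ℕ) :
    Ex (fun (_ : V) (_ : Fin R) => 1 / (R : ℝ))
      (fun t : V → Fin R => if Inj31 S t ∧ rk31 S v t = i then (1 : ℝ) else 0) ≤ 1 / (S.card : ℝ) := by
  have hS : (0 : ℝ) < S.card := by exact_mod_cast Finset.card_pos.2 ⟨v, hv⟩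
  rw [le_div_iff₀ hS, mul_comm]
  have h1 : (S.card : ℝ) * Ex (fun (_ : V) (_ : Fin R) => 1 / (R : ℝ))
      (fun t : V → Fin R => if Inj31 S t ∧ rk31 S v t = i then (1 : ℝ) else 0) =
      ∑ x ∈ S, Ex (fun (_ : V) (_ : Fin R) => 1 / (R : ℝ))
      (fun t : V → Fin R => if Inj31 S t ∧ rk31 S x t = i then (1 : ℝ) else 0) := by
    rw [Finset.sum_congr rfl (fun x hx => sym31 R hx hv i), Finset.sum_const, nsmul_eq_mul]
  rw [h1, ← Ex_sum]
  have h2 := Ex_const (V := V) (isW31 (V := V) R hR) 1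
  refine le_trans ?_ (le_of_eq h2)
  apply Ex_mono (isW31 R hR)
  intro t
  by_cases hI : Inj31 S t
  · by_cases hex : ∃ x ∈ S, rk31 S x t = i
    · obtain ⟨x, hx, hxi⟩ := hex
      rw [Finset.sum_eq_single_of_mem x hx]
      · split_ifs <;> norm_num
      · intro y hy hyx
        rw [if_neg]
        rintro ⟨_, hyi⟩
        rcases lt_trichotomy (t x) (t y) with h | h | h
        · have := rk_lt31 hx hy h
          omega
        · exact hyx (hI x hx y hy h).symm
        · have := rk_lt31 hy hx h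
          omega
    · push Not at hex
      rw [Finset.sum_eq_zero]
      · norm_num
      · intro x hx
        rw [if_neg]
        rintro ⟨_, h⟩
        exact hex x hx h
  · rw [Finset.sum_eq_zero]
    · norm_num
    · intro x _
      rw [if_neg]
      rintro ⟨h, _⟩
      exact hI h

theorem rank_le (R : ℕ) (hR : 0 < R) (v : V) (M : Finset V) (hv : v ∉ M) (g : ℕ) :
    Pr (fun (_ : V) (_ : Fin R) => 1 / (R : ℝ))
        (fun t : V → Fin R => g ≤ (M.filter fun u => t u ≤ t v).card)
      ≤ φ M.card g + ((M.card : ℝ) + 1) ^ 2 / R := by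
  classical
  set S := insert v M with hS
  have hvS : v ∈ S := Finset.mem_insert_self v M
  have hcard : S.card = M.card + 1 := Finset.card_insert_of_notMem hv
  have hrk : ∀ t : V → Fin R, rk31 S v t = (M.filter fun u => t u ≤ t v).card := by
    intro t
    unfold rk31
    rw [hS, Finset.erase_insert hv]
  have hrk2 : ∀ t : V → Fin R, rk31 S v t ≤ M.card := by
    intro t
    rw [hrk]
    exact Finset.card_filter_le _ _
  have h1 : Pr (fun (_ : V) (_ : Fin R) => 1 / (R : ℝ))
        (fun t : V → Fin R => g ≤ (M.filter fun u => t u ≤ t v).card) ≤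
      Pr (fun (_ : V) (_ : Fin R) => 1 / (R : ℝ)) (fun t : V → Fin R => Inj31 S t ∧ g ≤ rk31 S v t) +
      Pr (fun (_ : V) (_ : Fin R) => 1 / (R : ℝ)) (fun t : V → Fin R => ¬ Inj31 S t) := by
    apply Pr_or_le (isW31 R hR)
    intro t ht
    by_cases h : Inj31 S t
    · left
      exact ⟨h, by rw [hrk]; exact ht⟩
    · right
      exact h
  have h2 := notInj31 R hR S
  have h3 : Pr (fun (_ : V) (_ : Fin R) => 1 / (R : ℝ))
      (fun t : V → Fin R => Inj31 S t ∧ g ≤ rk31 S v t) ≤ φ M.card g := by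
    have h4 : Pr (fun (_ : V) (_ : Fin R) => 1 / (R : ℝ))
        (fun t : V → Fin R => Inj31 S t ∧ g ≤ rk31 S v t) ≤
        Ex (fun (_ : V) (_ : Fin R) => 1 / (R : ℝ)) (fun t : V → Fin R =>
          ∑ i ∈ Finset.Icc g M.card, if Inj31 S t ∧ rk31 S v t = i then (1 : ℝ) else 0) := by
      rw [Pr_eq31]
      apply Ex_mono (isW31 R hR)
      intro t
      have hnn : ∀ i ∈ Finset.Icc g M.card,
          (0 : ℝ) ≤ if Inj31 S t ∧ rk31 S v t = i then (1 : ℝ) else 0 := by
        intro i _
        split_ifs <;> norm_num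
      split_ifs with h
      · have h5 := Finset.single_le_sum (f := fun i => if Inj31 S t ∧ rk31 S v t = i then (1 : ℝ) else 0)
          hnn (Finset.mem_Icc.2 ⟨h.2, hrk2 t⟩)
        simp only [h.1, true_and, if_true] at h5 ⊢
        exact h5
      · exact Finset.sum_nonneg hnn
    refine h4.trans ?_
    rw [Ex_sum]
    refine (Finset.sum_le_sum (fun i _ => one31 R hR hvS i)).trans ?_
    rw [Finset.sum_const, nsmul_eq_mul, Nat.card_Icc, hcard]
    unfold φ
    push_cast
    have hM : (0 : ℝ) < (M.card : ℝ) + 1 := by positivity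
    rcases le_or_gt g (M.card + 1) with hg | hg
    · refine le_trans (le_of_eq ?_) (le_max_right _ _)
      rw [Nat.cast_sub hg]
      push_cast
      field_simp
    · rw [Nat.sub_eq_zero_of_le hg.le]
      simp
  rw [hcard] at h2
  push_cast at h2
  linarith

end Pool.Agent.Helper28.EQ
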