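import Pool.Agent.Helper28.EQ.Wt
import Pool.Agent.Helper28.EQ.Rank
import Pool.Agent.Helper28.EQ.Big

/-!
# Block EQ-KY: the key inequality

PROOF. Let `B` / `M` be the sets of the big / not big neighbours of `v`, `|B| + |M| = d(v) < k`. A big
neighbour `u` has the colour `ℓ u (pick (s u) univ)` (`av_big`). If `T ⊆ bk ω v` then, with
`g(s) = |T \ {colours of B}|`, at least `g(s)` of the `u ∈ M` have `stg u < stg v`, so `t u ≤ t v`
(`le_of_stg_lt`). `Ex_fubini` (times and choice functions are independent: `wt = (1/R) * wch`),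
`rank_le` for fixed `s`, then `big_le` with `P u a = ℓ u (pick a univ)`
(`hP`: `sum_wch_pick`, `y u = 1`, `ℓ u` injective). `(|M|+1)^2/R ≤ (D+1)^2/R`.
-/

namespace Pool.Agent.Helper28.EQ

open Finset

variable {V : Type} [Fintype V] [DecidableEq V] (G : SimpleGraph V) [DecidableRel G.Adj]
  {k D R : ℕ} {χ : V → ℕ} (ℓ : V → Fin k → ℕ) (y : V → ℕ → ℝ)

theorem ky_fubini (P : (V → Om R k) → Prop) :
    Pr (wt R ℓ y) P = Ex (wch ℓ y) (fun s => Pr (fun (_ : V) (_ : Fin R) => 1 / (R : ℝ))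
      (fun t => P (fun v => (t v, s v)))) := by
  classical
  unfold Pr
  exact Ex_fubini (fun (_ : V) (_ : Fin R) => 1 / (R : ℝ)) (wch ℓ y) (fun ω => if P ω then 1 else 0)

theorem ky_big (hk : 0 < k) (hinj : ∀ v, Function.Injective (ℓ v)) (hy : ∀ v c, 0 < y v c)
    (u : V) (hu : ∀ c, y u c = 1) (c : ℕ) :
    ∑ s : Finset (Fin k) → Fin k, wch ℓ y u s * (if ℓ u (pick s univ) = c then 1 else 0) ≤
      1 / (k : ℝ) := by
  rw [sum_wch_pick ℓ y hk hy u univ (fun j => if ℓ u j = c then 1 else 0)]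
  have hk' : (0 : ℝ) < k := by exact_mod_cast hk
  have hne : (univ : Finset (Fin k)).Nonempty := ⟨⟨0, hk⟩, mem_univ _⟩
  have h1 : ∀ j : Fin k, pr (y u) (ℓ u) univ j = 1 / (k : ℝ) := by
    intro j
    unfold pr
    rw [if_pos hne, if_pos (mem_univ j)]
    simp only [hu, sum_const, card_univ, Fintype.card_fin, nsmul_eq_mul, mul_one]
  simp only [h1]
  rw [← mul_sum]
  have h2 : ∑ j : Fin k, (if ℓ u j = c then (1 : ℝ) else 0) ≤ 1 := by
    rw [sum_boole]
    have : (univ.filter fun j : Fin k => ℓ u j = c).card ≤ 1 := by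
      rw [card_le_one]
      intro a ha b hb
      rw [mem_filter] at ha hb
      exact hinj u (ha.2.trans hb.2.symm)
    exact_mod_cast this
  calc 1 / (k : ℝ) * ∑ j : Fin k, (if ℓ u j = c then (1 : ℝ) else 0) ≤ 1 / (k : ℝ) * 1 := by gcongr
    _ = 1 / (k : ℝ) := mul_one _

theorem key_le (hD : ∀ v, G.degree v ≤ D) (hχ : ∀ v, χ v ≤ D) (hR : 0 < R)
    (hinj : ∀ v, Function.Injective (ℓ v)) (hy : ∀ v c, 0 < y v c)
    (hbig : ∀ u, k ≤ G.degree u → ∀ c, y u c = 1) (v : V) (hv : G.degree v < k) (T : Finset ℕ) :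
    Pr (wt R ℓ y) (fun ω : V → Om R k => T ⊆ bk G D χ ℓ ω v)
      ≤ φ (G.degree v) T.card + ((D : ℝ) + 1) ^ 2 / R := by
  classical
  have hk : 0 < k := by omega
  obtain ⟨B, hB⟩ : ∃ B, B = (G.neighborFinset v).filter (fun u => k ≤ G.degree u) := ⟨_, rfl⟩
  obtain ⟨M, hM⟩ : ∃ M, M = (G.neighborFinset v).filter (fun u => ¬ k ≤ G.degree u) := ⟨_, rfl⟩
  have hcard : B.card + M.card = G.degree v := by
    rw [hB, hM, card_filter_add_card_filter_not, G.card_neighborFinset_eq_degree]
  have hvM : v ∉ M := by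
    rw [hM, mem_filter, SimpleGraph.mem_neighborFinset]
    exact fun h => G.irrefl h.1
  have hZ : ∀ ω : V → Om R k, T ⊆ bk G D χ ℓ ω v →
      (T \ B.image (fun u => ℓ u (pick (ω u).2 univ))).card ≤
        (M.filter fun u => (ω u).1 ≤ (ω v).1).card := by
    intro ω hT
    have hsub : T \ B.image (fun u => ℓ u (pick (ω u).2 univ)) ⊆
        (M.filter fun u => (ω u).1 ≤ (ω v).1).image (fun u => cl G D χ ℓ ω u) := by
      intro c hc
      rw [mem_sdiff] at hc
      obtain ⟨u, hu1, hu2, hu3⟩ := (mem_bk G ℓ ω v c).mp (hT hc.1)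
      have hun : u ∈ G.neighborFinset v := by
        rw [SimpleGraph.mem_neighborFinset]; exact hu1.symm
      rw [mem_image]
      refine ⟨u, ?_, hu3⟩
      have hub : ¬ k ≤ G.degree u := by
        intro h
        apply hc.2
        rw [mem_image]
        refine ⟨u, ?_, ?_⟩
        · rw [hB, mem_filter]; exact ⟨hun, h⟩
        · rw [← hu3, cl_eq, av_big G ℓ ω u h]
      rw [mem_filter, hM, mem_filter]
      exact ⟨⟨hun, hub⟩, le_of_stg_lt G (not_le.mp hub) hv hu2 hχ⟩
    exact (card_le_card hsub).trans card_image_le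
  have hW := isW_wt (V := V) (R := R) ℓ y hR hk hy
  have hWc := isW_wch (V := V) ℓ y hk hy
  have hWt := isW_time (V := V) hR
  refine (Pr_mono hW hZ).trans ?_
  rw [ky_fubini]
  have h1 : ∀ s : V → (Finset (Fin k) → Fin k),
      Pr (fun (_ : V) (_ : Fin R) => 1 / (R : ℝ)) (fun t =>
        (T \ B.image (fun u => ℓ u (pick (s u) univ))).card ≤ (M.filter fun u => t u ≤ t v).card) ≤
      φ M.card (T \ B.image (fun u => ℓ u (pick (s u) univ))).card + ((D : ℝ) + 1) ^ 2 / R := by
    intro s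
    refine (rank_le R hR v M hvM _).trans ?_
    have h2 : M.card ≤ D := by have := hD v; omega
    have h3 : (M.card : ℝ) ≤ D := by exact_mod_cast h2
    gcongr
  refine (Ex_mono hWc h1).trans ?_
  rw [Ex_add, Ex_const hWc]
  have h4 := big_le hWc k B (fun u s => ℓ u (pick s univ)) (fun u hu c => by
    rw [hB, mem_filter] at hu
    exact ky_big ℓ y hk hinj hy u (hbig u hu.2) c) M.card (by omega) T
  rw [show M.card + B.card = G.degree v by omega] at h4
  linarith

/-- The same for the number of neighbours with time at most the time of `v`; all neighbours of `v`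
are not big. -/
theorem rank_nbr (hD : ∀ v, G.degree v ≤ D) (hR : 0 < R) (hk : 0 < k) (hy : ∀ v c, 0 < y v c)
    (v : V) (g : ℕ) :
    Pr (wt R ℓ y) (fun ω : V → Om R k =>
        g ≤ ((G.neighborFinset v).filter fun u => (ω u).1 ≤ (ω v).1).card)
      ≤ φ (G.degree v) g + ((D : ℝ) + 1) ^ 2 / R := by
  classical
  have hWc := isW_wch (V := V) ℓ y hk hy
  rw [ky_fubini]
  have h1 : ∀ s : V → (Finset (Fin k) → Fin k),
      Pr (fun (_ : V) (_ : Fin R) => 1 / (R : ℝ)) (fun t =>
        g ≤ ((G.neighborFinset v).filter fun u => t u ≤ t v).card) ≤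
      φ (G.degree v) g + ((D : ℝ) + 1) ^ 2 / R := by
    intro s
    refine (rank_le R hR v (G.neighborFinset v) (by simp) _).trans ?_
    rw [G.card_neighborFinset_eq_degree]
    have h3 : (G.degree v : ℝ) ≤ D := by exact_mod_cast hD v
    gcongr
  refine (Ex_mono hWc h1).trans ?_
  rw [Ex_const hWc]

end Pool.Agent.Helper28.EQ
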