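import Pool.Agent.Helper28.EQ.Proc

/-!
# Block EQ-LO: locality of the process, balls

PROOFS. `nb_card`, `nb_adj`, `nb_symm`: induction on `r` (for the symmetry show first
`nb (r+1) v = (nb r v).biUnion (fun u => insert u (N(u)))`). `nb_overlap`: if `x` lies in both
balls, `u ∈ nb r x` with `x ∈ nb r v`. `cl_local`: induction on `r`: the colour of `v` is a function
of its own data and of the colours of the neighbours of smaller stage, which have stage `≤ r - 1`
and are in balls `nb (r-1) u ⊆ nb r v` (`cl_eq`, `mem_bk`). `cl_dep`: every stage is at most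
`R (D+1)`. `av_update`: the neighbours of smaller stage (and everything they depend on) are
different from `v`: induction on the stage.
-/

namespace Pool.Agent.Helper28.EQ

open Finset

variable {V : Type} [Fintype V] [DecidableEq V] (G : SimpleGraph V) [DecidableRel G.Adj]
  {k D R : ℕ} {χ : V → ℕ} (ℓ : V → Fin k → ℕ)

theorem nb_self (r : ℕ) (v : V) : v ∈ nb G r v := by
  induction r with
  | zero => exact mem_singleton_self v
  | succ r ih => exact mem_biUnion.mpr ⟨v, mem_insert_self _ _, ih⟩

theorem nb_adj (r : ℕ) {v u : V} (h : G.Adj v u) : nb G r u ⊆ nb G (r + 1) v := by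
  intro x hx
  exact mem_biUnion.mpr ⟨u, mem_insert_of_mem ((G.mem_neighborFinset v u).mpr h), hx⟩

theorem nb_mono {r r' : ℕ} (h : r ≤ r') (v : V) : nb G r v ⊆ nb G r' v := by
  induction h with
  | refl => exact Subset.refl _
  | step _ ih =>
    refine ih.trans fun x hx => ?_
    exact mem_biUnion.mpr ⟨v, mem_insert_self _ _, hx⟩

theorem nb_succ52 (r : ℕ) (v : V) :
    nb G (r + 1) v = (nb G r v).biUnion (fun u => insert u (G.neighborFinset u)) := by
  induction r generalizing v with
  | zero =>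
    ext x
    simp [nb]
  | succ r ih =>
    have h1 : nb G (r + 1 + 1) v = (insert v (G.neighborFinset v)).biUnion (nb G (r + 1)) := rfl
    have h2 : nb G (r + 1) v = (insert v (G.neighborFinset v)).biUnion (nb G r) := rfl
    ext x
    rw [h1, h2, mem_biUnion, mem_biUnion]
    constructor
    · rintro ⟨u, hu, hx⟩
      rw [ih u, mem_biUnion] at hx
      obtain ⟨w, hw, hxw⟩ := hx
      exact ⟨w, mem_biUnion.mpr ⟨u, hu, hw⟩, hxw⟩
    · rintro ⟨w, hw, hxw⟩
      obtain ⟨u, hu, hw'⟩ := mem_biUnion.mp hw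
      refine ⟨u, hu, ?_⟩
      rw [ih u]
      exact mem_biUnion.mpr ⟨w, hw', hxw⟩

theorem nb_symm {r : ℕ} {u v : V} (h : u ∈ nb G r v) : v ∈ nb G r u := by
  induction r generalizing u v with
  | zero =>
    rw [nb, mem_singleton] at h
    rw [h, nb]
    exact mem_singleton_self v
  | succ r ih =>
    obtain ⟨w, hw, huw⟩ := mem_biUnion.mp h
    rw [nb_succ52]
    refine mem_biUnion.mpr ⟨w, ih huw, ?_⟩
    rcases mem_insert.mp hw with h1 | h1
    · rw [h1]; exact mem_insert_self _ _
    · refine mem_insert_of_mem ?_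
      rw [SimpleGraph.mem_neighborFinset] at h1 ⊢
      exact h1.symm

theorem nb_one (v : V) : nb G 1 v = insert v (G.neighborFinset v) := by
  ext x
  simp [nb]

theorem nb_card (hD : ∀ v, G.degree v ≤ D) (r : ℕ) (v : V) : (nb G r v).card ≤ (D + 1) ^ r := by
  induction r generalizing v with
  | zero => simp [nb]
  | succ r ih =>
    have h1 : (insert v (G.neighborFinset v)).card ≤ D + 1 := by
      refine (card_insert_le _ _).trans ?_
      rw [SimpleGraph.card_neighborFinset_eq_degree]
      exact Nat.succ_le_succ (hD v)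
    calc (nb G (r + 1) v).card
        ≤ (insert v (G.neighborFinset v)).card * (D + 1) ^ r :=
          card_biUnion_le_card_mul _ _ _ fun u _ => ih u
      _ ≤ (D + 1) * (D + 1) ^ r := Nat.mul_le_mul_right _ h1
      _ = (D + 1) ^ (r + 1) := by rw [pow_succ]; ring

theorem nb_overlap (hD : ∀ v, G.degree v ≤ D) (r : ℕ) (v : V) :
    (univ.filter fun u => ¬ Disjoint (nb G r v) (nb G r u)).card ≤ (D + 1) ^ (2 * r) := by
  have h1 : (univ.filter fun u => ¬ Disjoint (nb G r v) (nb G r u)) ⊆
      (nb G r v).biUnion (nb G r) := by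
    intro u hu
    rw [mem_filter, not_disjoint_iff] at hu
    obtain ⟨_, x, hx, hx'⟩ := hu
    exact mem_biUnion.mpr ⟨x, hx, nb_symm G hx'⟩
  calc _ ≤ ((nb G r v).biUnion (nb G r)).card := card_le_card h1
    _ ≤ (nb G r v).card * (D + 1) ^ r := card_biUnion_le_card_mul _ _ _ fun u _ => nb_card G hD r u
    _ ≤ (D + 1) ^ r * (D + 1) ^ r := Nat.mul_le_mul_right _ (nb_card G hD r v)
    _ = (D + 1) ^ (2 * r) := by rw [← pow_add, two_mul]

theorem av_congr52 {ω ω' : V → Om R k} {v : V}
    (h1 : ∀ u, G.Adj u v → (stg G D χ ω u < stg G D χ ω v ↔ stg G D χ ω' u < stg G D χ ω' v))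
    (h2 : ∀ u, G.Adj u v → stg G D χ ω u < stg G D χ ω v →
      cl G D χ ℓ ω u = cl G D χ ℓ ω' u) : av G D χ ℓ ω v = av G D χ ℓ ω' v := by
  have hb : ∀ c, c ∈ bk G D χ ℓ ω v ↔ c ∈ bk G D χ ℓ ω' v := by
    intro c
    rw [mem_bk, mem_bk]
    constructor
    · rintro ⟨u, ha, hs, hc⟩
      exact ⟨u, ha, (h1 u ha).mp hs, by rw [← h2 u ha hs]; exact hc⟩
    · rintro ⟨u, ha, hs, hc⟩
      have hs' := (h1 u ha).mpr hs
      exact ⟨u, ha, hs', by rw [h2 u ha hs']; exact hc⟩
  ext j
  rw [mem_av, mem_av, hb]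

omit [DecidableEq V] in
theorem stg_congr52 {ω ω' : V → Om R k} {v : V} (h : (ω v).1 = (ω' v).1) :
    stg G D χ ω v = stg G D χ ω' v := by
  unfold stg
  rw [h]

theorem cl_local (r : ℕ) (v : V) (ω ω' : V → Om R k) (h : ∀ u ∈ nb G r v, ω u = ω' u)
    (hs : stg G D χ ω v ≤ r) : cl G D χ ℓ ω v = cl G D χ ℓ ω' v := by
  induction r generalizing v with
  | zero =>
    have hv : ω v = ω' v := h v (nb_self G 0 v)
    have hst : stg G D χ ω v = stg G D χ ω' v :=
      stg_congr52 G (ω := ω) (ω' := ω') (v := v) (by rw [hv])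
    have hs' : stg G D χ ω' v ≤ 0 := by rw [← hst]; exact hs
    rw [cl_eq, cl_eq, av_congr52 G ℓ (ω := ω) (ω' := ω') (v := v), hv]
    · intro u _
      constructor
      · intro hlt; omega
      · intro hlt; omega
    · intro u _ hlt
      omega
  | succ r ih =>
    have hv : ω v = ω' v := h v (nb_self G _ v)
    have hu : ∀ u, G.Adj u v → ω u = ω' u := fun u ha =>
      h u (nb_adj G r ha.symm (nb_self G r u))
    rw [cl_eq, cl_eq, av_congr52 G ℓ (ω := ω) (ω' := ω') (v := v), hv]
    · intro u ha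
      rw [stg_congr52 G (ω := ω) (ω' := ω') (v := u) (by rw [hu u ha]),
        stg_congr52 G (ω := ω) (ω' := ω') (v := v) (by rw [hv])]
    · intro u ha hlt
      exact ih u (fun w hw => h w (nb_adj G r ha.symm hw)) (by omega)

theorem cl_dep (hχ : ∀ v, χ v ≤ D) (v : V) :
    Dep (fun ω : V → Om R k => cl G D χ ℓ ω v) (nb G (R * (D + 1)) v) := by
  intro ω ω' h
  refine cl_local G ℓ _ v ω ω' h ?_
  unfold stg
  split_ifs
  · exact Nat.zero_le _
  · have h1 : ((ω v).1 : ℕ) + 1 ≤ R := (ω v).1.isLt
    have h2 := hχ v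
    calc 1 + ((ω v).1 : ℕ) * (D + 1) + χ v ≤ ((ω v).1 + 1) * (D + 1) := by
          rw [Nat.succ_mul]; omega
      _ ≤ R * (D + 1) := Nat.mul_le_mul_right _ h1

/-- The available set of `v` does not depend on the choice function of `v`. -/
theorem av_update (ω : V → Om R k) (v : V) (s : Finset (Fin k) → Fin k) :
    av G D χ ℓ (Function.update ω v ((ω v).1, s)) v = av G D χ ℓ ω v := by
  set ω' : V → Om R k := Function.update ω v ((ω v).1, s) with hω'
  have hst : ∀ u, stg G D χ ω' u = stg G D χ ω u := by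
    intro u
    apply stg_congr52
    by_cases hu : u = v
    · rw [hu, hω', Function.update_self]
    · rw [hω', Function.update_of_ne hu]
  have key : ∀ n u, stg G D χ ω u = n → stg G D χ ω u < stg G D χ ω v →
      cl G D χ ℓ ω' u = cl G D χ ℓ ω u := by
    intro n
    induction n using Nat.strong_induction_on with
    | _ n ih =>
      intro u hn hlt
      have huv : u ≠ v := by rintro rfl; exact lt_irrefl _ hlt
      have h1 : ω' u = ω u := by rw [hω', Function.update_of_ne huv]
      rw [cl_eq, cl_eq, av_congr52 G ℓ (ω := ω') (ω' := ω) (v := u), h1]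
      · intro w _
        rw [hst, hst]
      · intro w _ hw
        rw [hst, hst] at hw
        exact ih _ (by rw [← hn]; exact hw) w rfl (hw.trans hlt)
  apply av_congr52
  · intro u _
    rw [hst, hst]
  · intro u _ hlt
    rw [hst, hst] at hlt
    exact key _ u rfl hlt

end Pool.Agent.Helper28.EQ
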