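import Pool.Agent.Helper28.EQ.Defs

/-!
# Block EQ-PA: simple properties of the product expectation

PROOFS. `Ex_const`: `∑ ω, ∏ v, w v (ω v) = ∏ v, ∑ a, w v a = 1` (`Finset.prod_univ_sum`,
`Fintype.piFinset_univ`). The rest: linearity and monotonicity of finite sums.
-/

namespace Pool.Agent.Helper28.EQ

open Finset

variable {V α : Type} [Fintype V] [DecidableEq V] [Fintype α] {w : V → α → ℝ}

theorem Ex_const (hw : IsW w) (c : ℝ) : Ex w (fun _ => c) = c := by
  unfold Ex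
  rw [← Finset.sum_mul]
  have h : ∑ ω : V → α, ∏ v, w v (ω v) = 1 := by
    have h1 := Finset.prod_univ_sum (fun _ : V => (univ : Finset α)) (fun v a => w v a)
    rw [Fintype.piFinset_univ] at h1
    rw [← h1]
    exact Finset.prod_eq_one fun v _ => hw.2 v
  rw [h, one_mul]

theorem Ex_add (w : V → α → ℝ) (g h : (V → α) → ℝ) :
    Ex w (fun ω => g ω + h ω) = Ex w g + Ex w h := by
  unfold Ex
  rw [← Finset.sum_add_distrib]
  exact Finset.sum_congr rfl fun ω _ => by ring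

theorem Ex_sub (w : V → α → ℝ) (g h : (V → α) → ℝ) :
    Ex w (fun ω => g ω - h ω) = Ex w g - Ex w h := by
  unfold Ex
  rw [← Finset.sum_sub_distrib]
  exact Finset.sum_congr rfl fun ω _ => by ring

theorem Ex_mul_left (w : V → α → ℝ) (c : ℝ) (g : (V → α) → ℝ) :
    Ex w (fun ω => c * g ω) = c * Ex w g := by
  unfold Ex
  rw [Finset.mul_sum]
  exact Finset.sum_congr rfl fun ω _ => by ring

theorem Ex_sum (w : V → α → ℝ) {ι : Type*} (s : Finset ι) (g : ι → (V → α) → ℝ) :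
    Ex w (fun ω => ∑ i ∈ s, g i ω) = ∑ i ∈ s, Ex w (g i) := by
  unfold Ex
  rw [Finset.sum_comm]
  exact Finset.sum_congr rfl fun ω _ => Finset.mul_sum _ _ _

theorem Ex_mono (hw : IsW w) {g h : (V → α) → ℝ} (hgh : ∀ ω, g ω ≤ h ω) : Ex w g ≤ Ex w h :=
  Finset.sum_le_sum fun ω _ =>
    mul_le_mul_of_nonneg_left (hgh ω) (Finset.prod_nonneg fun v _ => hw.1 v _)

/-- It is enough to compare where the weight is positive. -/
theorem Ex_mono' (hw : IsW w) {g h : (V → α) → ℝ}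
    (hgh : ∀ ω, (∀ v, w v (ω v) ≠ 0) → g ω ≤ h ω) : Ex w g ≤ Ex w h := by
  refine Finset.sum_le_sum fun ω _ => ?_
  by_cases h0 : ∀ v, w v (ω v) ≠ 0
  · exact mul_le_mul_of_nonneg_left (hgh ω h0) (Finset.prod_nonneg fun v _ => hw.1 v _)
  · push Not at h0
    obtain ⟨v, hv⟩ := h0
    rw [Finset.prod_eq_zero (Finset.mem_univ v) hv, zero_mul, zero_mul]

theorem Ex_congr' {w : V → α → ℝ} {g h : (V → α) → ℝ}
    (hgh : ∀ ω, (∀ v, w v (ω v) ≠ 0) → g ω = h ω) : Ex w g = Ex w h := by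
  refine Finset.sum_congr rfl fun ω _ => ?_
  by_cases h0 : ∀ v, w v (ω v) ≠ 0
  · rw [hgh ω h0]
  · push Not at h0
    obtain ⟨v, hv⟩ := h0
    rw [Finset.prod_eq_zero (Finset.mem_univ v) hv, zero_mul, zero_mul]

theorem Pr_nonneg (hw : IsW w) (P : (V → α) → Prop) : 0 ≤ Pr w P := by
  classical
  have h := Ex_mono hw (g := fun _ => (0 : ℝ)) (h := fun ω => if P ω then (1 : ℝ) else 0)
    (fun ω => by split_ifs <;> norm_num)
  rw [Ex_const hw] at h
  unfold Pr
  convert h using 2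

theorem Pr_le_one (hw : IsW w) (P : (V → α) → Prop) : Pr w P ≤ 1 := by
  classical
  have h := Ex_mono hw (g := fun ω => if P ω then (1 : ℝ) else 0) (h := fun _ => (1 : ℝ))
    (fun ω => by split_ifs <;> norm_num)
  rw [Ex_const hw] at h
  unfold Pr
  convert h using 2

theorem Pr_mono (hw : IsW w) {P Q : (V → α) → Prop} (h : ∀ ω, P ω → Q ω) : Pr w P ≤ Pr w Q := by
  classical
  unfold Pr
  refine Ex_mono hw fun ω => ?_
  by_cases hP : P ω
  · rw [if_pos hP, if_pos (h ω hP)]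
  · rw [if_neg hP]
    split_ifs <;> norm_num

/-- Two disjoint events contained in a third one. -/
theorem Pr_add_le (hw : IsW w) {P Q S : (V → α) → Prop} (hPQ : ∀ ω, P ω → ¬ Q ω)
    (hP : ∀ ω, P ω → S ω) (hQ : ∀ ω, Q ω → S ω) : Pr w P + Pr w Q ≤ Pr w S := by
  classical
  unfold Pr
  rw [← Ex_add]
  refine Ex_mono hw fun ω => ?_
  by_cases h1 : P ω
  · rw [if_pos h1, if_neg (hPQ ω h1), if_pos (hP ω h1), add_zero]
  · by_cases h2 : Q ω
    · rw [if_neg h1, if_pos h2, if_pos (hQ ω h2), zero_add]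
    · rw [if_neg h1, if_neg h2, add_zero]
      split_ifs <;> norm_num

/-- Union bound. -/
theorem Pr_or_le (hw : IsW w) {P Q S : (V → α) → Prop} (h : ∀ ω, S ω → P ω ∨ Q ω) :
    Pr w S ≤ Pr w P + Pr w Q := by
  classical
  unfold Pr
  rw [← Ex_add]
  refine Ex_mono hw fun ω => ?_
  by_cases h1 : S ω
  · rw [if_pos h1]
    rcases h ω h1 with h2 | h2
    · rw [if_pos h2]
      split_ifs <;> norm_num
    · rw [if_pos h2]
      split_ifs <;> norm_num
  · rw [if_neg h1]
    split_ifs <;> norm_num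

theorem Pr_sum (w : V → α → ℝ) (f : (V → α) → ℕ) (E : Finset ℕ) :
    Pr w (fun ω => f ω ∈ E) = ∑ c ∈ E, Pr w (fun ω => f ω = c) := by
  classical
  unfold Pr
  rw [← Ex_sum]
  congr 1
  funext ω
  simp only
  by_cases hf : f ω ∈ E
  · rw [if_pos hf]
    symm
    refine (Finset.sum_eq_single_of_mem (f ω) hf ?_).trans ?_
    · intro i _ hi
      exact if_neg (Ne.symm hi)
    · exact if_pos rfl
  · rw [if_neg hf]
    symm
    refine Finset.sum_eq_zero fun i hi => if_neg ?_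
    rintro rfl
    exact hf hi

end Pool.Agent.Helper28.EQ
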