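import Pool.Agent.Helper28.EQ.Defs

/-!
# Block EQ-PR: the colouring process

PROOFS. `col_eq`: `WellFounded.fix_eq`; the filter in `col` is `avail` (a colour is blocked iff a
neighbour of smaller stage has it). `avail_card`: the positions that are not available are at most
as many as the neighbours of smaller stage (`ℓ v` is injective). `cl_proper`: if `stg u < stg v`
then `v` is not big, it has less than `k` neighbours, so its available set is not empty and
`pick` lies in it; the stages of adjacent vertices are different: big vertices are not adjacent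
(`hO`), for the others `t (D+1) + χ` with `χ ≤ D` and `χ u ≠ χ v`.
-/

namespace Pool.Agent.Helper28.EQ

open Finset

variable {V : Type} [Fintype V] [DecidableEq V] (G : SimpleGraph V) [DecidableRel G.Adj]
  {k D R : ℕ} {χ : V → ℕ} (ℓ : V → Fin k → ℕ)

theorem pick_mem (s : Finset (Fin k) → Fin k) {A : Finset (Fin k)} (hA : A.Nonempty) :
    pick s A ∈ A := by
  unfold pick
  by_cases h : s A ∈ A
  · rw [if_pos h]; exact h
  · rw [if_neg h, dif_pos hA]; exact A.min'_mem hA

theorem pick_eq (s : Finset (Fin k) → Fin k) {A : Finset (Fin k)} (hA : s A ∈ A) :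
    pick s A = s A := by
  unfold pick
  rw [if_pos hA]

theorem col_eq (st : V → ℕ) (s : V → Finset (Fin k) → Fin k) (v : V) :
    col G ℓ st s v = ℓ v (pick (s v) (avail G ℓ st s v)) := by
  have h1 : col G ℓ st s v = ℓ v (pick (s v)
      (univ.filter fun j => ∀ u, ∀ _ : st u < st v, G.Adj u v → col G ℓ st s u ≠ ℓ v j)) := by
    conv_lhs => unfold col
    rw [WellFounded.fix_eq]
    rfl
  rw [h1]
  congr 2
  unfold avail
  refine Finset.filter_congr fun j _ => ?_
  unfold blk
  rw [Finset.mem_image, not_exists]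
  constructor
  · intro h u hu
    rw [Finset.mem_filter, SimpleGraph.mem_neighborFinset] at hu
    exact h u hu.1.2 hu.1.1.symm hu.2
  · intro h u hu hadj he
    refine h u ⟨?_, he⟩
    rw [Finset.mem_filter, SimpleGraph.mem_neighborFinset]
    exact ⟨hadj.symm, hu⟩

theorem cl_eq (ω : V → Om R k) (v : V) :
    cl G D χ ℓ ω v = ℓ v (pick (ω v).2 (av G D χ ℓ ω v)) :=
  col_eq G ℓ _ _ v

theorem cl_mem (ω : V → Om R k) (v : V) : cl G D χ ℓ ω v ∈ Ls ℓ v := by
  rw [cl_eq]
  exact Finset.mem_image_of_mem _ (Finset.mem_univ _)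

theorem mem_bk (ω : V → Om R k) (v : V) (c : ℕ) :
    c ∈ bk G D χ ℓ ω v ↔ ∃ u, G.Adj u v ∧ stg G D χ ω u < stg G D χ ω v ∧
      cl G D χ ℓ ω u = c := by
  unfold bk blk
  rw [Finset.mem_image]
  constructor
  · rintro ⟨u, hu, he⟩
    rw [Finset.mem_filter, SimpleGraph.mem_neighborFinset] at hu
    exact ⟨u, hu.1.symm, hu.2, he⟩
  · rintro ⟨u, h1, h2, h3⟩
    refine ⟨u, ?_, h3⟩
    rw [Finset.mem_filter, SimpleGraph.mem_neighborFinset]
    exact ⟨h1.symm, h2⟩

theorem mem_av (ω : V → Om R k) (v : V) (j : Fin k) :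
    j ∈ av G D χ ℓ ω v ↔ ℓ v j ∉ bk G D χ ℓ ω v := by
  unfold av avail bk
  rw [Finset.mem_filter]
  exact ⟨fun h => h.2, fun h => ⟨Finset.mem_univ _, h⟩⟩

theorem h82_stg_big (ω : V → Om R k) (v : V) (hv : k ≤ G.degree v) : stg G D χ ω v = 0 := by
  unfold stg
  rw [if_pos hv]

theorem h82_stg_small (ω : V → Om R k) (v : V) (hv : G.degree v < k) :
    stg G D χ ω v = 1 + ((ω v).1 : ℕ) * (D + 1) + χ v := by
  unfold stg
  rw [if_neg (not_le.2 hv)]

theorem av_big (ω : V → Om R k) (v : V) (hv : k ≤ G.degree v) : av G D χ ℓ ω v = univ := by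
  ext j
  rw [mem_av]
  simp only [Finset.mem_univ, iff_true]
  intro h
  rw [mem_bk] at h
  obtain ⟨u, _, h2, _⟩ := h
  rw [h82_stg_big G ω v hv] at h2
  exact Nat.not_lt_zero _ h2

/-- Stages of vertices which are not big. -/
theorem stg_lt {ω : V → Om R k} {u v : V} (hu : G.degree u < k) (hv : G.degree v < k)
    (h : (ω u).1 < (ω v).1) (hχ : ∀ v, χ v ≤ D) : stg G D χ ω u < stg G D χ ω v := by
  rw [h82_stg_small G ω u hu, h82_stg_small G ω v hv]
  have h1 : ((ω u).1 : ℕ) + 1 ≤ ((ω v).1 : ℕ) := h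
  have h2 := Nat.mul_le_mul_right (D + 1) h1
  have h3 := hχ u
  have h4 : (((ω u).1 : ℕ) + 1) * (D + 1) = ((ω u).1 : ℕ) * (D + 1) + (D + 1) := by ring
  omega

theorem le_of_stg_lt {ω : V → Om R k} {u v : V} (hu : G.degree u < k) (hv : G.degree v < k)
    (h : stg G D χ ω u < stg G D χ ω v) (hχ : ∀ v, χ v ≤ D) : (ω u).1 ≤ (ω v).1 := by
  by_contra h1
  have := stg_lt G hv hu (not_le.1 h1) hχ
  omega

theorem stg_big_lt {ω : V → Om R k} {u v : V} (hu : k ≤ G.degree u) (hv : G.degree v < k) :
    stg G D χ ω u < stg G D χ ω v := by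
  rw [h82_stg_big G ω u hu, h82_stg_small G ω v hv]
  omega

/-- The number of available positions. -/
theorem av_card (hinj : ∀ v, Function.Injective (ℓ v)) (ω : V → Om R k) (v : V) :
    k ≤ (av G D χ ℓ ω v).card + (bk G D χ ℓ ω v).card := by
  have h1 : (univ \ av G D χ ℓ ω v).card ≤ (bk G D χ ℓ ω v).card := by
    refine Finset.card_le_card_of_injOn (ℓ v) ?_ ((hinj v).injOn)
    intro j hj
    have hj' : j ∉ av G D χ ℓ ω v := (Finset.mem_sdiff.1 hj).2
    rw [mem_av, not_not] at hj'
    exact hj'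
  have h2 : (univ \ av G D χ ℓ ω v).card + (av G D χ ℓ ω v).card = k := by
    rw [Finset.card_sdiff_add_card_eq_card (Finset.subset_univ _), Finset.card_univ,
      Fintype.card_fin]
  omega

theorem bk_card_le (ω : V → Om R k) (v : V) :
    (bk G D χ ℓ ω v).card ≤
      ((G.neighborFinset v).filter fun u => stg G D χ ω u < stg G D χ ω v).card :=
  Finset.card_image_le

theorem h82_cl_ne_of_lt (hinj : ∀ v, Function.Injective (ℓ v))
    (ω : V → Om R k) {u v : V} (h : G.Adj u v) (hs : stg G D χ ω u < stg G D χ ω v) :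
    cl G D χ ℓ ω u ≠ cl G D χ ℓ ω v := by
  have hv : G.degree v < k := by
    by_contra hv
    rw [h82_stg_big G ω v (not_lt.1 hv)] at hs
    exact Nat.not_lt_zero _ hs
  have h1 := av_card (D := D) (χ := χ) G ℓ hinj ω v
  have h2 := bk_card_le (D := D) (χ := χ) G ℓ ω v
  have h3 : ((G.neighborFinset v).filter fun u => stg G D χ ω u < stg G D χ ω v).card ≤
      G.degree v := by
    rw [← SimpleGraph.card_neighborFinset_eq_degree]
    exact Finset.card_filter_le _ _
  have h4 : (av G D χ ℓ ω v).Nonempty := Finset.card_pos.1 (by omega)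
  have h5 := pick_mem (ω v).2 h4
  rw [mem_av, ← cl_eq G ℓ ω v] at h5
  intro he
  rw [← he] at h5
  exact h5 ((mem_bk G ℓ ω v _).2 ⟨u, h, hs, rfl⟩)

theorem cl_proper (hG : Good G k D) (hχ : Chi G D χ) (hinj : ∀ v, Function.Injective (ℓ v))
    (ω : V → Om R k) {u v : V} (h : G.Adj u v) : cl G D χ ℓ ω u ≠ cl G D χ ℓ ω v := by
  rcases lt_trichotomy (stg G D χ ω u) (stg G D χ ω v) with h1 | h1 | h1
  · exact h82_cl_ne_of_lt G ℓ hinj ω h h1
  · exfalso
    by_cases hu : k ≤ G.degree u
    · by_cases hv : k ≤ G.degree v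
      · have := hG.hO u v h hu
        omega
      · have := stg_big_lt (D := D) (χ := χ) G (ω := ω) hu (not_le.1 hv)
        omega
    · by_cases hv : k ≤ G.degree v
      · have := stg_big_lt (D := D) (χ := χ) G (ω := ω) hv (not_le.1 hu)
        omega
      · have hu' := not_le.1 hu
        have hv' := not_le.1 hv
        have hne := hχ.hne u v h
        have hcu := hχ.hle u
        have hcv := hχ.hle v
        rcases lt_trichotomy (ω u).1 (ω v).1 with h2 | h2 | h2
        · have := stg_lt G hu' hv' h2 hχ.hle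
          omega
        · rw [h82_stg_small G ω u hu', h82_stg_small G ω v hv', h2] at h1
          omega
        · have := stg_lt G hv' hu' h2 hχ.hle
          omega
  · exact (h82_cl_ne_of_lt G ℓ hinj ω h.symm h1).symm

end Pool.Agent.Helper28.EQ
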