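import Pool.Agent.Helper28.EQ.ProbA
import Pool.Agent.Helper28.EQ.ProbB

/-!
# Block EQ-SM: second moment

PROOFS. `var_le`: `∑_{u,v} (E(Y_u Y_v) - E Y_u E Y_v)`; the terms with `B u`, `B v` disjoint vanish
(`Ex_indep`), the others are at most 1 (`0 ≤ Y ≤ 1`).
`exists_dev`: otherwise `∑_i (X_i - E X_i)^2 ≥ η^2` for every `ω`, so the expectation of this sum is
`≥ η^2`, but it is `≤ |ι| β n`.
-/

namespace Pool.Agent.Helper28.EQ

open Finset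

variable {V α : Type} [Fintype V] [DecidableEq V] [Fintype α]

theorem Ex_nonneg84 {w : V → α → ℝ} (hw : IsW w) {g : (V → α) → ℝ} (hg : ∀ ω, 0 ≤ g ω) :
    0 ≤ Ex w g := by
  have := Ex_mono hw (g := fun _ => (0 : ℝ)) (h := g) hg
  rwa [Ex_const hw] at this

theorem var_le {w : V → α → ℝ} (hw : IsW w) (B : V → Finset V) (β : ℕ)
    (hβ : ∀ v, (univ.filter fun u => ¬ Disjoint (B v) (B u)).card ≤ β) (Y : V → (V → α) → ℝ)
    (h0 : ∀ v ω, 0 ≤ Y v ω) (h1 : ∀ v ω, Y v ω ≤ 1) (hdep : ∀ v, Dep (Y v) (B v)) :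
    Ex w (fun ω => (∑ v, Y v ω - ∑ v, Ex w (Y v)) ^ 2) ≤ β * Fintype.card V := by
  classical
  set μ : ℝ := ∑ v, Ex w (Y v) with hμ
  have hsum : Ex w (fun ω => ∑ v, Y v ω) = μ := Ex_sum w univ Y
  have h2 : Ex w (fun ω => (∑ v, Y v ω - μ) ^ 2) =
      ∑ u, ∑ v, (Ex w (fun ω => Y u ω * Y v ω) - Ex w (Y u) * Ex w (Y v)) := by
    have e1 : (fun ω : V → α => (∑ v, Y v ω - μ) ^ 2) =
        fun ω => (∑ u, ∑ v, Y u ω * Y v ω - 2 * μ * ∑ v, Y v ω) + μ ^ 2 := by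
      funext ω
      rw [← Finset.sum_mul_sum]
      ring
    rw [e1, Ex_add w (fun ω => ∑ u, ∑ v, Y u ω * Y v ω - 2 * μ * ∑ v, Y v ω) (fun _ => μ ^ 2),
      Ex_const hw, Ex_sub w (fun ω => ∑ u, ∑ v, Y u ω * Y v ω) (fun ω => 2 * μ * ∑ v, Y v ω),
      Ex_mul_left w (2 * μ) (fun ω => ∑ v, Y v ω), hsum,
      Ex_sum w univ (fun u ω => ∑ v, Y u ω * Y v ω)]
    have e2 : ∀ u, Ex w (fun ω => ∑ v, Y u ω * Y v ω) = ∑ v, Ex w (fun ω => Y u ω * Y v ω) :=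
      fun u => Ex_sum w univ (fun v ω => Y u ω * Y v ω)
    simp only [e2, Finset.sum_sub_distrib]
    rw [← Finset.sum_mul_sum, ← hμ]
    ring
  rw [h2]
  have h3 : ∀ u, ∑ v, (Ex w (fun ω => Y u ω * Y v ω) - Ex w (Y u) * Ex w (Y v)) ≤ β := by
    intro u
    have h4 : ∀ v, Ex w (fun ω => Y u ω * Y v ω) - Ex w (Y u) * Ex w (Y v) ≤
        if ¬ Disjoint (B u) (B v) then (1 : ℝ) else 0 := by
      intro v
      by_cases hd : Disjoint (B u) (B v)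
      · rw [if_neg (not_not.2 hd), Ex_indep hw hd (hdep u) (hdep v), sub_self]
      · rw [if_pos hd]
        have h5 : Ex w (fun ω => Y u ω * Y v ω) ≤ Ex w (fun _ => (1 : ℝ)) :=
          Ex_mono hw fun ω => mul_le_one₀ (h1 u ω) (h0 v ω) (h1 v ω)
        rw [Ex_const hw] at h5
        have h6 := mul_nonneg (Ex_nonneg84 hw (h0 u)) (Ex_nonneg84 hw (h0 v))
        linarith
    calc ∑ v, (Ex w (fun ω => Y u ω * Y v ω) - Ex w (Y u) * Ex w (Y v))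
        ≤ ∑ v, if ¬ Disjoint (B u) (B v) then (1 : ℝ) else 0 := Finset.sum_le_sum fun v _ => h4 v
      _ = ((univ.filter fun v => ¬ Disjoint (B u) (B v)).card : ℝ) := by
        rw [Finset.sum_boole]
      _ ≤ β := by exact_mod_cast hβ u
  calc _ ≤ ∑ _u : V, (β : ℝ) := Finset.sum_le_sum fun u _ => h3 u
    _ = β * Fintype.card V := by
      rw [Finset.sum_const, Finset.card_univ, nsmul_eq_mul]; ring

theorem exists_dev {w : V → α → ℝ} (hw : IsW w) (B : V → Finset V) (β : ℕ)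
    (hβ : ∀ v, (univ.filter fun u => ¬ Disjoint (B v) (B u)).card ≤ β)
    {ι : Type} [Fintype ι] (Y : ι → V → (V → α) → ℝ)
    (h0 : ∀ i v ω, 0 ≤ Y i v ω) (h1 : ∀ i v ω, Y i v ω ≤ 1) (hdep : ∀ i v, Dep (Y i v) (B v))
    (η : ℝ) (hη : 0 < η) (hn : (Fintype.card ι : ℝ) * (β * Fintype.card V) < η ^ 2) :
    ∃ ω, ∀ i, |∑ v, Y i v ω - ∑ v, Ex w (Y i v)| < η := by
  classical
  by_contra hcon
  push Not at hcon
  have h2 : ∀ ω : V → α, η ^ 2 ≤ ∑ i, (∑ v, Y i v ω - ∑ v, Ex w (Y i v)) ^ 2 := by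
    intro ω
    obtain ⟨i, hi⟩ := hcon ω
    have h3 : η ^ 2 ≤ (∑ v, Y i v ω - ∑ v, Ex w (Y i v)) ^ 2 := by
      rw [← sq_abs (∑ v, Y i v ω - ∑ v, Ex w (Y i v))]
      exact pow_le_pow_left₀ hη.le hi 2
    exact h3.trans (Finset.single_le_sum
      (f := fun i => (∑ v, Y i v ω - ∑ v, Ex w (Y i v)) ^ 2) (fun i _ => sq_nonneg _)
      (Finset.mem_univ i))
  have h4 := Ex_mono hw (g := fun _ => η ^ 2) h2
  rw [Ex_const hw, Ex_sum w univ (fun i ω => (∑ v, Y i v ω - ∑ v, Ex w (Y i v)) ^ 2)] at h4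
  have h5 : ∑ i, Ex w (fun ω => (∑ v, Y i v ω - ∑ v, Ex w (Y i v)) ^ 2) ≤
      ∑ _i : ι, ((β : ℝ) * Fintype.card V) :=
    Finset.sum_le_sum fun i _ => var_le hw B β hβ (Y i) (h0 i) (h1 i) (hdep i)
  rw [Finset.sum_const, Finset.card_univ, nsmul_eq_mul] at h5
  linarith

end Pool.Agent.Helper28.EQ
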