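import Pool.Agent.Helper28.EQ.Key

/-!
# Block EQ-SA: slack by first neighbours with colliding choices

PROOF. All neighbours of `v` and of the `z ∈ Z` are not big (`hO`). Choose `S ⊆ N(v) \ Z` with
`|S| = |T| - |Z|` (possible: `|N(v)| = k - 1 ≥ |T|`). Let `W = {v} ∪ N(v) ∪ ⋃_{z ∈ Z} N(z)`,
`|W| ≤ (D+1)^2` (`⊆ nb 2 v`). Event `F`: the time of `z ∈ Z` is in `[0, R')`, of `u ∈ S` in
`[R', 2R')`, of `v` in `[2R', 3R')`, of all other vertices of `W` in `[3R', 4R')`, and
`(ω z).2 univ = j z` for `z ∈ Z`. `F` is a product event over `W` (`Ex_prod`): probability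
`≥ (1/4)^|W| * ∏_{z ∈ Z} pr univ (j z) ≥ δ4` (use `sum_wch`). On `F`: every `z ∈ Z` comes before all
its neighbours, `bk z = ∅`, so `cl z = ℓ z (j z)`; the neighbours of `v` of smaller stage are
`Z ∪ S`; `bk v ∩ T` has at most `(|Z| - 1) + |S| < |T|` elements, so `T ⊄ bk v`; and at least
`|T|` neighbours have time `≤` the time of `v`. The event `T ⊆ bk v` also implies that at least
`|T|` neighbours have time `≤` the time of `v` (`le_of_stg_lt`, `bk_card_le`). So
`P(T ⊆ bk v) + P(F) ≤ φ (k-1) |T| + (D+1)^2/(4R')` (`Pr_add_le`, `rank_nbr`).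
-/

namespace Pool.Agent.Helper28.EQ

open Finset

variable {V : Type} [Fintype V] [DecidableEq V] (G : SimpleGraph V) [DecidableRel G.Adj]
  {k D : ℕ} {χ : V → ℕ} (ℓ : V → Fin k → ℕ) (y : V → ℕ → ℝ)

/-- card of an interval of times -/
lemma sa27_card (n a b : ℕ) (hb : b ≤ n) :
    (univ.filter fun t : Fin n => a ≤ (t : ℕ) ∧ (t : ℕ) < b).card = b - a := by
  rw [← Nat.card_Ico]
  refine Finset.card_bij (fun t _ => (t : ℕ)) ?_ ?_ ?_
  · intro t ht
    rw [mem_filter] at ht
    exact mem_Ico.2 ht.2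
  · intro t _ t' _ h
    exact Fin.ext h
  · intro c hc
    rw [mem_Ico] at hc
    exact ⟨⟨c, by omega⟩, by simp [hc.1, hc.2], rfl⟩

/-- one factor of a product event -/
lemma sa27_factor (R' : ℕ) (hR : 0 < R') (hk : 0 < k) (hy : ∀ v c, 0 < y v c) (w : V) (i : ℕ)
    (hi : i ≤ 3) (g : Fin k → ℝ) :
    ∑ a : Om (4 * R') k, wt (4 * R') ℓ y w a *
      ((if i * R' ≤ (a.1 : ℕ) ∧ (a.1 : ℕ) < (i + 1) * R' then (1 : ℝ) else 0) * g (a.2 univ)) =
      1 / 4 * ∑ j, pr (y w) (ℓ w) univ j * g j := by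
  have hR0 : (0 : ℝ) < R' := by exact_mod_cast hR
  have hlin : (i + 1) * R' ≤ 4 * R' := Nat.mul_le_mul_right _ (by omega)
  have hc := sa27_card (4 * R') (i * R') ((i + 1) * R') hlin
  have hc2 : (i + 1) * R' - i * R' = R' := by
    rw [add_mul, one_mul]
    omega
  rw [hc2] at hc
  have h1 : ∀ a : Om (4 * R') k, wt (4 * R') ℓ y w a *
      ((if i * R' ≤ (a.1 : ℕ) ∧ (a.1 : ℕ) < (i + 1) * R' then (1 : ℝ) else 0) * g (a.2 univ)) =
      (1 / ((4 * R' : ℕ) : ℝ) *
        (if i * R' ≤ (a.1 : ℕ) ∧ (a.1 : ℕ) < (i + 1) * R' then (1 : ℝ) else 0)) *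
        (wch ℓ y w a.2 * g (a.2 univ)) := by
    intro a
    unfold wt
    ring
  rw [Fintype.sum_congr _ _ h1, Fintype.sum_prod_type]
  have h2 : ∀ t : Fin (4 * R'), ∑ s : Finset (Fin k) → Fin k, (1 / ((4 * R' : ℕ) : ℝ) *
        (if i * R' ≤ (t : ℕ) ∧ (t : ℕ) < (i + 1) * R' then (1 : ℝ) else 0)) *
        (wch ℓ y w s * g (s univ)) = (1 / ((4 * R' : ℕ) : ℝ) *
        (if i * R' ≤ (t : ℕ) ∧ (t : ℕ) < (i + 1) * R' then (1 : ℝ) else 0)) *
        ∑ j, pr (y w) (ℓ w) univ j * g j := by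
    intro t
    rw [← mul_sum, sum_wch ℓ y hk hy w univ g]
  rw [Fintype.sum_congr _ _ h2, ← sum_mul, ← mul_sum, sum_boole, hc]
  push_cast
  field_simp

theorem slackA (hG : Good G k D) (hχ : Chi G D χ) (R' : ℕ) (hR : 0 < R')
    (hinj : ∀ v, Function.Injective (ℓ v)) (hy : ∀ v c, 0 < y v c)
    (v : V) (hv : G.degree v + 1 = k) (Z : Finset V) (hZ : Z ⊆ G.neighborFinset v)
    (hZ2 : ∀ z ∈ Z, G.degree z + 1 = k) (hZ3 : ∀ z ∈ Z, ∀ z' ∈ Z, ¬ G.Adj z z')
    (T : Finset ℕ) (hZT : Z.card ≤ T.card) (hT : T.card + 1 ≤ k) (j : V → Fin k)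
    (hj : ∀ z ∈ Z, 1 / (k : ℝ) ≤ pr (y z) (ℓ z) univ (j z))
    (hcov : ((Z.image fun z => ℓ z (j z)) ∩ T).card < Z.card) :
    Pr (wt (4 * R') ℓ y) (fun ω : V → Om (4 * R') k => T ⊆ bk G D χ ℓ ω v)
      ≤ 1 - (T.card : ℝ) / k + ((D : ℝ) + 1) ^ 2 / (4 * R') - δ4 k D := by
  classical
  have hk : 0 < k := by omega
  have hk0 : (0 : ℝ) < k := by exact_mod_cast hk
  have hR4 : 0 < 4 * R' := by omega
  have hW := isW_wt (V := V) (R := 4 * R') ℓ y hR4 hk hy
  -- neighbours of vertices of degree `k - 1` are not big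
  have hnb : ∀ x u, G.degree x + 1 = k → G.Adj x u → G.degree u < k := by
    intro x u hx hxu
    by_contra hcon
    have := hG.hO u x hxu.symm (not_lt.1 hcon)
    omega
  have hvk : G.degree v < k := by omega
  -- the set `S`
  have hcardN : (G.neighborFinset v).card = G.degree v := G.card_neighborFinset_eq_degree v
  obtain ⟨S, hS1, hS2⟩ : ∃ S ⊆ G.neighborFinset v \ Z, S.card = T.card - Z.card := by
    apply Finset.exists_subset_card_eq
    rw [card_sdiff_of_subset hZ, hcardN]
    omega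
  have hSN : ∀ u ∈ S, u ∈ G.neighborFinset v ∧ u ∉ Z := fun u hu => mem_sdiff.1 (hS1 hu)
  have hvN : ∀ u ∈ G.neighborFinset v, u ≠ v := by
    intro u hu h
    rw [h, SimpleGraph.mem_neighborFinset] at hu
    exact G.loopless.irrefl v hu
  obtain ⟨st, hst⟩ : ∃ st : V → ℕ, st = fun w => if w ∈ Z then 0 else if w ∈ S then 1 else
    if w = v then 2 else 3 := ⟨_, rfl⟩
  have hst3 : ∀ w, st w ≤ 3 := by
    intro w
    rw [hst]
    simp only
    split_ifs <;> omega
  have hstZ : ∀ w ∈ Z, st w = 0 := by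
    intro w hw
    rw [hst]
    simp only [if_pos hw]
  have hstZ' : ∀ w, w ∉ Z → 1 ≤ st w := by
    intro w hw
    rw [hst]
    simp only [if_neg hw]
    split_ifs <;> omega
  have hstS : ∀ w ∈ S, st w = 1 := by
    intro w hw
    rw [hst]
    simp only [if_neg (hSN w hw).2, if_pos hw]
  have hstv : st v = 2 := by
    have h1 : v ∉ Z := fun h => hvN v (hZ h) rfl
    have h2 : v ∉ S := fun h => hvN v (hSN v h).1 rfl
    rw [hst]
    simp only [if_neg h1, if_neg h2, if_true]
  have hsto : ∀ w, w ∉ Z → w ∉ S → w ≠ v → st w = 3 := by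
    intro w h1 h2 h3
    rw [hst]
    simp only [if_neg h1, if_neg h2, if_neg h3]
  obtain ⟨F, hF⟩ : ∃ F : (V → Om (4 * R') k) → Prop, F = fun ω => ∀ w ∈ nb G 2 v,
    (st w * R' ≤ ((ω w).1 : ℕ) ∧ ((ω w).1 : ℕ) < (st w + 1) * R') ∧
      (w ∈ Z → (ω w).2 univ = j w) := ⟨_, rfl⟩
  -- neighbourhoods are in the ball
  have hv2 : v ∈ nb G 2 v := nb_self G 2 v
  have hN2 : ∀ u, G.Adj v u → u ∈ nb G 2 v := fun u hu =>
    nb_adj G 1 hu (nb_self G 1 u)
  have hNN2 : ∀ u w, G.Adj v u → G.Adj u w → w ∈ nb G 2 v := fun u w hu hw =>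
    nb_adj G 1 hu (nb_adj G 0 hw (nb_self G 0 w))
  -- probability of `F`
  have hPF : δ4 k D ≤ Pr (wt (4 * R') ℓ y) F := by
    have e1 : Pr (wt (4 * R') ℓ y) F = Ex (wt (4 * R') ℓ y) (fun ω => ∏ w ∈ nb G 2 v,
        ((if st w * R' ≤ ((ω w).1 : ℕ) ∧ ((ω w).1 : ℕ) < (st w + 1) * R' then (1 : ℝ) else 0) *
          (if w ∈ Z → (ω w).2 univ = j w then (1 : ℝ) else 0))) := by
      unfold Pr
      congr 1
      funext ω
      by_cases h : F ω
      · rw [if_pos h]
        symm
        rw [hF] at h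
        refine prod_eq_one fun w hw => ?_
        rw [if_pos (h w hw).1, if_pos (h w hw).2, one_mul]
      · rw [if_neg h]
        symm
        rw [hF] at h
        simp only [not_forall] at h
        obtain ⟨w, hw, h⟩ := h
        refine prod_eq_zero hw ?_
        rw [not_and_or] at h
        rcases h with h | h
        · rw [if_neg h, zero_mul]
        · rw [if_neg h, mul_zero]
    have e2 := Ex_prod hW (nb G 2 v) (fun w (a : Om (4 * R') k) =>
      (if st w * R' ≤ (a.1 : ℕ) ∧ (a.1 : ℕ) < (st w + 1) * R' then (1 : ℝ) else 0) *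
          (if w ∈ Z → a.2 univ = j w then (1 : ℝ) else 0))
    rw [e1]
    refine le_of_le_of_eq ?_ e2.symm
    have e3 : ∀ w ∈ nb G 2 v, ∑ a : Om (4 * R') k, wt (4 * R') ℓ y w a *
        ((if st w * R' ≤ (a.1 : ℕ) ∧ (a.1 : ℕ) < (st w + 1) * R' then (1 : ℝ) else 0) *
          (if w ∈ Z → a.2 univ = j w then (1 : ℝ) else 0)) =
        1 / 4 * ∑ i, pr (y w) (ℓ w) univ i * (if w ∈ Z → i = j w then (1 : ℝ) else 0) :=
      fun w _ => sa27_factor ℓ y R' hR hk hy w (st w) (hst3 w)
        (fun i => if w ∈ Z → i = j w then (1 : ℝ) else 0)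
    rw [prod_congr rfl e3]
    have e4 : ∀ w ∈ nb G 2 v, (1 / 4 : ℝ) * (if w ∈ Z then 1 / ((k : ℝ) + 1) else 1) ≤
        1 / 4 * ∑ i, pr (y w) (ℓ w) univ i * (if w ∈ Z → i = j w then (1 : ℝ) else 0) := by
      intro w _
      refine mul_le_mul_of_nonneg_left ?_ (by norm_num)
      by_cases hwZ : w ∈ Z
      · rw [if_pos hwZ]
        have : ∑ i, pr (y w) (ℓ w) univ i * (if w ∈ Z → i = j w then (1 : ℝ) else 0) =
            pr (y w) (ℓ w) univ (j w) := by
          rw [Finset.sum_eq_single (j w)]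
          · rw [if_pos (fun _ => rfl), mul_one]
          · intro i _ hi
            rw [if_neg (fun h => hi (h hwZ)), mul_zero]
          · intro h
            exact absurd (mem_univ _) h
        rw [this]
        refine le_trans ?_ (hj w hwZ)
        exact one_div_le_one_div_of_le hk0 (by linarith)
      · rw [if_neg hwZ]
        have : ∑ i, pr (y w) (ℓ w) univ i * (if w ∈ Z → i = j w then (1 : ℝ) else 0) =
            ∑ i, pr (y w) (ℓ w) univ i := by
          refine sum_congr rfl fun i _ => ?_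
          rw [if_pos (fun h => absurd h hwZ), mul_one]
        rw [this, sum_pr hk (hy w)]
    refine le_trans ?_ (prod_le_prod (fun w _ => by split_ifs <;> positivity) e4)
    rw [prod_mul_distrib, prod_const, prod_ite, prod_const, prod_const_one, mul_one]
    unfold δ4
    have c1 : (nb G 2 v).card ≤ (D + 1) ^ 2 := nb_card G hG.hD 2 v
    have c2 : ((nb G 2 v).filter (fun w => w ∈ Z)).card ≤ k + 2 := by
      have : ((nb G 2 v).filter (fun w => w ∈ Z)).card ≤ Z.card := by
        apply card_le_card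
        intro w hw
        exact (mem_filter.1 hw).2
      omega
    apply mul_le_mul
    · exact pow_le_pow_of_le_one (by norm_num) (by norm_num) c1
    · apply pow_le_pow_of_le_one (by positivity) _ c2
      rw [div_le_one (by positivity)]
      linarith
    · positivity
    · positivity
  -- on `F` the vertices of `Z` come first
  have hclZ : ∀ ω, F ω → ∀ z ∈ Z, cl G D χ ℓ ω z = ℓ z (j z) := by
    intro ω hω z hz
    rw [hF] at hω
    have hvz : G.Adj v z := by
      have := hZ hz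
      rwa [SimpleGraph.mem_neighborFinset] at this
    have hz1 := (hω z (hN2 z hvz)).1.2
    rw [hstZ z hz] at hz1
    have hzk : G.degree z < k := by
      have := hZ2 z hz
      omega
    have hbk : ∀ c, c ∉ bk G D χ ℓ ω z := by
      intro c hc
      rw [mem_bk] at hc
      obtain ⟨u, hu1, hu2, -⟩ := hc
      have huk := hnb z u (hZ2 z hz) hu1.symm
      have hle := le_of_stg_lt G huk hzk hu2 hχ.hle
      have huZ : u ∉ Z := fun h => hZ3 u h z hz hu1
      have hu3 := (hω u (hNN2 z u hvz hu1.symm)).1.1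
      have hu4 := hstZ' u huZ
      have hle' : ((ω u).1 : ℕ) ≤ ((ω z).1 : ℕ) := hle
      have hu5 : 1 * R' ≤ st u * R' := Nat.mul_le_mul_right _ hu4
      omega
    have hav : av G D χ ℓ ω z = univ := by
      ext i
      rw [mem_av]
      simp [hbk]
    rw [cl_eq, hav]
    have hjz := (hω z (hN2 z hvz)).2 hz
    rw [pick_eq _ (mem_univ _), hjz]
  have hPQ : ∀ ω, T ⊆ bk G D χ ℓ ω v → ¬ F ω := by
    intro ω hTb hω
    have hcl := hclZ ω hω
    rw [hF] at hω
    have hsub : T ⊆ ((Z.image fun z => ℓ z (j z)) ∩ T) ∪ S.image (cl G D χ ℓ ω) := by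
      intro c hc
      have hcb := hTb hc
      rw [mem_bk] at hcb
      obtain ⟨u, hu1, hu2, hu3⟩ := hcb
      have huk := hnb v u hv hu1.symm
      have hle : ((ω u).1 : ℕ) ≤ ((ω v).1 : ℕ) := le_of_stg_lt G huk hvk hu2 hχ.hle
      have hvt := (hω v hv2).1.2
      rw [hstv] at hvt
      have hut := (hω u (hN2 u hu1.symm)).1.1
      by_cases huZ : u ∈ Z
      · refine mem_union_left _ (mem_inter.2 ⟨mem_image.2 ⟨u, huZ, ?_⟩, hc⟩)
        rw [← hcl u huZ, hu3]
      · by_cases huS : u ∈ S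
        · exact mem_union_right _ (mem_image.2 ⟨u, huS, hu3⟩)
        · exfalso
          have huv : u ≠ v := fun h => by
            rw [h] at hu1
            exact G.loopless.irrefl v hu1
          rw [hsto u huZ huS huv] at hut
          omega
    have h1 := (card_le_card hsub).trans (card_union_le _ _)
    have h2 : (S.image (cl G D χ ℓ ω)).card ≤ S.card := card_image_le
    omega
  have hmain := Pr_add_le hW (P := fun ω : V → Om (4 * R') k => T ⊆ bk G D χ ℓ ω v) (Q := F)
    (S := fun ω => T.card ≤ ((G.neighborFinset v).filter fun u => (ω u).1 ≤ (ω v).1).card) hPQ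
    (by
      intro ω hTb
      refine (card_le_card hTb).trans ((bk_card_le G ℓ ω v).trans (card_le_card ?_))
      intro u hu
      rw [mem_filter] at hu ⊢
      refine ⟨hu.1, le_of_stg_lt G (hnb v u hv ?_) hvk hu.2 hχ.hle⟩
      have := hu.1
      rwa [SimpleGraph.mem_neighborFinset] at this)
    (by
      intro ω hω
      rw [hF] at hω
      have hdis : Disjoint Z S := by
        rw [Finset.disjoint_left]
        intro x hx hx'
        exact (hSN x hx').2 hx
      have hcard : (Z ∪ S).card = T.card := by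
        rw [card_union_of_disjoint hdis, hS2]
        omega
      rw [← hcard]
      apply card_le_card
      intro u hu
      have huN : u ∈ G.neighborFinset v := by
        rcases mem_union.1 hu with h | h
        · exact hZ h
        · exact (hSN u h).1
      have huA : G.Adj v u := by rwa [SimpleGraph.mem_neighborFinset] at huN
      rw [mem_filter]
      refine ⟨huN, ?_⟩
      have hu1 := (hω u (hN2 u huA)).1.2
      have hv1 := (hω v hv2).1.1
      rw [hstv] at hv1
      have hsu : st u ≤ 1 := by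
        rcases mem_union.1 hu with h | h
        · rw [hstZ u h]
          omega
        · rw [hstS u h]
      have h3 : (st u + 1) * R' ≤ 2 * R' := Nat.mul_le_mul_right _ (by omega)
      have h4 : ((ω u).1 : ℕ) ≤ ((ω v).1 : ℕ) := by omega
      exact h4)
  have hrank := rank_nbr G ℓ y hG.hD hR4 hk hy v T.card
  have hφ : φ (G.degree v) T.card = 1 - (T.card : ℝ) / k := by
    unfold φ
    have h1 : ((G.degree v : ℝ) + 1) = k := by exact_mod_cast hv
    rw [h1, max_eq_right]
    rw [sub_nonneg, div_le_one hk0]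
    have : T.card ≤ k := by omega
    exact_mod_cast this
  rw [hφ] at hrank
  push_cast at hrank
  linarith

end Pool.Agent.Helper28.EQ
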