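import Pool.Agent.Helper28.EQ.Comb
import Pool.Agent.Helper28.EQ.Chi

/-!
# Block EQ-TP: removing the components `K_k`

PROOF. Let `W = {v : ¬ InK G k v}` and `H` the graph induced on `W` (type `{v // ¬ InK G k v}`). No edge
joins `W` and its complement (`S` is closed under adjacency), so degrees in `H` are the degrees in
`G`; `H` is `Good`: `hK`: if `v ∈ W` has degree `k - 1` and all neighbours have degree `k - 1` and all
pairs of neighbours were adjacent, then `S = N[v]` has `k` elements and for `x ∈ S` the `k - 1`
neighbours of `x` are exactly `S \ {x}`, so `InK G k v`. Colour `H` by `comb` (`n0 ≤ |W|`): every colour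
at most `(|W| + k - 1)/k` times. Colour the rest with `greedy_list` (degrees `k - 1`, lists of size
`k`). The complement of `W` is a disjoint union of cliques of size `k` (the `S` of `InK` are the closed
neighbourhoods), a colour occurs at most once in each: at most `(n - |W|)/k` times, and `k` divides
`n - |W|`. E.g. double count: for a colour `c`, the closed neighbourhoods of the vertices of colour
`c` outside `W` are disjoint and have `k` elements, so `k X_c ≤ n - |W|`; and `k ∣ n - |W|` (partition
into classes of size `k`, e.g. `Finpartition`, or count pairs) or avoid divisibility: it is needed for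
`(|W|+k-1)/k + (n-|W|)/k ≤ (n+k-1)/k`, true also without divisibility with the floor `(n-|W|)/k`.
-/

namespace Pool.Agent.Helper28.EQ

open Finset

namespace TopH1

section

variable {V : Type} [Fintype V] [DecidableEq V] (G : SimpleGraph V) [DecidableRel G.Adj] {k D : ℕ}

omit [Fintype V] [DecidableEq V] [DecidableRel G.Adj] in
theorem inK_adj {v w : V} (hv : InK G k v) (h : G.Adj v w) : InK G k w := by
  obtain ⟨S, h1, h2, h3⟩ := hv
  exact ⟨S, ((h3 v h1 w).1 h).1, h2, h3⟩

/-- the closed neighbourhood -/
def cn (v : V) : Finset V := insert v (G.neighborFinset v)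

theorem mem_cn {v x : V} : x ∈ cn G v ↔ x = v ∨ G.Adj v x := by
  unfold cn; simp

theorem inK_eq {v : V} {S : Finset V} (h1 : v ∈ S)
    (h3 : ∀ x ∈ S, ∀ y, G.Adj x y ↔ (y ∈ S ∧ x ≠ y)) : S = cn G v := by
  ext x
  rw [mem_cn, h3 v h1 x]
  constructor
  · intro hx
    by_cases h : x = v
    · exact Or.inl h
    · exact Or.inr ⟨hx, fun h' => h h'.symm⟩
  · rintro (rfl | h)
    · exact h1
    · exact h.1

theorem cn_card {v : V} (hv : InK G k v) : (cn G v).card = k := by
  obtain ⟨S, h1, h2, h3⟩ := hv
  rw [← inK_eq G h1 h3]; exact h2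

theorem inK_cn {v : V} (hv : InK G k v) : ∀ x ∈ cn G v, ∀ y, G.Adj x y ↔ (y ∈ cn G v ∧ x ≠ y) := by
  obtain ⟨S, h1, h2, h3⟩ := hv
  rw [← inK_eq G h1 h3]; exact h3

theorem cn_inK {v x : V} (hv : InK G k v) (hx : x ∈ cn G v) : InK G k x :=
  ⟨cn G v, hx, cn_card G hv, inK_cn G hv⟩

theorem inK_deg {v : V} (hv : InK G k v) : G.degree v < k := by
  have := cn_card G hv
  unfold cn at this
  rw [Finset.card_insert_of_notMem (by simp), SimpleGraph.card_neighborFinset_eq_degree] at this
  omega

theorem cn_disj {v w : V} (hv : InK G k v) (hw : InK G k w) (hne : v ≠ w) (hna : ¬ G.Adj v w) :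
    Disjoint (cn G v) (cn G w) := by
  rw [Finset.disjoint_left]
  intro x hx hx'
  have h1 : cn G v = cn G x := inK_eq G hx (inK_cn G hv)
  have h2 : cn G w = cn G x := inK_eq G hx' (inK_cn G hw)
  have h3 : w ∈ cn G v := by
    rw [h1, ← h2]; unfold cn; simp
  rw [mem_cn] at h3
  rcases h3 with h | h
  · exact hne h.symm
  · exact hna h

/-- a vertex of degree `k - 1` with complete neighbourhood all of whose neighbours have degree `k - 1` -/
theorem inK_of {v : V} (hd : G.degree v + 1 = k) (hn : ∀ w, G.Adj v w → G.degree w + 1 = k)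
    (hc : ∀ u u', G.Adj v u → G.Adj v u' → u ≠ u' → G.Adj u u') : InK G k v := by
  refine ⟨cn G v, by unfold cn; simp, ?_, ?_⟩
  · unfold cn
    rw [Finset.card_insert_of_notMem (by simp), SimpleGraph.card_neighborFinset_eq_degree]
    exact hd
  · have hcard : (cn G v).card = k := by
      unfold cn
      rw [Finset.card_insert_of_notMem (by simp), SimpleGraph.card_neighborFinset_eq_degree]
      exact hd
    intro x hx
    have hsub : (cn G v).erase x ⊆ G.neighborFinset x := by
      intro y hy
      rw [Finset.mem_erase, mem_cn] at hy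
      rw [SimpleGraph.mem_neighborFinset]
      rw [mem_cn] at hx
      rcases hx with rfl | hx
      · rcases hy.2 with h | h
        · exact absurd h hy.1
        · exact h
      · rcases hy.2 with rfl | h
        · exact hx.symm
        · exact hc x y hx h (fun h' => hy.1 h'.symm)
    have hxd : G.degree x + 1 = k := by
      rw [mem_cn] at hx
      rcases hx with rfl | hx
      · exact hd
      · exact hn x hx
    have heq : (cn G v).erase x = G.neighborFinset x := by
      apply Finset.eq_of_subset_of_card_le hsub
      rw [Finset.card_erase_of_mem hx, hcard, SimpleGraph.card_neighborFinset_eq_degree]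
      omega
    intro y
    rw [← SimpleGraph.mem_neighborFinset, ← heq, Finset.mem_erase]
    constructor
    · rintro ⟨h1, h2⟩; exact ⟨h2, fun h => h1 h.symm⟩
    · rintro ⟨h1, h2⟩; exact ⟨fun h => h2 h.symm, h1⟩

end

end TopH1

open TopH1

open Classical in
/-- removing the components `K_k` -/
theorem h1_ext (k : ℕ) (hk : 1 ≤ k) {V : Type} [Fintype V] (G : SimpleGraph V)
    (h : ∀ (C : Type) (L : {v // ¬ InK G k v} → Finset C), (∀ v, (L v).card = k) →
      ∃ f : {v // ¬ InK G k v} → C, (∀ v, f v ∈ L v) ∧ (∀ u v, G.Adj u.1 v.1 → f u ≠ f v) ∧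
        ∀ c, (univ.filter fun v => f v = c).card ≤ (Fintype.card {v // ¬ InK G k v} + k - 1) / k)
    (C : Type) (L : V → Finset C) (hL : ∀ v, (L v).card = k) :
    ∃ f : V → C, (∀ v, f v ∈ L v) ∧ (∀ u v, G.Adj u v → f u ≠ f v) ∧
      ∀ c, (univ.filter fun v => f v = c).card ≤ (Fintype.card V + k - 1) / k := by
  have hcardW : Fintype.card {v // ¬ InK G k v} = (univ.filter fun v => ¬ InK G k v).card :=
    Fintype.card_subtype _
  obtain ⟨f1, hf1, hf1p, hf1c⟩ := h C (fun a => L a.1) (fun a => hL a.1)
  -- the cliques
  let H' : SimpleGraph V :=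
    { Adj := fun x y => G.Adj x y ∧ InK G k x
      symm := ⟨fun x y h => ⟨h.1.symm, inK_adj G h.2 h.1⟩⟩
      loopless := ⟨fun x h => G.loopless.irrefl x h.1⟩ }
  have hH' : ∀ v, H'.degree v < (L v).card := by
    intro v
    rw [hL v, ← SimpleGraph.card_neighborFinset_eq_degree]
    by_cases hv : InK G k v
    · refine lt_of_le_of_lt (Finset.card_le_card ?_) (inK_deg G hv)
      intro x hx
      rw [SimpleGraph.mem_neighborFinset] at hx ⊢
      exact hx.1
    · have : H'.neighborFinset v = ∅ := by
        rw [Finset.eq_empty_iff_forall_notMem]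
        intro x hx
        rw [SimpleGraph.mem_neighborFinset] at hx
        exact hv hx.2
      rw [this, Finset.card_empty]
      omega
  obtain ⟨f2, hf2, hf2p⟩ := greedy_list H' L hH'
  refine ⟨fun v => if h : InK G k v then f2 v else f1 ⟨v, h⟩, ?_, ?_, ?_⟩
  · intro v
    by_cases h : InK G k v
    · simp only [h, dif_pos]; exact hf2 v
    · simp only [h, dif_neg, not_false_iff]; exact hf1 ⟨v, h⟩
  · intro u v huv
    by_cases hu : InK G k u
    · have hv := inK_adj G hu huv
      simp only [hu, hv, dif_pos]
      exact hf2p u v ⟨huv, hu⟩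
    · have hv : ¬ InK G k v := fun h => hu (inK_adj G h huv.symm)
      simp only [hu, hv, dif_neg, not_false_iff]
      exact hf1p ⟨u, hu⟩ ⟨v, hv⟩ huv
  · intro c
    have hsplit : (univ.filter fun v => (if h : InK G k v then f2 v else f1 ⟨v, h⟩) = c) =
        (univ.filter fun v => InK G k v ∧ f2 v = c) ∪
          (univ.filter fun a : {v // ¬ InK G k v} => f1 a = c).map (Function.Embedding.subtype _) := by
      ext v
      simp only [Finset.mem_filter, Finset.mem_univ, true_and, Finset.mem_union, Finset.mem_map,
        Function.Embedding.subtype_apply]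
      by_cases h : InK G k v
      · simp only [h, dif_pos, true_and]
        constructor
        · intro h1; exact Or.inl h1
        · rintro (h1 | ⟨a, _, h2⟩)
          · exact h1
          · exact absurd (h2 ▸ h) a.2
      · simp only [h, dif_neg, not_false_iff, false_and, false_or]
        constructor
        · intro h1; exact ⟨⟨v, h⟩, h1, rfl⟩
        · rintro ⟨a, h1, h2⟩
          subst h2
          exact h1
    rw [hsplit]
    refine (Finset.card_union_le _ _).trans ?_
    rw [Finset.card_map]
    -- the cliques
    have hX : k * (univ.filter fun v => InK G k v ∧ f2 v = c).card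
        ≤ (univ.filter fun v => InK G k v).card := by
      have h1 : ((univ.filter fun v => InK G k v ∧ f2 v = c).biUnion (cn G)).card
          = ∑ v ∈ univ.filter (fun v => InK G k v ∧ f2 v = c), (cn G v).card := by
        apply Finset.card_biUnion
        intro v hv w hw hne
        rw [Finset.mem_coe, Finset.mem_filter] at hv hw
        refine cn_disj G hv.2.1 hw.2.1 hne ?_
        intro hadj
        exact hf2p v w ⟨hadj, hv.2.1⟩ (hv.2.2.trans hw.2.2.symm)
      have h2 : ∑ v ∈ univ.filter (fun v => InK G k v ∧ f2 v = c), (cn G v).card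
          = k * (univ.filter fun v => InK G k v ∧ f2 v = c).card := by
        rw [Finset.sum_congr rfl (g := fun _ => k), Finset.sum_const, smul_eq_mul, mul_comm]
        intro v hv
        rw [Finset.mem_filter] at hv
        exact cn_card G hv.2.1
      rw [← h2, ← h1]
      apply Finset.card_le_card
      intro x hx
      rw [Finset.mem_biUnion] at hx
      obtain ⟨v, hv, hxv⟩ := hx
      rw [Finset.mem_filter] at hv ⊢
      exact ⟨Finset.mem_univ _, cn_inK G hv.2.1 hxv⟩
    have htot : (univ.filter fun v => InK G k v).card + (univ.filter fun v => ¬ InK G k v).card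
        = Fintype.card V := Finset.card_filter_add_card_filter_not (s := univ) (fun v => InK G k v)
    have hc := hf1c c
    have hX' : (univ.filter fun v => InK G k v ∧ f2 v = c).card
        ≤ (univ.filter fun v => InK G k v).card / k := by
      rw [Nat.le_div_iff_mul_le (by omega), mul_comm]; exact hX
    calc _ ≤ (univ.filter fun v => InK G k v).card / k
          + (Fintype.card {v // ¬ InK G k v} + k - 1) / k := Nat.add_le_add hX' hc
      _ ≤ ((univ.filter fun v => InK G k v).card + (Fintype.card {v // ¬ InK G k v} + k - 1)) / k :=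
          Nat.div_add_div_le_add_div
      _ = (Fintype.card V + k - 1) / k := by
          rw [hcardW]; congr 1; omega

open Classical in
theorem top (k D : ℕ) (hk : 1 ≤ k) :
    ∃ n0 : ℕ, ∀ (V : Type) [Fintype V] (G : SimpleGraph V),
      (∀ v, G.degree v ≤ D) →
      (∀ v w, G.Adj v w → k ≤ G.degree v → G.degree w + 2 ≤ k) →
      n0 ≤ (univ.filter fun v => ¬ InK G k v).card →
      ∀ (C : Type) (L : V → Finset C), (∀ v, (L v).card = k) →
      ∃ f : V → C, (∀ v, f v ∈ L v) ∧ (∀ u v, G.Adj u v → f u ≠ f v) ∧
        ∀ c, (univ.filter fun v => f v = c).card ≤ (Fintype.card V + k - 1) / k := by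
  obtain ⟨n0, hn0⟩ := comb k D hk
  refine ⟨n0, ?_⟩
  intro V _ G hD hO hW C L hL
  -- the graph on the vertices outside the cliques
  let H : SimpleGraph {v // ¬ InK G k v} := G.comap Subtype.val
  have hHadj : ∀ a b : {v // ¬ InK G k v}, H.Adj a b ↔ G.Adj a.1 b.1 := fun a b => Iff.rfl
  have hdeg : ∀ a : {v // ¬ InK G k v}, H.degree a = G.degree a.1 := by
    intro a
    rw [← SimpleGraph.card_neighborFinset_eq_degree, ← SimpleGraph.card_neighborFinset_eq_degree]
    refine Finset.card_bij (fun b _ => b.1) ?_ ?_ ?_
    · intro b hb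
      rw [SimpleGraph.mem_neighborFinset] at hb ⊢
      exact hb
    · intro b _ c _ h
      exact Subtype.ext h
    · intro b hb
      rw [SimpleGraph.mem_neighborFinset] at hb
      refine ⟨⟨b, fun h => a.2 (inK_adj G h hb.symm)⟩, ?_, rfl⟩
      rw [SimpleGraph.mem_neighborFinset]
      exact hb
  have hGood : Good H k D := by
    refine ⟨fun a => by rw [hdeg]; exact hD _, ?_, ?_⟩
    · intro a b hab h
      rw [hdeg] at h ⊢
      exact hO a.1 b.1 hab h
    · intro a ha hn
      by_contra hcon
      push Not at hcon
      apply a.2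
      refine inK_of G (by rw [← hdeg]; exact ha) ?_ ?_
      · intro w hw
        have := hn ⟨w, fun h => a.2 (inK_adj G h hw.symm)⟩ hw
        rw [hdeg] at this
        exact this
      · intro u u' hu hu' hne
        exact hcon ⟨u, fun h => a.2 (inK_adj G h hu.symm)⟩ ⟨u', fun h => a.2 (inK_adj G h hu'.symm)⟩
          hu hu' (fun h => hne (congrArg Subtype.val h))
  have hcardW : Fintype.card {v // ¬ InK G k v} = (univ.filter fun v => ¬ InK G k v).card :=
    Fintype.card_subtype _
  refine h1_ext k hk G ?_ C L hL
  intro C' L' hL'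
  exact hn0 {v // ¬ InK G k v} H hGood (by rw [hcardW]; exact hW) C' L' hL'

end Pool.Agent.Helper28.EQ
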