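import Pool.Agent.Helper28.EQ.Wt

/-!
# Block EQ-UP: probability of an expensive colour

PROOFS. `Pr_E_le`: `cl ω v = ℓ v (pick ..)`; by `Ex_pick` with `g j = 1` if `ℓ v j ∈ E`, the
probability is the expectation of `∑ j, pr (av ω v) j * g j`. If `Ls ℓ v \ E ⊆ bk ω v` this is
`≤ 1` (`sum_pr`). Otherwise there is a position `j0 ∈ av ω v` with `ℓ v j0 ∉ E` and every term is
`≤ y (ℓ v j) / y (ℓ v j0) ≤ κ`, there are `k` terms. `Pr_E_big`: `av = univ`, `pr = 1/k`.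
-/

namespace Pool.Agent.Helper28.EQ

open Finset

variable {V : Type} [Fintype V] [DecidableEq V] (G : SimpleGraph V) [DecidableRel G.Adj]
  {k D R : ℕ} {χ : V → ℕ} (ℓ : V → Fin k → ℕ) (y : V → ℕ → ℝ)

theorem h49_Pr_E_eq (hR : 0 < R) (hk : 0 < k) (hy : ∀ v c, 0 < y v c) (v : V) (E : Finset ℕ) :
    Pr (wt R ℓ y) (fun ω : V → Om R k => cl G D χ ℓ ω v ∈ E)
      = Ex (wt R ℓ y) (fun ω : V → Om R k => ∑ j, pr (y v) (ℓ v) (av G D χ ℓ ω v) j *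
          (if ℓ v j ∈ E then (1 : ℝ) else 0)) := by
  rw [← Ex_pick G ℓ y hR hk hy v (fun j => if ℓ v j ∈ E then (1 : ℝ) else 0)]
  unfold Pr
  congr 1
  funext ω
  have he : cl G D χ ℓ ω v = ℓ v (pick (ω v).2 (av G D χ ℓ ω v)) := cl_eq G ℓ ω v
  by_cases h : cl G D χ ℓ ω v ∈ E
  · rw [if_pos h, if_pos (he ▸ h)]
  · rw [if_neg h, if_neg (he ▸ h)]

theorem h49_pr_le {y : ℕ → ℝ} (hy : ∀ c, 0 < y c) (l : Fin k → ℕ) {A : Finset (Fin k)}
    {j0 : Fin k} (h0 : j0 ∈ A) {κ : ℝ} (hκ0 : 0 ≤ κ) (j : Fin k)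
    (hκ : y (l j) ≤ κ * y (l j0)) : pr y l A j ≤ κ := by
  have hA : A.Nonempty := ⟨j0, h0⟩
  unfold pr
  rw [if_pos hA]
  split_ifs
  · have hS : y (l j0) ≤ ∑ i ∈ A, y (l i) :=
      Finset.single_le_sum (f := fun i => y (l i)) (fun i _ => (hy (l i)).le) h0
    rw [div_le_iff₀ ((hy _).trans_le hS)]
    exact hκ.trans (mul_le_mul_of_nonneg_left hS hκ0)
  · exact hκ0

theorem Pr_E_le (hR : 0 < R) (hk : 0 < k) (hy : ∀ v c, 0 < y v c) (v : V) (E : Finset ℕ) (κ : ℝ)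
    (hκ0 : 0 ≤ κ) (hκ : ∀ c ∈ E, ∀ c', c' ∉ E → y v c ≤ κ * y v c') :
    Pr (wt R ℓ y) (fun ω : V → Om R k => cl G D χ ℓ ω v ∈ E)
      ≤ Pr (wt R ℓ y) (fun ω : V → Om R k => Ls ℓ v \ E ⊆ bk G D χ ℓ ω v) + k * κ := by
  have hw := isW_wt (V := V) ℓ y hR hk hy
  rw [h49_Pr_E_eq G ℓ y hR hk hy v E]
  unfold Pr
  have h1 : (k : ℝ) * κ = Ex (wt R ℓ y) (fun _ : V → Om R k => (k : ℝ) * κ) :=
    (Ex_const hw _).symm
  rw [h1, ← Ex_add]
  refine Ex_mono hw fun ω => ?_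
  have hkκ : 0 ≤ (k : ℝ) * κ := by positivity
  have hle1 : ∑ j, pr (y v) (ℓ v) (av G D χ ℓ ω v) j * (if ℓ v j ∈ E then (1 : ℝ) else 0) ≤ 1 := by
    refine le_of_le_of_eq ?_ (sum_pr hk (hy v) (ℓ v) (av G D χ ℓ ω v))
    refine Finset.sum_le_sum fun j _ => ?_
    have := pr_nonneg (hy v) (ℓ v) (av G D χ ℓ ω v) j
    split_ifs
    · rw [mul_one]
    · rw [mul_zero]; exact this
  by_cases h : Ls ℓ v \ E ⊆ bk G D χ ℓ ω v
  · rw [if_pos h]
    linarith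
  · rw [if_neg h, zero_add]
    obtain ⟨c, hc, hcb⟩ := Finset.not_subset.1 h
    rw [Finset.mem_sdiff, Ls, Finset.mem_image] at hc
    obtain ⟨⟨j0, _, hj0⟩, hcE⟩ := hc
    have hj0A : j0 ∈ av G D χ ℓ ω v := by
      rw [mem_av, hj0]; exact hcb
    calc ∑ j, pr (y v) (ℓ v) (av G D χ ℓ ω v) j * (if ℓ v j ∈ E then (1 : ℝ) else 0)
        ≤ ∑ _j : Fin k, κ := by
          refine Finset.sum_le_sum fun j _ => ?_
          split_ifs with hj
          · rw [mul_one]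
            exact h49_pr_le (hy v) (ℓ v) hj0A hκ0 j (hκ _ hj _ (by rw [hj0]; exact hcE))
          · rw [mul_zero]; exact hκ0
      _ = (k : ℝ) * κ := by
          rw [Finset.sum_const, Finset.card_univ, Fintype.card_fin, nsmul_eq_mul]

theorem Pr_E_big (hR : 0 < R) (hk : 0 < k) (hy : ∀ v c, 0 < y v c)
    (hinj : ∀ v, Function.Injective (ℓ v)) (v : V) (hv : k ≤ G.degree v)
    (hy1 : ∀ c, y v c = 1) (E : Finset ℕ) :
    Pr (wt R ℓ y) (fun ω : V → Om R k => cl G D χ ℓ ω v ∈ E)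
      = ((Ls ℓ v ∩ E).card : ℝ) / k := by
  have hw := isW_wt (V := V) ℓ y hR hk hy
  rw [h49_Pr_E_eq G ℓ y hR hk hy v E]
  have h1 : (fun ω : V → Om R k => ∑ j, pr (y v) (ℓ v) (av G D χ ℓ ω v) j *
      (if ℓ v j ∈ E then (1 : ℝ) else 0)) = fun _ => ((Ls ℓ v ∩ E).card : ℝ) / k := by
    funext ω
    rw [av_big G ℓ ω v hv]
    have hne : (univ : Finset (Fin k)).Nonempty := ⟨⟨0, hk⟩, Finset.mem_univ _⟩
    have hpr : ∀ j, pr (y v) (ℓ v) univ j = 1 / (k : ℝ) := by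
      intro j
      unfold pr
      rw [if_pos hne, if_pos (Finset.mem_univ _)]
      simp [hy1]
    simp only [hpr]
    rw [← Finset.mul_sum, ← Finset.sum_filter, Finset.sum_const, nsmul_eq_mul, mul_one]
    have hc : (univ.filter fun j => ℓ v j ∈ E).card = (Ls ℓ v ∩ E).card := by
      rw [← Finset.card_image_of_injective _ (hinj v)]
      congr 1
      ext c
      simp only [Ls, Finset.mem_image, Finset.mem_filter, Finset.mem_univ, true_and,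
        Finset.mem_inter]
      constructor
      · rintro ⟨j, hj, rfl⟩
        exact ⟨⟨j, rfl⟩, hj⟩
      · rintro ⟨⟨j, rfl⟩, hj⟩
        exact ⟨j, hj, rfl⟩
    rw [hc, one_div, inv_mul_eq_div]
  rw [h1, Ex_const hw]

end Pool.Agent.Helper28.EQ
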