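import Pool.Agent.Helper28.EQ.ProbA
import Pool.Agent.Helper28.EQ.ProbB
import Pool.Agent.Helper28.EQ.Proc
import Pool.Agent.Helper28.EQ.Loc

/-!
# Block EQ-WT: the weights of the process

PROOFS. `sum_pr`: for `A` nonempty the `y (l j) / ∑ i ∈ A, y (l i)`, `j ∈ A`, sum to one. `sum_wch`:
`∑ s, ∏ A', pr A' (s A') * g (s A)`: product over `A'` of sums (`Finset.prod_univ_sum` with
`Fintype.piFinset_univ`), all factors with `A' ≠ A` are one. `sum_wch_pick`: `pick s A = s A` when
`s A ∈ A`; if `A` is nonempty and `s A ∉ A` the weight of `s` is zero; if `A` is empty `pick s A =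
s A`. `Ex_pick`: `Ex_coord` at `v`; the inner sum over `a = (t, s)`; the available set of
`update ω v (t, s)` depends only on `t` and the other vertices (`av_update`), so one can sum over `s`
first (`sum_wch_pick`) and insert `1 = ∑ s, wch ...` again.
-/

namespace Pool.Agent.Helper28.EQ

open Finset

variable {V : Type} [Fintype V] [DecidableEq V] (G : SimpleGraph V) [DecidableRel G.Adj]
  {k D R : ℕ} {χ : V → ℕ} (ℓ : V → Fin k → ℕ) (y : V → ℕ → ℝ)

theorem pr_nonneg {y : ℕ → ℝ} (hy : ∀ c, 0 < y c) (l : Fin k → ℕ) (A : Finset (Fin k))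
    (j : Fin k) : 0 ≤ pr y l A j := by
  unfold pr
  split_ifs
  · exact div_nonneg (hy _).le (Finset.sum_nonneg fun i _ => (hy _).le)
  · exact le_rfl
  · positivity

theorem sum_pr (hk : 0 < k) {y : ℕ → ℝ} (hy : ∀ c, 0 < y c) (l : Fin k → ℕ)
    (A : Finset (Fin k)) : ∑ j, pr y l A j = 1 := by
  unfold pr
  by_cases hA : A.Nonempty
  · simp only [hA, if_true]
    rw [← Finset.sum_filter, ← Finset.sum_div]
    have h : (univ.filter fun j => j ∈ A) = A := by ext; simp
    rw [h]
    exact div_self (Finset.sum_pos (fun i _ => hy _) hA).ne'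
  · simp only [hA, if_false]
    have : (k : ℝ) ≠ 0 := by exact_mod_cast hk.ne'
    simp [this]

theorem sum_wch (hk : 0 < k) (hy : ∀ v c, 0 < y v c) (v : V) (A : Finset (Fin k))
    (g : Fin k → ℝ) :
    ∑ s : Finset (Fin k) → Fin k, wch ℓ y v s * g (s A) = ∑ j, pr (y v) (ℓ v) A j * g j := by
  have h1 : ∀ s : Finset (Fin k) → Fin k, wch ℓ y v s * g (s A)
      = ∏ A' : Finset (Fin k), (pr (y v) (ℓ v) A' (s A') * (if A' = A then g (s A') else 1)) := by
    intro s
    rw [Finset.prod_mul_distrib]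
    unfold wch
    congr 1
    rw [Finset.prod_ite_eq']
    simp
  rw [Finset.sum_congr rfl fun s _ => h1 s]
  have h2 := Finset.prod_univ_sum (fun _ : Finset (Fin k) => (univ : Finset (Fin k)))
    (fun A' j => pr (y v) (ℓ v) A' j * (if A' = A then g j else 1))
  rw [Fintype.piFinset_univ] at h2
  rw [← h2, Finset.prod_eq_single A]
  · simp
  · intro A' _ hA'
    simp only [hA', if_false, mul_one]
    exact sum_pr hk (hy v) _ _
  · intro h
    exact absurd (Finset.mem_univ A) h

theorem sum_wch_pick (hk : 0 < k) (hy : ∀ v c, 0 < y v c) (v : V) (A : Finset (Fin k))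
    (g : Fin k → ℝ) :
    ∑ s : Finset (Fin k) → Fin k, wch ℓ y v s * g (pick s A)
      = ∑ j, pr (y v) (ℓ v) A j * g j := by
  rw [← sum_wch ℓ y hk hy v A g]
  refine Finset.sum_congr rfl fun s _ => ?_
  by_cases hs : s A ∈ A
  · rw [pick_eq s hs]
  · by_cases hA : A.Nonempty
    · have h0 : wch ℓ y v s = 0 := by
        unfold wch
        refine Finset.prod_eq_zero (Finset.mem_univ A) ?_
        simp [pr, hA, hs]
      rw [h0, zero_mul, zero_mul]
    · have : pick s A = s A := by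
        simp [pick, hA]
      rw [this]

theorem isW_wch (hk : 0 < k) (hy : ∀ v c, 0 < y v c) :
    IsW (wch (V := V) ℓ y) := by
  refine ⟨fun v s => Finset.prod_nonneg fun A _ => pr_nonneg (hy v) _ _ _, fun v => ?_⟩
  have h := sum_wch ℓ y hk hy v ∅ (fun _ => 1)
  simp only [mul_one] at h
  rw [h]
  exact sum_pr hk (hy v) _ _

theorem isW_time (hR : 0 < R) : IsW (fun (_ : V) (_ : Fin R) => 1 / (R : ℝ)) := by
  refine ⟨fun _ _ => by positivity, fun _ => ?_⟩
  have : (R : ℝ) ≠ 0 := by exact_mod_cast hR.ne'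
  simp [this]

theorem isW_wt (hR : 0 < R) (hk : 0 < k) (hy : ∀ v c, 0 < y v c) :
    IsW (wt (V := V) R ℓ y) := by
  refine ⟨fun v a => mul_nonneg (by positivity) ((isW_wch ℓ y hk hy).1 v a.2), fun v => ?_⟩
  have hR' : (R : ℝ) ≠ 0 := by exact_mod_cast hR.ne'
  rw [Fintype.sum_prod_type]
  unfold wt
  simp only
  rw [Finset.sum_congr rfl fun t _ => (Finset.mul_sum _ _ _).symm]
  rw [(isW_wch ℓ y hk hy).2 v]
  simp [hR']

theorem Ex_pick (hR : 0 < R) (hk : 0 < k) (hy : ∀ v c, 0 < y v c) (v : V) (g : Fin k → ℝ) :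
    Ex (wt R ℓ y) (fun ω : V → Om R k => g (pick (ω v).2 (av G D χ ℓ ω v)))
      = Ex (wt R ℓ y) (fun ω => ∑ j, pr (y v) (ℓ v) (av G D χ ℓ ω v) j * g j) := by
  have hw := isW_wt (V := V) ℓ y hR hk hy
  rw [Ex_coord hw v (fun ω : V → Om R k => g (pick (ω v).2 (av G D χ ℓ ω v))),
    Ex_coord hw v (fun ω : V → Om R k => ∑ j, pr (y v) (ℓ v) (av G D χ ℓ ω v) j * g j)]
  congr 1
  funext ω
  rw [Fintype.sum_prod_type, Fintype.sum_prod_type]
  refine Finset.sum_congr rfl fun t _ => ?_
  set A : Finset (Fin k) := av G D χ ℓ (Function.update ω v (t, (ω v).2)) v with hA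
  have hAs : ∀ s : Finset (Fin k) → Fin k,
      av G D χ ℓ (Function.update ω v (t, s)) v = A := by
    intro s
    have h := av_update G ℓ (D := D) (χ := χ) (Function.update ω v (t, (ω v).2)) v s
    simp only [Function.update_self, Function.update_idem] at h
    exact h
  have e1 : ∀ s : Finset (Fin k) → Fin k,
      wt R ℓ y v (t, s) * g (pick (Function.update ω v (t, s) v).2
        (av G D χ ℓ (Function.update ω v (t, s)) v))
      = (1 / (R : ℝ)) * (wch ℓ y v s * g (pick s A)) := by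
    intro s
    rw [hAs s, Function.update_self]
    unfold wt
    ring
  have e2 : ∀ s : Finset (Fin k) → Fin k,
      wt R ℓ y v (t, s) * ∑ j, pr (y v) (ℓ v)
        (av G D χ ℓ (Function.update ω v (t, s)) v) j * g j
      = wch ℓ y v s * ((1 / (R : ℝ)) * ∑ j, pr (y v) (ℓ v) A j * g j) := by
    intro s
    rw [hAs s]
    unfold wt
    ring
  rw [Finset.sum_congr rfl fun s _ => e1 s, Finset.sum_congr rfl fun s _ => e2 s,
    ← Finset.mul_sum, ← Finset.sum_mul, sum_wch_pick ℓ y hk hy v A g,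
    (isW_wch ℓ y hk hy).2 v, one_mul]

theorem ys_pos {y0 : ℕ → ℝ} (hy0 : ∀ c, 0 < y0 c) (v : V) (c : ℕ) : 0 < ys G k y0 v c := by
  unfold ys
  split_ifs
  · exact one_pos
  · exact hy0 c

end Pool.Agent.Helper28.EQ
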